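import Mathlib
import Pool.Agent.MP_edaf86_an.Stmt

section

namespace SJ
open Set Filter Topology MeasureTheory Metric Function

/-- target statement for one dimension and one exponent -/
def SignChange (n : ℕ) (q : ℝ) : Prop :=
  ∃ Ω : Set (Fin n → ℝ), IsOpen Ω ∧ IsConnected Ω ∧
    ∃ (f : (Fin n → ℝ) → Fin n → ℝ) (Df : (Fin n → ℝ) → Matrix (Fin n) (Fin n) ℝ),
      IsEmbedding (fun x : Ω => f x) ∧ W2q q Ω f Df ∧
      0 < volume {x ∈ Ω | 0 < (Df x).det} ∧ 0 < volume {x ∈ Ω | (Df x).det < 0}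

section Calc
variable {E F : Type*} [NormedAddCommGroup E] [NormedSpace ℝ E] [NormedAddCommGroup F]
  [NormedSpace ℝ F]

/-- second derivative -/
noncomputable def D2 (f : E → F) (y : E) : E →L[ℝ] E →L[ℝ] F := fderiv ℝ (fderiv ℝ f) y

/-- C2 with global bounds on first and second derivative -/
structure C2B (f : E → F) (A B : ℝ) : Prop where
  cd : ContDiff ℝ 2 f
  d1 : ∀ y, ‖fderiv ℝ f y‖ ≤ A
  d2 : ∀ y, ‖D2 f y‖ ≤ B

/-- positive with logarithmic derivative bounds at scale r -/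
structure Lg (φ : E → ℝ) (r : ℝ) : Prop where
  cd : ContDiff ℝ 2 φ
  pos : ∀ x, 0 < φ x
  d1 : ∀ x, ‖fderiv ℝ φ x‖ ≤ φ x / r
  d2 : ∀ x, ‖D2 φ x‖ ≤ φ x / r ^ 2

/-- slowly varying at scale r -/
def SV (φ : E → ℝ) (r : ℝ) : Prop := ∀ x x', ‖x - x'‖ ≤ r → φ x' ≤ 3 * φ x

/-- backward compositions: a (j-1) after ... after a 0 -/
def Gs {E : Type*} (a : ℕ → E → E) : ℕ → E → E
  | 0 => fun y => y
  | j + 1 => fun y => a j (Gs a j y)

/-- forward compositions: P 0 after ... after P (j-1) -/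
def Fw {E : Type*} (P : ℕ → E → E) : ℕ → E → E
  | 0 => fun y => y
  | j + 1 => fun y => Fw P j (P j y)

end Calc

/-- smooth step: 0 on u ≤ 0, 1 on 1 ≤ u -/
noncomputable def st (u : ℝ) : ℝ := Real.smoothTransition u

/-- even bump: 1 on |u| ≤ 1, 0 on 2 ≤ |u| -/
noncomputable def zeta (u : ℝ) : ℝ := st (2 - u) * st (2 + u)

/-- regularised reciprocal, equal to 1/q for 1 ≤ q -/
noncomputable def inv1 (q : ℝ) : ℝ := 1 / (1 + (q - 1) * st (2 * q - 1))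

/-- v is within 2τ of a half integer -/
def Near (τ v : ℝ) : Prop := ∃ n : ℤ, |v - n - 1 / 2| ≤ 2 * τ

/-- degenerate vertical profile -/
noncomputable def phi (t : ℝ) : ℝ := t - Real.sin t

noncomputable def Phi {X : Type*} (y : X × ℝ) : X × ℝ := (y.1, phi y.2)

/-- horizontal move by -d -/
def sq {X : Type*} [NormedAddCommGroup X] (d : X × ℝ → X) (y : X × ℝ) : X × ℝ := y - (d y, 0)

/-- vertical flip -/
def rho {X : Type*} (e : X × ℝ → ℝ) (y : X × ℝ) : X × ℝ := (y.1, y.2 - 2 * e y)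

section Cluster
variable {X : Type*} [NormedAddCommGroup X] [NormedSpace ℝ X]

noncomputable def cq (I : Finset ℕ) (W : ℕ → X → ℝ) (s : ℕ → ℝ) (h : ℝ) (y : X × ℝ) : ℝ :=
  ∑ n ∈ I, W n y.1 * zeta ((y.2 - s n) / (2 * h))

noncomputable def cm (I : Finset ℕ) (W : ℕ → X → ℝ) (s : ℕ → ℝ) (h : ℝ) (y : X × ℝ) : ℝ :=
  ∑ n ∈ I, W n y.1 * (zeta ((y.2 - s n) / (2 * h)) * (y.2 - s n))

noncomputable def ce (I : Finset ℕ) (W : ℕ → X → ℝ) (s : ℕ → ℝ) (h : ℝ) (y : X × ℝ) : ℝ :=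
  cm I W s h y * inv1 (cq I W s h y)

/-- cluster system: weights W n at heights s n -/
structure CS (I : Finset ℕ) (W : ℕ → X → ℝ) (s : ℕ → ℝ) (κ H K : ℝ) : Prop where
  kpos : 0 < κ
  w01 : ∀ n x, 0 ≤ W n x ∧ W n x ≤ 1
  wb : ∀ n, C2B (W n) (K / κ) (K / κ ^ 2)
  sep : ∀ n ∈ I, ∀ n' ∈ I, ∀ x, x ∈ tsupport (W n) → x ∈ tsupport (W n') →
    |s n - s n'| ≤ 4 * κ ∨ H ≤ |s n - s n'|
  cnt : ∀ t, ((I.filter fun n => |s n - t| ≤ 4 * κ).card : ℝ) ≤ K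

end Cluster

/-- every modulated horizontal move by d is antilipschitz -/
def ModAL {X : Type*} [NormedAddCommGroup X] [NormedSpace ℝ X] (d : X × ℝ → X) (μ c : ℝ) : Prop :=
  ∀ (χ : X × ℝ → ℝ) (Lχ : ℝ), (∀ y, 0 ≤ χ y ∧ χ y ≤ 1) →
    (∀ y y', |χ y - χ y'| ≤ Lχ * ‖y - y'‖) → 8 * μ * Lχ ≤ c →
    ∀ y y', c / 8 * ‖y - y'‖ ≤ ‖sq (fun z => χ z • d z) y - sq (fun z => χ z • d z) y'‖

section Tpart
variable {ι : Type} [Fintype ι] [DecidableEq ι]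

noncomputable def Pp (b : ι → (ι → ℝ) → ℝ) (x : ι → ℝ) : ℝ :=
  ∑ k, ∑ l ∈ Finset.univ.erase k, b k x * b l x

noncomputable def sg (b : ι → (ι → ℝ) → ℝ) (x : ι → ℝ) : ℝ := Pp b x / ∑ k, b k x

noncomputable def vt (b : ι → (ι → ℝ) → ℝ) (k : ι) (x : ι → ℝ) : ℝ :=
  st (b k x / sg b x / (Fintype.card ι : ℝ) - 1)

noncomputable def act (b : ι → (ι → ℝ) → ℝ) (k : ι) (x : ι → ℝ) : ℝ := 1 - vt b k x ^ 2

/-- state of the degenerating horizontal construction -/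
structure TS (g : (ι → ℝ) → ι → ℝ) (b : ι → (ι → ℝ) → ℝ) (U : (ι → ℝ) → ℝ) (r : ℝ) : Prop where
  rpos : 0 < r
  cd : ContDiff ℝ 2 g
  col : ∀ x k, ‖fderiv ℝ g x (Pi.single k 1)‖ ≤ b k x ^ 2
  d2 : ∀ x, ‖D2 g x‖ ≤ U x / r
  lg : ∀ k, Lg (b k) (2 * r)
  pu : ∀ x, Pp b x ≤ U x
  cu : Continuous U
  sv : SV U r

/-- regularity of one family of activity functions at scale L -/
structure Reg (K L : ℝ) (θ : ι → (ι → ℝ) → ℝ) : Prop where
  r01 : ∀ k x, 0 ≤ θ k x ∧ θ k x ≤ 1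
  rC : ∀ k, C2B (θ k) (K / L) (K / L ^ 2)
  one : ∀ x k l, θ k x ≠ 1 → θ l x ≠ 1 → k = l

end Tpart

noncomputable def Lam (x : ℝ) : ℝ := Real.exp (2800 * x)
noncomputable def ell (x : ℝ) : ℝ := Real.exp (-(16800000 * x))
noncomputable def mu (x : ℝ) : ℝ := ell x / Lam x ^ 2

/-- geometric growth of the logarithmic parameters -/
structure Geo (lam : ℕ → ℝ) : Prop where
  succ : ∀ j, lam (j + 1) = 401 / 400 * lam j
  zero : 400 ≤ lam 0

section Packs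
variable {ι : Type} [Fintype ι] [DecidableEq ι]

/-- data of one flip level -/
structure Lev (K x : ℝ) (θ : ι → (ι → ℝ) → ℝ) (G : (ι → ℝ) × ℝ → (ι → ℝ) × ℝ)
    (I : Finset ℕ) (W : ℕ → (ι → ℝ) → ℝ) (s : ℕ → ℝ) (κ H : ℝ) (d : (ι → ℝ) × ℝ → ι → ℝ)
    (A : (ι → ℝ) × ℝ → (ι → ℝ) × ℝ) (Bad : Set ((ι → ℝ) × ℝ)) : Prop where
  cs : CS I W s κ H K
  top : ∀ n ∈ I, s n ≤ -ell x / 2
  k1 : mu x ≤ κ * Real.exp x ^ 4
  k2 : κ * Real.exp x ≤ mu x
  hH : 640 * ell x * Lam x ^ 15 ≤ H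
  d0 : ∀ y, ‖d y‖ ≤ mu x / 2
  dC : C2B d (K * Lam x) (K * Lam x ^ 2 / mu x)
  dpass : ∀ y k, θ k y.1 = 0 → d y k = 0
  dtop : ∀ y, -ell x / 2 ≤ y.2 → d y = 0
  dmod : ModAL d (mu x) (κ / mu x)
  Ali : LeftInverse A (sq d)
  Ari : RightInverse A (sq d)
  AC : C2B A (8 / (κ / mu x)) (K * Lam x ^ 2 / mu x * (8 / (κ / mu x)) ^ 3)
  good : ∀ y, y ∉ Bad → -2 ≤ (G y).2 → (G y).2 ≤ -ell x → ∃ J ⊆ I, 5 ≤ J.card ∧
    ∀ n ∈ J, W n (sq d (G y)).1 = 1 ∧ |s n - (G y).2| ≤ κ / 2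
  bad : volume (Bad ∩ ball 0 1) ≤ ENNReal.ofReal (Real.exp (-(600000 * 2800 * x)))

/-- facts about the maps of one flip level -/
structure Lev1 (x : ℝ) (θ : ι → (ι → ℝ) → ℝ) (κ : ℝ) (a ρ : (ι → ℝ) × ℝ → (ι → ℝ) × ℝ)
    (O : Set ((ι → ℝ) × ℝ)) : Prop where
  k1 : ell x / Lam x ^ 3 ≤ κ
  k2 : κ ≤ ell x / Lam x ^ 2
  aC : C2B a (Lam x ^ 20) (Lam x ^ 20 / ell x)
  a2 : ∀ y, (a y).2 = y.2
  ad : ∀ y, ‖a y - y‖ ≤ ell x / Lam x
  aal : ∀ y y', ‖y - y'‖ ≤ Real.exp x ^ 5 * ‖a y - a y'‖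
  atop : ∀ y, -ell x / 3 ≤ y.2 → a y = y
  apass : ∀ y k, θ k y.1 = 0 → (a y).1 k = y.1 k
  rC : C2B ρ (Lam x ^ 20) (Lam x ^ 20 / ell x)
  r1 : ∀ y, (ρ y).1 = y.1
  rd : ∀ y, ‖ρ y - y‖ ≤ ell x / Lam x
  rtop : ∀ y, -ell x / 3 ≤ y.2 → ρ y = y
  oopen : IsOpen O
  odet : ∀ y ∈ O, (fderiv ℝ ρ y).det < 0

/-- facts about the correction maps between a level (x, κ, ρ, O) and the next (primed) -/
structure Lev2 (x x' : ℝ) (θ' : ι → (ι → ℝ) → ℝ) (κ κ' : ℝ)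
    (ρ a' ρ' S Γ : (ι → ℝ) × ℝ → (ι → ℝ) × ℝ) (O O' : Set ((ι → ℝ) × ℝ)) : Prop where
  sC : C2B S (Real.exp x' * κ / κ') (Lam x' ^ 20 / ell x')
  s1 : ∀ y, (S y).1 = y.1
  sinj : Injective S
  svert : ∀ z t t', |(S (z, t)).2 - (S (z, t')).2| ≤ 2 * |t - t'|
  sd : ∀ y, ‖S y - y‖ ≤ Real.exp x * κ
  stop : ∀ y, -ell x / 3 ≤ y.2 → S y = y
  gC : C2B Γ (Real.exp x' ^ 6) (Lam x' ^ 20 / ell x')
  ginj : Injective Γ
  gd : ∀ y, ‖Γ y - y‖ ≤ κ / Lam x' ^ 2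
  gtop : ∀ y, -ell x / 3 ≤ y.2 → Γ y = y
  gpass : ∀ y k, (∀ z, ‖z - y.1‖ ≤ ell x' → θ' k z = 0) → (Γ y).1 k = y.1 k
  ident : ∀ y ∈ O, a' y ∈ O' → Γ (S (ρ' (a' y))) = ρ y

/-- the whole flip sequence -/
structure PackF (lam : ℕ → ℝ) (θ : ℕ → ι → (ι → ℝ) → ℝ) (κ : ℕ → ℝ)
    (a ρ S Γ : ℕ → (ι → ℝ) × ℝ → (ι → ℝ) × ℝ) (O Bad : ℕ → Set ((ι → ℝ) × ℝ)) : Prop where
  l1 : ∀ j, Lev1 (lam j) (θ j) (κ j) (a j) (ρ j) (O j)
  l2 : ∀ j, Lev2 (lam j) (lam (j + 1)) (θ (j + 1)) (κ j) (κ (j + 1)) (ρ j) (a (j + 1)) (ρ (j + 1))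
    (S j) (Γ j) (O j) (O (j + 1))
  good : ∀ j, ∀ y ∈ ball (0 : (ι → ℝ) × ℝ) 1, y ∉ Bad j → y.2 ≤ -ell (lam j) →
    Gs a (j + 1) y ∈ O j
  bad : ∀ j, volume (Bad j ∩ ball 0 1) ≤ ENNReal.ofReal (Real.exp (-(600000 * 2800 * lam j)))

/-- the whole degenerating sequence -/
structure PackT (lam : ℕ → ℝ) (θ : ℕ → ι → (ι → ℝ) → ℝ) (H : ℕ → (ι → ℝ) × ℝ → (ι → ℝ) × ℝ)
    (g : ℕ → (ι → ℝ) → ι → ℝ) (U : ℕ → (ι → ℝ) → ℝ) : Prop where
  hC : ∀ j, C2B (H j) (Lam (lam j) ^ 6) (Lam (lam j) ^ 20 / ell (lam j))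
  h2 : ∀ j y, (H j y).2 = y.2
  hinj : ∀ j, Injective (H j)
  hd : ∀ j y, ‖H j y - y‖ ≤ ell (lam j) / Lam (lam j)
  hoff : ∀ j y, ell (lam j) / 4 ≤ |y.2| → H j y = y
  hon : ∀ j y, |y.2| ≤ ell (lam j) / 8 → g (j + 1) y.1 = g j (H j y).1
  hpass : ∀ j y k, θ j k y.1 = 0 → (H j y).1 k = y.1 k
  g0 : ∀ x, g 0 x = x
  gcd : ∀ j, ContDiff ℝ 2 (g j)
  gd2 : ∀ j x, ‖D2 (g j) x‖ ≤ U j x / ell (lam j)
  gcol : ∀ j x x' k, ‖x - x'‖ ≤ 2 * ell (lam j) → (θ j k x' ≠ 0 ∨ θ (j + 1) k x' ≠ 0) →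
    ‖fderiv ℝ (g j) x (Pi.single k 1)‖ ≤ Lam (lam j) ^ 10 * U j x'
  upos : ∀ j x, 0 ≤ U j x
  ucont : ∀ j, Continuous (U j)
  usv : ∀ j, SV (U j) (ell (lam j))
  uint : ∀ j, ∫⁻ x in ball (0 : ι → ℝ) 1, ENNReal.ofReal (U (j + 1) x) ≤
    ENNReal.ofReal (1 / Lam (lam j)) * ∫⁻ x in ball (0 : ι → ℝ) 1, ENNReal.ofReal (U j x)

/-- the smooth approximants -/
noncomputable def FF (H S Γ ρ a : ℕ → (ι → ℝ) × ℝ → (ι → ℝ) × ℝ) (j : ℕ) (y : (ι → ℝ) × ℝ) :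
    (ι → ℝ) × ℝ :=
  Phi (Fw H (j + 1) (Fw (fun i z => Γ i (S i z)) j (ρ j (Gs a (j + 1) y))))

end Packs

end SJ

end

section

namespace SJ
open Set Filter Topology MeasureTheory Metric Function
open scoped ENNReal

variable {E F G : Type*} [NormedAddCommGroup E] [NormedSpace ℝ E] [NormedAddCommGroup F]
  [NormedSpace ℝ F] [NormedAddCommGroup G] [NormedSpace ℝ G]

namespace Calc1X

theorem diff1 {f : E → F} (hf : ContDiff ℝ 2 f) : Differentiable ℝ f :=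
  hf.differentiable (by norm_num)

theorem cd1 {f : E → F} (hf : ContDiff ℝ 2 f) : ContDiff ℝ 1 (fderiv ℝ f) :=
  hf.fderiv_right (m := 1) (by norm_num)

theorem diff2 {f : E → F} (hf : ContDiff ℝ 2 f) : Differentiable ℝ (fderiv ℝ f) :=
  (cd1 hf).differentiable (by norm_num)

theorem has2 {f : E → F} (hf : ContDiff ℝ 2 f) (y : E) :
    HasFDerivAt (fderiv ℝ f) (D2 f y) y := (diff2 hf y).hasFDerivAt

end Calc1X
open Calc1X

theorem D2_congr {f g : E → F} {y : E} (h : f =ᶠ[𝓝 y] g) : D2 f y = D2 g y :=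
  h.fderiv.fderiv_eq

theorem D2_comp_apply {g : F → G} {f : E → F} (hg : ContDiff ℝ 2 g) (hf : ContDiff ℝ 2 f)
    (y v w : E) : D2 (fun x => g (f x)) y v w =
      D2 g (f y) (fderiv ℝ f y v) (fderiv ℝ f y w) + fderiv ℝ g (f y) (D2 f y v w) := by
  have h1 : fderiv ℝ (fun x => g (f x)) = fun x => (fderiv ℝ g (f x)).comp (fderiv ℝ f x) := by
    funext x
    exact ((diff1 hg (f x)).hasFDerivAt.comp x (diff1 hf x).hasFDerivAt).fderiv
  have h2 : HasFDerivAt (fun x => fderiv ℝ g (f x)) ((D2 g (f y)).comp (fderiv ℝ f y)) y :=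
    (has2 hg (f y)).comp y (diff1 hf y).hasFDerivAt
  have h3 := (h2.clm_comp (has2 hf y)).fderiv
  unfold D2 at *
  rw [h1, h3]
  simp [add_comm]

theorem D2_const (c : F) (y : E) : D2 (fun _ : E => c) y = 0 := by
  have : fderiv ℝ (fun _ : E => c) = fun _ => 0 := by funext x; simp
  unfold D2
  rw [this]; simp

theorem D2_clm (L : E →L[ℝ] F) (y : E) : D2 (fun x => L x) y = 0 := by
  have : fderiv ℝ (fun x => L x) = fun _ => L := by funext x; exact L.fderiv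
  unfold D2
  rw [this]; simp

theorem D2_clm_comp (L : F →L[ℝ] G) {f : E → F} (hf : ContDiff ℝ 2 f) (y v w : E) :
    D2 (fun x => L (f x)) y v w = L (D2 f y v w) := by
  have h := D2_comp_apply (g := fun z => L z) L.contDiff hf y v w
  rw [h, D2_clm]
  have : fderiv ℝ (fun z => L z) (f y) = L := L.fderiv
  rw [this]; simp

theorem norm_D2_le_of_apply {f : E → F} {y : E} {C : ℝ} (hC : 0 ≤ C)
    (h : ∀ v w, ‖D2 f y v w‖ ≤ C * ‖v‖ * ‖w‖) : ‖D2 f y‖ ≤ C :=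
  ContinuousLinearMap.opNorm_le_bound₂ _ hC h

theorem norm_D2_apply_le (f : E → F) (y v w : E) : ‖D2 f y v w‖ ≤ ‖D2 f y‖ * ‖v‖ * ‖w‖ :=
  ContinuousLinearMap.le_opNorm₂ _ v w

theorem norm_fderiv_comp_le' {g : F → G} {f : E → F} (hg : ContDiff ℝ 2 g) (hf : ContDiff ℝ 2 f)
    (y : E) : ‖fderiv ℝ (fun x => g (f x)) y‖ ≤ ‖fderiv ℝ g (f y)‖ * ‖fderiv ℝ f y‖ := by
  have h1 : fderiv ℝ (fun x => g (f x)) y = (fderiv ℝ g (f y)).comp (fderiv ℝ f y) :=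
    ((diff1 hg (f y)).hasFDerivAt.comp y (diff1 hf y).hasFDerivAt).fderiv
  rw [h1]; exact ContinuousLinearMap.opNorm_comp_le _ _

theorem norm_D2_comp_le {g : F → G} {f : E → F} (hg : ContDiff ℝ 2 g) (hf : ContDiff ℝ 2 f)
    (y : E) : ‖D2 (fun x => g (f x)) y‖ ≤
      ‖D2 g (f y)‖ * ‖fderiv ℝ f y‖ ^ 2 + ‖fderiv ℝ g (f y)‖ * ‖D2 f y‖ := by
  refine norm_D2_le_of_apply (by positivity) fun v w => ?_
  rw [D2_comp_apply hg hf]
  have a1 := norm_D2_apply_le g (f y) (fderiv ℝ f y v) (fderiv ℝ f y w)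
  have a2 := (fderiv ℝ f y).le_opNorm v
  have a3 := (fderiv ℝ f y).le_opNorm w
  have a4 := (fderiv ℝ g (f y)).le_opNorm (D2 f y v w)
  have a5 := norm_D2_apply_le f y v w
  have b1 : ‖D2 g (f y)‖ * ‖fderiv ℝ f y v‖ * ‖fderiv ℝ f y w‖ ≤
      ‖D2 g (f y)‖ * (‖fderiv ℝ f y‖ * ‖v‖) * (‖fderiv ℝ f y‖ * ‖w‖) := by gcongr
  have b2 : ‖fderiv ℝ g (f y)‖ * ‖D2 f y v w‖ ≤
      ‖fderiv ℝ g (f y)‖ * (‖D2 f y‖ * ‖v‖ * ‖w‖) := by gcongr
  refine (norm_add_le _ _).trans ?_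
  nlinarith

theorem D2_add {f g : E → F} (hf : ContDiff ℝ 2 f) (hg : ContDiff ℝ 2 g) (y : E) :
    D2 (fun x => f x + g x) y = D2 f y + D2 g y := by
  have h1 : fderiv ℝ (fun x => f x + g x) = fun x => fderiv ℝ f x + fderiv ℝ g x := by
    funext x
    exact ((diff1 hf x).hasFDerivAt.add (diff1 hg x).hasFDerivAt).fderiv
  have h2 := ((has2 hf y).add (has2 hg y)).fderiv
  unfold D2 at *
  rw [h1]; exact h2

theorem D2_sub {f g : E → F} (hf : ContDiff ℝ 2 f) (hg : ContDiff ℝ 2 g) (y : E) :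
    D2 (fun x => f x - g x) y = D2 f y - D2 g y := by
  have h1 : fderiv ℝ (fun x => f x - g x) = fun x => fderiv ℝ f x - fderiv ℝ g x := by
    funext x
    exact ((diff1 hf x).hasFDerivAt.sub (diff1 hg x).hasFDerivAt).fderiv
  have h2 := ((has2 hf y).sub (has2 hg y)).fderiv
  unfold D2 at *
  rw [h1]; exact h2

namespace Calc1X

theorem fderiv_smul_apply {φ : E → ℝ} {f : E → F} (hφ : ContDiff ℝ 2 φ) (hf : ContDiff ℝ 2 f)
    (y w : E) : fderiv ℝ (fun x => φ x • f x) y w =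
      φ y • fderiv ℝ f y w + fderiv ℝ φ y w • f y := by
  have h := ((diff1 hφ y).hasFDerivAt.smul (diff1 hf y).hasFDerivAt).fderiv
  have h' : fderiv ℝ (fun x => φ x • f x) y =
      φ y • fderiv ℝ f y + (fderiv ℝ φ y).smulRight (f y) := h
  rw [h']; simp

theorem has_eval {f : E → F} (hf : ContDiff ℝ 2 f) (y w : E) :
    HasFDerivAt (fun x => fderiv ℝ f x w) ((D2 f y).flip w) y := by
  have h := (has2 hf y).clm_apply (hasFDerivAt_const w y)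
  convert h using 1
  ext v; simp

theorem D2_smul_apply {φ : E → ℝ} {f : E → F} (hφ : ContDiff ℝ 2 φ) (hf : ContDiff ℝ 2 f)
    (y v w : E) : D2 (fun x => φ x • f x) y v w =
      φ y • D2 f y v w + fderiv ℝ φ y v • fderiv ℝ f y w +
        (fderiv ℝ φ y w • fderiv ℝ f y v + D2 φ y v w • f y) := by
  have h1 := has_eval (hφ.smul hf) y w
  have e : (fun x => fderiv ℝ (φ • f) x w) =
      fun x => φ x • fderiv ℝ f x w + fderiv ℝ φ x w • f x := by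
    funext x; exact fderiv_smul_apply hφ hf x w
  rw [e] at h1
  have h2 := ((diff1 hφ y).hasFDerivAt.smul (has_eval hf y w)).add
    ((has_eval hφ y w).smul (diff1 hf y).hasFDerivAt)
  have h3 := congrArg (fun L => L v) (h1.unique h2)
  show D2 (φ • f) y v w = _
  simpa using h3

end Calc1X

theorem norm_fderiv_smul_le' {φ : E → ℝ} {f : E → F} (hφ : ContDiff ℝ 2 φ) (hf : ContDiff ℝ 2 f)
    (y : E) : ‖fderiv ℝ (fun x => φ x • f x) y‖ ≤
      ‖fderiv ℝ φ y‖ * ‖f y‖ + |φ y| * ‖fderiv ℝ f y‖ := by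
  refine ContinuousLinearMap.opNorm_le_bound _ (by positivity) fun w => ?_
  rw [fderiv_smul_apply hφ hf]
  refine (norm_add_le _ _).trans ?_
  rw [norm_smul, norm_smul, Real.norm_eq_abs (φ y)]
  have a1 := (fderiv ℝ f y).le_opNorm w
  have a2 := (fderiv ℝ φ y).le_opNorm w
  have b1 : |φ y| * ‖fderiv ℝ f y w‖ ≤ |φ y| * (‖fderiv ℝ f y‖ * ‖w‖) := by gcongr
  have b2 : ‖fderiv ℝ φ y w‖ * ‖f y‖ ≤ ‖fderiv ℝ φ y‖ * ‖w‖ * ‖f y‖ := by gcongr
  nlinarith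

theorem norm_D2_smul_le {φ : E → ℝ} {f : E → F} (hφ : ContDiff ℝ 2 φ) (hf : ContDiff ℝ 2 f)
    (y : E) : ‖D2 (fun x => φ x • f x) y‖ ≤
      ‖D2 φ y‖ * ‖f y‖ + 2 * ‖fderiv ℝ φ y‖ * ‖fderiv ℝ f y‖ + |φ y| * ‖D2 f y‖ := by
  refine norm_D2_le_of_apply (by positivity) fun v w => ?_
  rw [D2_smul_apply hφ hf]
  refine (norm_add_le _ _).trans ?_
  refine (add_le_add (norm_add_le _ _) (norm_add_le _ _)).trans ?_
  rw [norm_smul, norm_smul, norm_smul, norm_smul, Real.norm_eq_abs (φ y)]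
  have a1 := (fderiv ℝ f y).le_opNorm w
  have a2 := (fderiv ℝ φ y).le_opNorm w
  have a3 := (fderiv ℝ f y).le_opNorm v
  have a4 := (fderiv ℝ φ y).le_opNorm v
  have a5 := norm_D2_apply_le f y v w
  have a6 := norm_D2_apply_le φ y v w
  have b1 : |φ y| * ‖D2 f y v w‖ ≤ |φ y| * (‖D2 f y‖ * ‖v‖ * ‖w‖) := by gcongr
  have b2 : ‖fderiv ℝ φ y v‖ * ‖fderiv ℝ f y w‖ ≤
      ‖fderiv ℝ φ y‖ * ‖v‖ * (‖fderiv ℝ f y‖ * ‖w‖) := by gcongr
  have b3 : ‖fderiv ℝ φ y w‖ * ‖fderiv ℝ f y v‖ ≤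
      ‖fderiv ℝ φ y‖ * ‖w‖ * (‖fderiv ℝ f y‖ * ‖v‖) := by gcongr
  have b4 : ‖D2 φ y v w‖ * ‖f y‖ ≤ ‖D2 φ y‖ * ‖v‖ * ‖w‖ * ‖f y‖ := by gcongr
  nlinarith

theorem continuous_D2 {f : E → F} (hf : ContDiff ℝ 2 f) : Continuous (D2 f) :=
  (cd1 hf).continuous_fderiv (by norm_num)

theorem C2B.nonneg1 {f : E → F} {A B : ℝ} (h : C2B f A B) : 0 ≤ A :=
  (norm_nonneg _).trans (h.d1 0)

theorem C2B.nonneg2 {f : E → F} {A B : ℝ} (h : C2B f A B) : 0 ≤ B :=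
  (norm_nonneg (D2 f 0)).trans (h.d2 0)

theorem C2B.cont {f : E → F} {A B : ℝ} (h : C2B f A B) : Continuous f := h.cd.continuous

theorem C2B.diff {f : E → F} {A B : ℝ} (h : C2B f A B) : Differentiable ℝ f := diff1 h.cd

theorem C2B.mono {f : E → F} {A B A' B' : ℝ} (h : C2B f A B) (hA : A ≤ A') (hB : B ≤ B') :
    C2B f A' B' := ⟨h.cd, fun y => (h.d1 y).trans hA, fun y => (h.d2 y).trans hB⟩

theorem C2B.comp {g : F → G} {f : E → F} {A B A' B' : ℝ} (hg : C2B g A' B') (hf : C2B f A B) :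
    C2B (fun x => g (f x)) (A' * A) (B' * A ^ 2 + A' * B) := by
  have p1 := hg.nonneg1
  have p2 := hg.nonneg2
  refine ⟨hg.cd.comp hf.cd, fun y => (norm_fderiv_comp_le' hg.cd hf.cd y).trans ?_,
    fun y => (norm_D2_comp_le hg.cd hf.cd y).trans ?_⟩
  · have := hg.d1 (f y); have := hf.d1 y; gcongr
  · have := hg.d1 (f y); have := hf.d1 y; have := hg.d2 (f y); have := hf.d2 y; gcongr

theorem C2B.add {f g : E → F} {A B A' B' : ℝ} (hf : C2B f A B) (hg : C2B g A' B') :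
    C2B (fun x => f x + g x) (A + A') (B + B') := by
  refine ⟨hf.cd.add hg.cd, fun y => ?_, fun y => ?_⟩
  · have h1 : fderiv ℝ (fun x => f x + g x) y = fderiv ℝ f y + fderiv ℝ g y :=
      ((hf.diff y).hasFDerivAt.add (hg.diff y).hasFDerivAt).fderiv
    rw [h1]; exact (norm_add_le _ _).trans (add_le_add (hf.d1 y) (hg.d1 y))
  · rw [D2_add hf.cd hg.cd]
    exact (norm_add_le (D2 f y) (D2 g y)).trans (add_le_add (hf.d2 y) (hg.d2 y))

theorem C2B.sub {f g : E → F} {A B A' B' : ℝ} (hf : C2B f A B) (hg : C2B g A' B') :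
    C2B (fun x => f x - g x) (A + A') (B + B') := by
  refine ⟨hf.cd.sub hg.cd, fun y => ?_, fun y => ?_⟩
  · have h1 : fderiv ℝ (fun x => f x - g x) y = fderiv ℝ f y - fderiv ℝ g y :=
      ((hf.diff y).hasFDerivAt.sub (hg.diff y).hasFDerivAt).fderiv
    rw [h1]; exact (norm_sub_le _ _).trans (add_le_add (hf.d1 y) (hg.d1 y))
  · rw [D2_sub hf.cd hg.cd]
    exact (norm_sub_le (D2 f y) (D2 g y)).trans (add_le_add (hf.d2 y) (hg.d2 y))

theorem C2B.const (c : F) : C2B (fun _ : E => c) 0 0 :=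
  ⟨contDiff_const, fun y => by simp, fun y => by rw [D2_const]; exact ContinuousLinearMap.opNorm_zero.le⟩

theorem C2B.neg {f : E → F} {A B : ℝ} (hf : C2B f A B) : C2B (fun x => -f x) A B := by
  have h := (C2B.const (E := E) (0 : F)).sub hf
  simpa using h

theorem C2B.clm (L : E →L[ℝ] F) : C2B (fun x => L x) ‖L‖ 0 :=
  ⟨L.contDiff, fun y => (congrArg norm L.fderiv).le, 
    fun y => by rw [D2_clm]; exact ContinuousLinearMap.opNorm_zero.le⟩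

theorem C2B.id' : C2B (fun x : E => x) 1 0 :=
  (C2B.clm (ContinuousLinearMap.id ℝ E)).mono ContinuousLinearMap.norm_id_le le_rfl

theorem C2B.fst' : C2B (fun y : E × F => y.1) 1 0 :=
  (C2B.clm (ContinuousLinearMap.fst ℝ E F)).mono (ContinuousLinearMap.norm_fst_le ..) le_rfl

theorem C2B.snd' : C2B (fun y : E × F => y.2) 1 0 :=
  (C2B.clm (ContinuousLinearMap.snd ℝ E F)).mono (ContinuousLinearMap.norm_snd_le ..) le_rfl

theorem C2B.coord {ι : Type*} [Fintype ι] (k : ι) : C2B (fun x : ι → ℝ => x k) 1 0 :=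
  (C2B.clm (ContinuousLinearMap.proj k : (ι → ℝ) →L[ℝ] ℝ)).mono
    (ContinuousLinearMap.opNorm_le_bound _ zero_le_one fun x => by
      simpa using norm_le_pi_norm x k) le_rfl

theorem C2B.fst {f : E → F × G} {A B : ℝ} (h : C2B f A B) : C2B (fun y => (f y).1) A B := by
  simpa using (C2B.fst' (E := F) (F := G)).comp h

theorem C2B.snd {f : E → F × G} {A B : ℝ} (h : C2B f A B) : C2B (fun y => (f y).2) A B := by
  simpa using (C2B.snd' (E := F) (F := G)).comp h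

end SJ

end

section

namespace SJ
open Set Filter Topology MeasureTheory Metric Function
open scoped ENNReal

variable {E F G : Type*} [NormedAddCommGroup E] [NormedSpace ℝ E] [NormedAddCommGroup F]
  [NormedSpace ℝ F] [NormedAddCommGroup G] [NormedSpace ℝ G]

namespace Calc2X

theorem fderiv_clm_comp (L : F →L[ℝ] G) {f : E → F} (hf : ContDiff ℝ 2 f) (y v : E) :
    fderiv ℝ (fun x => L (f x)) y v = L (fderiv ℝ f y v) := by
  have := (L.hasFDerivAt.comp y (hf.differentiable (by norm_num) y).hasFDerivAt).fderiv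
  rw [show (fun x => L (f x)) = L ∘ f from rfl, this]
  rfl

theorem d1_apply {f : E → F} {A B : ℝ} (h : C2B f A B) (y v : E) :
    ‖fderiv ℝ f y v‖ ≤ A * ‖v‖ :=
  ((fderiv ℝ f y).le_opNorm v).trans (mul_le_mul_of_nonneg_right (h.d1 y) (norm_nonneg _))

theorem d2_apply {f : E → F} {A B : ℝ} (h : C2B f A B) (y v w : E) :
    ‖D2 f y v w‖ ≤ B * ‖v‖ * ‖w‖ :=
  (norm_D2_apply_le f y v w).trans (by gcongr; exact h.d2 y)

theorem sum_bound {α : Type*} (I : Finset α) {f : α → E → F} (h : ∀ n ∈ I, ContDiff ℝ 2 (f n))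
    (y : E) : fderiv ℝ (fun y => ∑ n ∈ I, f n y) y = ∑ n ∈ I, fderiv ℝ (f n) y ∧
      D2 (fun y => ∑ n ∈ I, f n y) y = ∑ n ∈ I, D2 (f n) y := by
  classical
  refine ⟨fderiv_fun_sum fun n hn => (h n hn).differentiable (by norm_num) y, ?_⟩
  induction I using Finset.induction_on with
  | empty => simpa using D2_const (0 : F) y
  | insert a s ha ih =>
    have h' : ∀ n ∈ s, ContDiff ℝ 2 (f n) := fun n hn => h n (Finset.mem_insert_of_mem hn)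
    simp only [Finset.sum_insert ha]
    rw [D2_add (h a (Finset.mem_insert_self a s)) (ContDiff.sum h'), ih h']

end Calc2X

open Calc2X

theorem C2B.prodMk {f : E → F} {g : E → G} {A B : ℝ} (hf : C2B f A B) (hg : C2B g A B) :
    C2B (fun y => (f y, g y)) A B := by
  have hc : ContDiff ℝ 2 fun y => (f y, g y) := hf.cd.prodMk hg.cd
  refine ⟨hc, fun y => ContinuousLinearMap.opNorm_le_bound _ hf.nonneg1 fun v => ?_,
    fun y => norm_D2_le_of_apply hf.nonneg2 fun v w => ?_⟩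
  · rw [Prod.norm_def]
    refine max_le ?_ ?_
    · exact (congrArg norm (fderiv_clm_comp (ContinuousLinearMap.fst ℝ F G) hc y v)).symm.trans_le
        (d1_apply hf y v)
    · exact (congrArg norm (fderiv_clm_comp (ContinuousLinearMap.snd ℝ F G) hc y v)).symm.trans_le
        (d1_apply hg y v)
  · rw [Prod.norm_def]
    refine max_le ?_ ?_
    · exact (congrArg norm (D2_clm_comp (ContinuousLinearMap.fst ℝ F G) hc y v w)).symm.trans_le
        (d2_apply hf y v w)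
    · exact (congrArg norm (D2_clm_comp (ContinuousLinearMap.snd ℝ F G) hc y v w)).symm.trans_le
        (d2_apply hg y v w)

theorem C2B.pi {ι : Type*} [Fintype ι] {f : E → ι → ℝ} {A B : ℝ} (hA : 0 ≤ A) (hB : 0 ≤ B)
    (h : ∀ k, C2B (fun y => f y k) A B) : C2B f A B := by
  have hc : ContDiff ℝ 2 f := contDiff_pi.2 fun k => (h k).cd
  refine ⟨hc, fun y => ContinuousLinearMap.opNorm_le_bound _ hA fun v => ?_,
    fun y => norm_D2_le_of_apply hB fun v w => ?_⟩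
  · refine (pi_norm_le_iff_of_nonneg (by positivity)).2 fun k => ?_
    exact (congrArg norm (fderiv_clm_comp
      (ContinuousLinearMap.proj (R := ℝ) (φ := fun _ : ι => ℝ) k) hc y v)).symm.trans_le
      (d1_apply (h k) y v)
  · refine (pi_norm_le_iff_of_nonneg (by positivity)).2 fun k => ?_
    exact (congrArg norm (D2_clm_comp
      (ContinuousLinearMap.proj (R := ℝ) (φ := fun _ : ι => ℝ) k) hc y v w)).symm.trans_le
      (d2_apply (h k) y v w)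

theorem C2B.smul {φ : E → ℝ} {f : E → F} {a0 a1 a2 b0 b1 b2 : ℝ} (hφ0 : ∀ y, |φ y| ≤ a0)
    (hφ : C2B φ a1 a2) (hf0 : ∀ y, ‖f y‖ ≤ b0) (hf : C2B f b1 b2) :
    C2B (fun y => φ y • f y) (a1 * b0 + a0 * b1) (a2 * b0 + 2 * a1 * b1 + a0 * b2) := by
  have p0 : 0 ≤ a0 := (abs_nonneg _).trans (hφ0 0)
  have p1 := hφ.nonneg1
  have p2 := hφ.nonneg2
  refine ⟨hφ.cd.smul hf.cd, fun y => (norm_fderiv_smul_le' hφ.cd hf.cd y).trans ?_,
    fun y => (norm_D2_smul_le hφ.cd hf.cd y).trans ?_⟩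
  · gcongr
    exacts [hφ.d1 y, hf0 y, hφ0 y, hf.d1 y]
  · gcongr
    exacts [hφ.d2 y, hf0 y, hφ.d1 y, hf.d1 y, hφ0 y, hf.d2 y]

theorem C2B.mul {φ ψ : E → ℝ} {a0 a1 a2 b0 b1 b2 : ℝ} (hφ0 : ∀ y, |φ y| ≤ a0)
    (hφ : C2B φ a1 a2) (hψ0 : ∀ y, |ψ y| ≤ b0) (hψ : C2B ψ b1 b2) :
    C2B (fun y => φ y * ψ y) (a1 * b0 + a0 * b1) (a2 * b0 + 2 * a1 * b1 + a0 * b2) :=
  C2B.smul hφ0 hφ (f := ψ) hψ0 hψ

theorem C2B.const_smul {f : E → F} {A B : ℝ} (c : ℝ) (h : C2B f A B) :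
    C2B (fun y => c • f y) (|c| * A) (|c| * B) := by
  have h1 : ‖c • ContinuousLinearMap.id ℝ F‖ ≤ |c| := by
    rw [norm_smul, Real.norm_eq_abs]
    exact mul_le_of_le_one_right (abs_nonneg c) ContinuousLinearMap.norm_id_le
  have := ((C2B.clm (c • ContinuousLinearMap.id ℝ F)).mono h1 le_rfl).comp h
  simpa using this

theorem C2B.const_mul {φ : E → ℝ} {A B : ℝ} (c : ℝ) (h : C2B φ A B) :
    C2B (fun y => c * φ y) (|c| * A) (|c| * B) :=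
  C2B.const_smul c h

theorem C2B.div_const {φ : E → ℝ} {A B c : ℝ} (hc : 0 < c) (h : C2B φ A B) :
    C2B (fun y => φ y / c) (A / c) (B / c) := by
  have := C2B.const_mul c⁻¹ h
  rw [abs_of_pos (inv_pos.2 hc)] at this
  simpa only [div_eq_inv_mul] using this

theorem C2B.add_const {f : E → F} {A B : ℝ} (c : F) (h : C2B f A B) :
    C2B (fun y => f y + c) A B := by
  simpa using h.add (C2B.const c)

theorem C2B.sub_const {f : E → F} {A B : ℝ} (c : F) (h : C2B f A B) :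
    C2B (fun y => f y - c) A B := by
  simpa using h.sub (C2B.const c)

theorem C2B.const_sub {f : E → F} {A B : ℝ} (c : F) (h : C2B f A B) :
    C2B (fun y => c - f y) A B := by
  simpa using (C2B.const c).sub h

theorem C2B.lip {f : E → F} {A B : ℝ} (h : C2B f A B) (y y' : E) :
    ‖f y - f y'‖ ≤ A * ‖y - y'‖ :=
  convex_univ.norm_image_sub_le_of_norm_fderiv_le (fun x _ => h.diff x) (fun x _ => h.d1 x)
    (mem_univ y') (mem_univ y)

theorem norm_fderiv_real (φ : ℝ → ℝ) (u : ℝ) : ‖fderiv ℝ φ u‖ = |deriv φ u| := by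
  rw [← norm_deriv_eq_norm_fderiv, Real.norm_eq_abs]

theorem norm_D2_real {φ : ℝ → ℝ} (h : ContDiff ℝ 2 φ) (u : ℝ) :
    ‖D2 φ u‖ = |deriv (deriv φ) u| := by
  have h1 : DifferentiableAt ℝ (fderiv ℝ φ) u :=
    (h.fderiv_right (m := 1) (by norm_num)).differentiable (by norm_num) u
  have h2 : deriv (deriv φ) u = deriv (fderiv ℝ φ) u 1 := by
    have := (h1.hasDerivAt.clm_apply (hasDerivAt_const u (1 : ℝ))).deriv
    simpa using this
  rw [D2, ← norm_deriv_eq_norm_fderiv, h2, ← Real.norm_eq_abs]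
  set L : ℝ →L[ℝ] ℝ := deriv (fderiv ℝ φ) u
  have : L = ContinuousLinearMap.toSpanSingleton ℝ (L 1) := by ext; simp
  calc ‖L‖ = ‖ContinuousLinearMap.toSpanSingleton ℝ (L 1)‖ := congrArg norm this
    _ = ‖L 1‖ := ContinuousLinearMap.norm_toSpanSingleton _

theorem C2B.of_deriv {φ : ℝ → ℝ} {A B : ℝ} (h : ContDiff ℝ 2 φ) (h1 : ∀ u, |deriv φ u| ≤ A)
    (h2 : ∀ u, |deriv (deriv φ) u| ≤ B) : C2B φ A B :=
  ⟨h, fun u => (norm_fderiv_real φ u).trans_le (h1 u), fun u => (norm_D2_real h u).trans_le (h2 u)⟩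

theorem C2B.sum {α : Type*} (I : Finset α) {f : α → E → F} {A B : ℝ}
    (h : ∀ n ∈ I, C2B (f n) A B) :
    C2B (fun y => ∑ n ∈ I, f n y) (I.card * A) (I.card * B) := by
  have hc : ∀ n ∈ I, ContDiff ℝ 2 (f n) := fun n hn => (h n hn).cd
  refine ⟨ContDiff.sum hc, fun y => ?_, fun y => ?_⟩
  · rw [(sum_bound I hc y).1, ← nsmul_eq_mul]
    exact (norm_sum_le _ _).trans (Finset.sum_le_card_nsmul _ _ _ fun n hn => (h n hn).d1 y)
  · rw [(sum_bound I hc y).2, ← nsmul_eq_mul]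
    exact (norm_sum_le I fun n => D2 (f n) y).trans
      (Finset.sum_le_card_nsmul _ _ _ fun n hn => (h n hn).d2 y)

open Classical in
theorem C2B.sum_few {α : Type*} (I : Finset α) {f : α → E → F} {A B K : ℝ} (hA : 0 ≤ A)
    (hB : 0 ≤ B) (h : ∀ n ∈ I, C2B (f n) A B)
    (hK : ∀ y, ((I.filter fun n => y ∈ tsupport (f n)).card : ℝ) ≤ K) :
    C2B (fun y => ∑ n ∈ I, f n y) (K * A) (K * B) := by
  have hc : ∀ n ∈ I, ContDiff ℝ 2 (f n) := fun n hn => (h n hn).cd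
  have hz : ∀ n y, y ∉ tsupport (f n) → fderiv ℝ (f n) y = 0 ∧ D2 (f n) y = 0 := fun n y hy => by
    have e := notMem_tsupport_iff_eventuallyEq.1 hy
    exact ⟨by rw [e.fderiv_eq]; simp, (D2_congr e).trans (D2_const (0 : F) y)⟩
  refine ⟨ContDiff.sum hc, fun y => ?_, fun y => ?_⟩
  · rw [(sum_bound I hc y).1, ← Finset.sum_filter_of_ne (p := fun n => y ∈ tsupport (f n))
      fun n _ hn => by_contra fun hy => hn (hz n y hy).1]
    refine ((norm_sum_le _ _).trans (Finset.sum_le_card_nsmul _ _ _ fun n hn =>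
      (h n (Finset.mem_filter.1 hn).1).d1 y)).trans ?_
    rw [nsmul_eq_mul]
    exact mul_le_mul_of_nonneg_right (hK y) hA
  · rw [(sum_bound I hc y).2, ← Finset.sum_filter_of_ne (p := fun n => y ∈ tsupport (f n))
      fun n _ hn => by_contra fun hy => hn (hz n y hy).2]
    refine ((norm_sum_le _ fun n => D2 (f n) y).trans (Finset.sum_le_card_nsmul _ _ _ fun n hn =>
      (h n (Finset.mem_filter.1 hn).1).d2 y)).trans ?_
    rw [nsmul_eq_mul]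
    exact mul_le_mul_of_nonneg_right (hK y) hB

end SJ

end
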