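import Mathlib
import Pool.Agent.Mg.Fedaf86.G6ae19f

section

namespace SN
open Set Filter Topology MeasureTheory Metric Function
open scoped ENNReal

/-- the space R^(p+2) with the sup norm -/
abbrev W (p : ℕ) : Type := Fin (p + 2) → ℝ

variable {p : ℕ}

/-- good points of level lam -/
def GG (ν : Measure (W p)) (lam : ℝ) : Set (W p) :=
  {x | ∀ s : ℝ, 0 < s → ν (ball x s) ≤ ENNReal.ofReal (lam * s ^ p)}

/-- rank -/
noncomputable def rk (B : W p →L[ℝ] W p) : ℕ :=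
  Module.finrank ℝ (LinearMap.range (B : W p →ₗ[ℝ] W p))

/-- first order remainder -/
noncomputable def rem (f : W p → W p) (A : W p → W p →L[ℝ] W p) (x y : W p) : ℝ :=
  ‖f y - f x - A x (y - x)‖

/-- geometric mass bound at all dyadic scales below k -/
def Mass (ν : Measure (W p)) (Θ : ℝ) (k : ℕ) (b : ℝ) (x : W p) : Prop :=
  ∀ j : ℕ, ν (ball x (8 * (1 / 2 : ℝ) ^ (k + j))) ≤
    ENNReal.ofReal (b * Θ ^ j * ((1 / 2 : ℝ) ^ (k + j)) ^ (p + 2))

/-- abstract setting: an injective map with jets controlled by a finite measure -/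
structure Ctx (q Θ C : ℝ) (k0 : ℕ) (ν : Measure (W p)) (O : Set (W p)) (f : W p → W p)
    (A : W p → W p →L[ℝ] W p) : Prop where
  hq : 2 < q
  h4 : 4 < Θ
  hΘ : Θ < (2 : ℝ) ^ q
  hC : 0 ≤ C
  fin : ν univ < ∞
  op : IsOpen O
  cont : ContinuousOn f O
  inj : InjOn f O
  jet : ∀ x ∈ O, ∀ y ∈ O, ∀ k : ℕ, k0 ≤ k → ∀ b : ℝ, 0 ≤ b → ‖x - y‖ ≤ (1 / 2 : ℝ) ^ k →
    Mass ν Θ k b x → Mass ν Θ k b y →
    ‖A x - A y‖ ≤ C * (1 / 2 : ℝ) ^ k * b ^ (1 / q) ∧
      rem f A x y ≤ C * ((1 / 2 : ℝ) ^ k) ^ 2 * b ^ (1 / q)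

/-- Lipschitz constant of all charts -/
def LL (p : ℕ) : ℝ := 2 * ((p : ℝ) + 2)

/-- level ratio -/
def KK (p : ℕ) : ℝ := ((p : ℝ) + 2) * 2 ^ (p + 4) * (40 * ((p : ℝ) + 2) ^ 2) ^ p

/-- flattening chart adapted to the rank at x0, valid on the set G near x0 -/
structure Chart (G O : Set (W p)) (f : W p → W p) (A : W p → W p →L[ℝ] W p) (x0 : W p) (ρ : ℝ)
    (Φ Ψ : W p → W p) (J : Finset (Fin (p + 2))) (C0 : ℝ) : Prop where
  rpos : 0 < ρ
  sub : closedBall x0 ρ ⊆ O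
  li : LeftInverse Ψ Φ
  ri : RightInverse Ψ Φ
  lipΦ : ∀ x y, ‖Φ x - Φ y‖ ≤ LL p * ‖x - y‖
  lipΨ : ∀ x y, ‖Ψ x - Ψ y‖ ≤ LL p * ‖x - y‖
  c0 : 0 ≤ C0
  rkge : ∀ y ∈ G ∩ closedBall x0 ρ, J.card ≤ rk (A y)
  flat : ∀ x ∈ G ∩ closedBall x0 ρ, ∀ y ∈ G ∩ closedBall x0 ρ, rk (A x) ≤ J.card →
    (∀ j ∈ J, Φ x j = Φ y j) → ‖f y - f x‖ ≤ C0 * rem f A x y
  mono : ∀ e, J = Finset.univ.erase e → ∃ (φ : W p →L[ℝ] ℝ) (s0 : ℝ), s0 ≠ 0 ∧
    (∀ x ∈ G ∩ closedBall x0 ρ, ∀ y ∈ G ∩ closedBall x0 ρ, (∀ j ∈ J, Φ x j = Φ y j) →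
      φ (f x) = φ (f y) → f x = f y) ∧
    ∀ x ∈ G ∩ closedBall x0 ρ, (A x).det ≠ 0 → ∃ δ : ℝ, 0 < δ ∧ ∀ y ∈ G ∩ closedBall x0 ρ,
      ‖y - x‖ ≤ δ → y ≠ x → (∀ j ∈ J, Φ x j = Φ y j) →
      0 < s0 * (A x).det * ((Φ y e - Φ x e) * (φ (f y) - φ (f x)))

/-- sign of a colour -/
def sg (b : Bool) : ℝ := if b then 1 else -1

/-- two-colouring of the points of rank above r -/
structure Col (G : Set (W p)) (A : W p → W p →L[ℝ] W p) (r : ℕ) (x0 : W p) (ρ : ℝ)
    (Ob : Bool → Set (W p)) : Prop where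
  disj : ∀ y, y ∈ Ob true → y ∈ Ob false → False
  opn : ∀ b, ∀ y ∈ Ob b, y ∈ G ∩ closedBall x0 ρ → ∃ δ : ℝ, 0 < δ ∧
    ∀ z ∈ G ∩ closedBall x0 ρ, ‖z - y‖ < δ → z ∈ Ob b
  cover : ∀ y ∈ G ∩ closedBall x0 ρ, r < rk (A y) → y ∈ Ob true ∨ y ∈ Ob false
  hr : ∀ b, ∀ y ∈ Ob b, r < rk (A y)
  sgn : ∀ b, ∀ y ∈ G ∩ closedBall x0 ρ, 0 < sg b * (A y).det → y ∈ Ob b

/-- points of Q whose e-line inside Q is mapped into G and avoids Z -/
def SS (Ψ : W p → W p) (G Z : Set (W p)) (e : Fin (p + 2)) (Q : Set (W p)) : Set (W p) :=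
  {w ∈ Q | ∀ t : ℝ, update w e t ∈ Q → Ψ (update w e t) ∈ G ∧ Ψ (update w e t) ∉ Z}

/-- near y the determinant has sign b on every good set -/
def Pure (ν : Measure (W p)) (A : W p → W p →L[ℝ] W p) (b : Bool) (y : W p) : Prop :=
  ∀ lam : ℝ, ∃ δ : ℝ, 0 < δ ∧ ∀ z ∈ GG ν lam, ‖z - y‖ < δ → 0 ≤ sg b * (A z).det

/-- the fixed bump -/
noncomputable def bump (p : ℕ) : ContDiffBump (0 : W p) := ⟨1 / 2, 1, by norm_num, by norm_num⟩

/-- mollification at scale 2^(-k) -/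
noncomputable def mo (k : ℕ) (u : W p → ℝ) (x : W p) : ℝ :=
  ∫ y, ((2 : ℝ) ^ k) ^ (p + 2) * (bump p).normed volume ((2 : ℝ) ^ k • (x - y)) * u y

/-- matrix as a continuous linear map -/
noncomputable def toL (M : Matrix (Fin (p + 2)) (Fin (p + 2)) ℝ) : W p →L[ℝ] W p :=
  LinearMap.toContinuousLinearMap (Matrix.toLin' M)

/-- smooth approximations with second derivatives controlled by g -/
structure Moll (O : Set (W p)) (k0 : ℕ) (C0 : ℝ) (g : W p → ℝ) (f : W p → W p)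
    (D : W p → W p →L[ℝ] W p) (F : ℕ → W p → W p) : Prop where
  c0 : 0 ≤ C0
  cd : ∀ k, ContDiff ℝ 2 (F k)
  m1 : ∀ k, k0 ≤ k → ∀ z ∈ O, ‖SJ.D2 (F k) z‖ ≤
    C0 * ((2 : ℝ) ^ k) ^ (p + 2) * ∫ y in ball z (4 * (1 / 2 : ℝ) ^ k), g y
  m2 : ∀ k, k0 ≤ k → ∀ z ∈ O, ‖fderiv ℝ (F k) z - fderiv ℝ (F (k + 1)) z‖ ≤
    C0 * (1 / 2 : ℝ) ^ k * (((2 : ℝ) ^ k) ^ (p + 2) * ∫ y in ball z (4 * (1 / 2 : ℝ) ^ k), g y)
  m3 : ∀ k, k0 ≤ k → ∀ z ∈ O, ‖F k z - F (k + 1) z‖ ≤
    C0 * ((1 / 2 : ℝ) ^ k) ^ 2 *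
      (((2 : ℝ) ^ k) ^ (p + 2) * ∫ y in ball z (4 * (1 / 2 : ℝ) ^ k), g y)
  m4 : ∀ z ∈ O, Tendsto (fun k => F k z) atTop (𝓝 (f z))
  m5 : ∀ᵐ z ∂(volume.restrict O), Tendsto (fun k => fderiv ℝ (F k) z) atTop (𝓝 (D z))

end SN

end

section

namespace SN
open Set Filter Topology MeasureTheory Metric Function
open scoped ENNReal

variable {p : ℕ}

theorem GG_mono {ν : Measure (W p)} {a b : ℝ} (h : a ≤ b) : GG ν a ⊆ GG ν b :=
  fun _ hx s hs => (hx s hs).trans
    (ENNReal.ofReal_le_ofReal (mul_le_mul_of_nonneg_right h (pow_nonneg hs.le _)))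

theorem isClosed_GG (ν : Measure (W p)) (a : ℝ) : IsClosed (GG ν a) := by
  refine isClosed_of_closure_subset fun x hx s hs => ?_
  have e : ball x s = ⋃ n : ℕ, ball x (s - 1 / ((n : ℝ) + 1)) := by
    refine Subset.antisymm (fun y hy => ?_) (iUnion_subset fun n => ball_subset_ball ?_)
    · obtain ⟨n, hn⟩ := exists_nat_one_div_lt (sub_pos.2 (mem_ball.1 hy))
      exact mem_iUnion.2 ⟨n, mem_ball.2 (by linarith)⟩
    · have : (0 : ℝ) < 1 / ((n : ℝ) + 1) := Nat.one_div_pos_of_nat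
      linarith
  have hm : Monotone fun n : ℕ => ball x (s - 1 / ((n : ℝ) + 1)) := fun m n hmn =>
    ball_subset_ball (by linarith [Nat.one_div_le_one_div (α := ℝ) hmn])
  rw [e, hm.measure_iUnion]
  refine iSup_le fun n => ?_
  obtain ⟨y, hy, hd⟩ := Metric.mem_closure_iff.1 hx (1 / ((n : ℝ) + 1)) Nat.one_div_pos_of_nat
  exact (measure_mono (ball_subset_ball' (by linarith))).trans (hy s hs)

theorem LL_pos (p : ℕ) : 0 < LL p := by
  unfold LL
  positivity

theorem two_pow_le_KK (p : ℕ) : (2 : ℝ) ^ p ≤ KK p := by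
  have h0 : (0 : ℝ) ≤ p := Nat.cast_nonneg p
  have h1 : (1 : ℝ) ≤ (40 * ((p : ℝ) + 2) ^ 2) ^ p := one_le_pow₀ (by nlinarith)
  have h2 : (2 : ℝ) ^ p ≤ 2 ^ (p + 4) := pow_le_pow_right₀ one_le_two (by omega)
  have h3 : (1 : ℝ) ≤ (p : ℝ) + 2 := by linarith
  calc (2 : ℝ) ^ p = 1 * 2 ^ p * 1 := by ring
    _ ≤ _ := by unfold KK; gcongr

theorem one_le_KK (p : ℕ) : 1 ≤ KK p := (one_le_pow₀ one_le_two).trans (two_pow_le_KK p)

namespace GoodX

theorem mass {ν : Measure (W p)} {lam Θ : ℝ} (hl : 0 ≤ lam) (h4 : 4 ≤ Θ) {x : W p}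
    (hx : x ∈ GG ν lam) (k : ℕ) : Mass ν Θ k (lam * 8 ^ p * 4 ^ k) x := by
  intro j
  refine (hx _ (by positivity)).trans (ENNReal.ofReal_le_ofReal ?_)
  have e : (4 : ℝ) ^ (k + j) * ((1 / 2 : ℝ) ^ (k + j)) ^ 2 = 1 := by
    rw [← pow_mul, mul_comm (k + j) 2, pow_mul, ← mul_pow]
    norm_num
  calc lam * (8 * (1 / 2 : ℝ) ^ (k + j)) ^ p
      = lam * (8 * (1 / 2 : ℝ) ^ (k + j)) ^ p * (4 ^ (k + j) * ((1 / 2 : ℝ) ^ (k + j)) ^ 2) := by
        rw [e, mul_one]
    _ = lam * 8 ^ p * 4 ^ k * 4 ^ j * ((1 / 2 : ℝ) ^ (k + j)) ^ (p + 2) := by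
        rw [mul_pow, pow_add (4 : ℝ), pow_add _ p 2]
        ring
    _ ≤ _ := by gcongr

theorem ratio {q : ℝ} (hq : 2 < q) : (4 : ℝ) ^ (1 / q) / 2 < 1 := by
  have h1 : (4 : ℝ) ^ (1 / q) < 4 ^ (1 / 2 : ℝ) :=
    Real.rpow_lt_rpow_of_exponent_lt (by norm_num) (one_div_lt_one_div_of_lt two_pos hq)
  have h2 : (4 : ℝ) ^ (1 / 2 : ℝ) = 2 := by
    rw [← Real.sqrt_eq_rpow, show (4 : ℝ) = 2 ^ 2 by norm_num, Real.sqrt_sq zero_le_two]
  linarith

theorem scale {c q : ℝ} (hc : 0 ≤ c) (k : ℕ) :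
    (1 / 2 : ℝ) ^ k * (c * 4 ^ k) ^ (1 / q) = c ^ (1 / q) * ((4 : ℝ) ^ (1 / q) / 2) ^ k := by
  rw [Real.mul_rpow hc (by positivity), ← Real.rpow_pow_comm (by norm_num), div_pow, div_pow,
    one_pow]
  ring

end GoodX

theorem Ctx.uj {q Θ C : ℝ} {k0 : ℕ} {ν : Measure (W p)} {O : Set (W p)} {f : W p → W p}
    {A : W p → W p →L[ℝ] W p} (h : Ctx q Θ C k0 ν O f A) (lam ε : ℝ) (hε : 0 < ε) :
    ∃ δ : ℝ, 0 < δ ∧ ∀ x ∈ GG ν lam ∩ O, ∀ y ∈ GG ν lam ∩ O, ‖x - y‖ ≤ δ →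
      ‖A x - A y‖ ≤ ε ∧ rem f A x y ≤ ε * ‖x - y‖ := by
  set l := max lam 0 with hl
  have l0 : 0 ≤ l := le_max_right _ _
  set r : ℝ := (4 : ℝ) ^ (1 / q) / 2 with hr
  have r0 : 0 < r := by positivity
  have r1 : r < 1 := GoodX.ratio h.hq
  set C' : ℝ := C * (l * 8 ^ p) ^ (1 / q) with hC'
  have hC := h.hC
  have C0 : 0 ≤ C' := by positivity
  obtain ⟨k2, hk2⟩ := exists_pow_lt_of_lt_one (by positivity : 0 < ε / (2 * C' + 1)) r1
  set k1 := max k0 k2 with hk1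
  have hb : ∀ k, k1 ≤ k → 2 * (C' * r ^ k) ≤ ε := by
    intro k hk
    have h1 : r ^ k ≤ r ^ k2 := pow_le_pow_of_le_one r0.le r1.le ((le_max_right _ _).trans hk)
    have h2 := (lt_div_iff₀ (by positivity)).1 (h1.trans_lt hk2)
    have h3 : 0 ≤ r ^ k := by positivity
    nlinarith
  refine ⟨(1 / 2) ^ k1, by positivity, fun x hx y hy hxy => ?_⟩
  rcases (norm_nonneg (x - y)).eq_or_lt with e | hpos
  · obtain rfl : x = y := sub_eq_zero.1 (norm_eq_zero.1 e.symm)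
    simp [rem, hε.le]
  obtain ⟨k, h1, h2⟩ := exists_nat_pow_near_of_lt_one hpos
    (hxy.trans (pow_le_one₀ (by norm_num) (by norm_num))) (by norm_num : (0 : ℝ) < 1 / 2)
    (by norm_num)
  have hk : k1 ≤ k := Nat.lt_succ_iff.1 ((pow_lt_pow_iff_right_of_lt_one₀ (by norm_num)
    (by norm_num)).1 (h1.trans_le hxy))
  have hj := h.jet x hx.2 y hy.2 k ((le_max_left _ _).trans hk) (l * 8 ^ p * 4 ^ k)
    (by positivity) h2 (GoodX.mass l0 h.h4.le (GG_mono (le_max_left _ _) hx.1) k)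
    (GoodX.mass l0 h.h4.le (GG_mono (le_max_left _ _) hy.1) k)
  have e : C * (1 / 2 : ℝ) ^ k * (l * 8 ^ p * 4 ^ k) ^ (1 / q) = C' * r ^ k := by
    rw [mul_assoc C, GoodX.scale (by positivity), ← mul_assoc]
  have e2 : C * ((1 / 2 : ℝ) ^ k) ^ 2 * (l * 8 ^ p * 4 ^ k) ^ (1 / q) =
      2 * (C' * r ^ k) * (1 / 2 : ℝ) ^ (k + 1) := by
    rw [← e]
    ring
  have h3 := hb k hk
  have h4 : 0 ≤ C' * r ^ k := by positivity
  rw [e, e2] at hj
  exact ⟨by linarith [hj.1], hj.2.trans (mul_le_mul h3 h1.le (by positivity) hε.le)⟩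

theorem Ctx.contA {q Θ C : ℝ} {k0 : ℕ} {ν : Measure (W p)} {O : Set (W p)} {f : W p → W p}
    {A : W p → W p →L[ℝ] W p} (h : Ctx q Θ C k0 ν O f A) (lam : ℝ) :
    ContinuousOn A (GG ν lam ∩ O) := by
  refine Metric.continuousOn_iff.2 fun x hx ε hε => ?_
  obtain ⟨δ, hδ, H⟩ := h.uj lam (ε / 2) (half_pos hε)
  refine ⟨δ, hδ, fun y hy hd => ?_⟩
  rw [dist_eq_norm] at hd ⊢
  exact (H y hy x hx hd.le).1.trans_lt (half_lt_self hε)

theorem witness_of_near {ν : Measure (W p)} {lam μ η : ℝ} (hlam : 0 ≤ lam) (hμ : 2 ^ p * lam ≤ μ)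
    (hη : 0 < η) {x y : W p} (hx : x ∈ GG ν lam) (hy : ‖y - x‖ ≤ η) (s : ℝ) (hs : η ≤ s) :
    ν (ball y s) ≤ ENNReal.ofReal (μ * s ^ p) := by
  have s0 : 0 < s := hη.trans_le hs
  have h1 : ball y s ⊆ ball x (2 * s) := ball_subset_ball' (by rw [dist_eq_norm]; linarith)
  refine (measure_mono h1).trans ((hx _ (by positivity)).trans (ENNReal.ofReal_le_ofReal ?_))
  calc lam * (2 * s) ^ p = 2 ^ p * lam * s ^ p := by rw [mul_pow]; ring
    _ ≤ _ := by gcongr

end SN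

end

section

namespace SN
open Set Filter Topology MeasureTheory Metric Function
open scoped ENNReal

variable {p : ℕ}

theorem rk_le (B : W p →L[ℝ] W p) : rk B ≤ p + 2 := by
  have := Submodule.finrank_le (LinearMap.range (B : W p →ₗ[ℝ] W p))
  simpa [rk] using this

theorem rk_eq_iff (B : W p →L[ℝ] W p) : rk B = p + 2 ↔ B.det ≠ 0 := by
  have h1 : B.det ≠ 0 ↔ LinearMap.range (B : W p →ₗ[ℝ] W p) = ⊤ := by
    rw [← LinearMap.isUnit_iff_range_eq_top, LinearMap.isUnit_iff_isUnit_det, isUnit_iff_ne_zero]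
  rw [h1, rk]
  constructor
  · intro h
    exact Submodule.eq_top_of_finrank_eq (by rw [h]; simp)
  · intro h
    rw [h]
    simp

theorem rk_lsc (B : W p →L[ℝ] W p) : ∀ᶠ B' in 𝓝 B, rk B ≤ rk B' := by
  have h1 : ∀ (n : ℕ) (f : W p →L[ℝ] W p),
      (n : Cardinal) ≤ (f : W p →ₗ[ℝ] W p).rank ↔ n ≤ rk f := by
    intro n f
    rw [rk, LinearMap.rank, ← Module.finrank_eq_rank, Nat.cast_le]
  have h2 := isOpen_setOfPred_nat_le_rank (𝕜 := ℝ) (E := W p) (F := W p) (rk B)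
  simp only [h1] at h2
  exact h2.mem_nhds (le_refl (rk B))

theorem det_toL (M : Matrix (Fin (p + 2)) (Fin (p + 2)) ℝ) : (toL M).det = M.det :=
  LinearMap.det_toLin' M

namespace Lin1X

/-- extension by zero -/
def ext (J : Finset (Fin (p + 2))) : (J → ℝ) →ₗ[ℝ] W p where
  toFun x j := if h : j ∈ J then x ⟨j, h⟩ else 0
  map_add' x y := by
    funext j
    by_cases h : j ∈ J <;> simp [h]
  map_smul' c x := by
    funext j
    by_cases h : j ∈ J <;> simp [h]

theorem ext_inj (J : Finset (Fin (p + 2))) {x : J → ℝ} (h : ext J x = 0) : x = 0 := by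
  funext j
  have := congrFun h j.1
  simpa [ext] using this

theorem cut_ext (J : Finset (Fin (p + 2))) (x : J → ℝ) :
    (fun j => if j ∈ J then ext J x j else 0) = ext J x := by
  funext j
  by_cases h : j ∈ J <;> simp [ext, h]

theorem norm_cut (J : Finset (Fin (p + 2))) (w : W p) :
    ‖(fun j => if j ∈ J then w j else 0 : W p)‖ ≤ ‖w‖ := by
  refine (pi_norm_le_iff_of_nonneg (norm_nonneg _)).2 fun j => ?_
  by_cases h : j ∈ J
  · simpa [h] using norm_le_pi_norm w j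
  · simp [h]

theorem est (J : Finset (Fin (p + 2))) (M : W p →L[ℝ] W p)
    (hM : ∀ v, ‖M v - fun j => if j ∈ J then v j else 0‖ ≤ 1 / 2 * ‖v‖) (x : J → ℝ) :
    ‖ext J x‖ ≤ 2 * ‖(fun j => if j ∈ J then M (ext J x) j else 0 : W p)‖ ∧
      ‖M (ext J x)‖ ≤ 3 / 2 * ‖ext J x‖ := by
  have h1 := hM (ext J x)
  rw [cut_ext] at h1
  have h2 := norm_cut J (M (ext J x) - ext J x)
  have h3 : (fun j => if j ∈ J then (M (ext J x) - ext J x) j else 0 : W p) =
      (fun j => if j ∈ J then M (ext J x) j else 0) - ext J x := by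
    funext j
    by_cases h : j ∈ J <;> simp [ext, h]
  rw [h3] at h2
  have h4 := norm_sub_norm_le (M (ext J x)) (ext J x)
  have h5 := norm_sub_norm_le (ext J x) (fun j => if j ∈ J then M (ext J x) j else 0 : W p)
  rw [norm_sub_rev] at h5
  constructor <;> linarith

end Lin1X

open Lin1X in
theorem normal_near (J : Finset (Fin (p + 2))) (M : W p →L[ℝ] W p)
    (hM : ∀ v, ‖M v - fun j => if j ∈ J then v j else 0‖ ≤ 1 / 2 * ‖v‖) :
    J.card ≤ rk M ∧ (rk M ≤ J.card → ∀ v, ‖M v‖ ≤ 3 * ‖fun j => if j ∈ J then M v j else 0‖) := by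
  have hinj : Injective ((M : W p →ₗ[ℝ] W p).comp (ext J)) := by
    rw [injective_iff_map_eq_zero]
    intro x hx
    have h0 : M (ext J x) = 0 := hx
    have h1 := (est J M hM x).1
    have h2 := norm_cut J (M (ext J x))
    rw [h0] at h1 h2
    rw [norm_zero] at h2
    exact ext_inj J (norm_le_zero_iff.1 (by linarith))
  have hfr : Module.finrank ℝ (LinearMap.range ((M : W p →ₗ[ℝ] W p).comp (ext J))) = J.card := by
    rw [LinearMap.finrank_range_of_inj hinj]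
    simp
  have hle : LinearMap.range ((M : W p →ₗ[ℝ] W p).comp (ext J)) ≤
      LinearMap.range (M : W p →ₗ[ℝ] W p) := LinearMap.range_comp_le_range _ _
  refine ⟨hfr ▸ Submodule.finrank_mono hle, fun h v => ?_⟩
  have heq := Submodule.eq_of_le_of_finrank_le hle (by rw [hfr]; exact h)
  have hv : M v ∈ LinearMap.range ((M : W p →ₗ[ℝ] W p).comp (ext J)) := by
    rw [heq]
    exact ⟨v, rfl⟩
  obtain ⟨x, hx⟩ := hv
  have hx' : M (ext J x) = M v := hx
  have h1 := est J M hM x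
  rw [hx'] at h1
  linarith [h1.1, h1.2]

theorem rk_conj (R P : W p ≃L[ℝ] W p) (B : W p →L[ℝ] W p) :
    rk ((P : W p →L[ℝ] W p).comp (B.comp (R : W p →L[ℝ] W p))) = rk B := by
  have h : LinearMap.range (((P : W p →L[ℝ] W p).comp (B.comp (R : W p →L[ℝ] W p)) :
      W p →L[ℝ] W p) : W p →ₗ[ℝ] W p) =
      (LinearMap.range (B : W p →ₗ[ℝ] W p)).map (P.toLinearEquiv : W p →ₗ[ℝ] W p) := by
    ext w
    constructor
    · rintro ⟨v, rfl⟩
      exact ⟨B (R v), ⟨R v, rfl⟩, rfl⟩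
    · rintro ⟨_, ⟨v, rfl⟩, rfl⟩
      exact ⟨R.symm v, by simp⟩
  rw [rk, h, LinearEquiv.finrank_map_eq, rk]

end SN

end

section

namespace SN
open Set Filter Topology MeasureTheory Metric Function
open scoped ENNReal

variable {p : ℕ}

namespace Lin2X

theorem svd {n : ℕ} (T : EuclideanSpace ℝ (Fin n) →ₗ[ℝ] EuclideanSpace ℝ (Fin n)) :
    ∃ b c : OrthonormalBasis (Fin n) ℝ (EuclideanSpace ℝ (Fin n)),
      ∀ j, T (b j) = ‖T (b j)‖ • c j := by
  have hS := T.isSymmetric_adjoint_comp_self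
  have hn : Module.finrank ℝ (EuclideanSpace ℝ (Fin n)) = n := by simp
  obtain ⟨b, lam, hb⟩ : ∃ (b : OrthonormalBasis (Fin n) ℝ (EuclideanSpace ℝ (Fin n)))
      (lam : Fin n → ℝ), ∀ j, LinearMap.adjoint T (T (b j)) = lam j • b j :=
    ⟨_, _, hS.apply_eigenvectorBasis hn⟩
  have ho : Orthonormal ℝ ({j | T (b j) ≠ 0}.domRestrict fun j => ‖T (b j)‖⁻¹ • T (b j)) := by
    refine ⟨fun j => norm_smul_inv_norm j.2, fun i j hij => ?_⟩
    have h0 : inner ℝ (T (b i)) (T (b j)) = 0 := by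
      rw [← LinearMap.adjoint_inner_right, hb, inner_smul_right,
        b.orthonormal.2 (fun h => hij (Subtype.ext h)), mul_zero]
    simp only [Set.domRestrict_apply, inner_smul_left, inner_smul_right, h0, mul_zero]
  obtain ⟨c, hc⟩ := ho.exists_orthonormalBasis_extension_of_card_eq (by simp)
  refine ⟨b, c, fun j => ?_⟩
  by_cases h : T (b j) = 0
  · simp [h]
  · rw [hc j h, smul_smul, mul_inv_cancel₀ (norm_ne_zero_iff.2 h), one_smul]

theorem iso_le {n : ℕ} (U : EuclideanSpace ℝ (Fin n) ≃ₗᵢ[ℝ] EuclideanSpace ℝ (Fin n))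
    (v : Fin n → ℝ) : ‖(U (WithLp.toLp 2 v)).ofLp‖ ≤ n * ‖v‖ := by
  refine (pi_norm_le_iff_of_nonneg (by positivity)).2 fun j => ?_
  refine (PiLp.norm_apply_le _ j).trans ?_
  rw [U.norm_map, EuclideanSpace.norm_eq]
  refine Real.sqrt_le_iff.2 ⟨by positivity, ?_⟩
  have h1 : ∑ i, ‖v i‖ ^ 2 ≤ ∑ _i : Fin n, ‖v‖ ^ 2 :=
    Finset.sum_le_sum fun i _ => pow_le_pow_left₀ (norm_nonneg _) (norm_le_pi_norm v i) 2
  have h2 : (n : ℝ) ≤ n ^ 2 := by exact_mod_cast Nat.le_self_pow (by norm_num) n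
  simp only [Finset.sum_const, Finset.card_univ, Fintype.card_fin, nsmul_eq_mul] at h1
  refine h1.trans ?_
  rw [mul_pow]
  exact mul_le_mul_of_nonneg_right h2 (by positivity)

theorem rk_proj (J : Finset (Fin (p + 2))) (M : W p →L[ℝ] W p)
    (hM : ∀ v, M v = fun j => if j ∈ J then v j else 0) : J.card = rk M := by
  refine le_antisymm (normal_near J M fun v => by rw [hM, sub_self, norm_zero]; positivity).1 ?_
  have h : LinearMap.range (M : W p →ₗ[ℝ] W p) ≤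
      Submodule.span ℝ (J.image fun j => (Pi.single j 1 : W p) : Finset (W p)) := by
    rintro _ ⟨v, rfl⟩
    have e : M v = ∑ j ∈ J, v j • (Pi.single j 1 : W p) := by
      rw [hM]
      funext i
      simp [Finset.sum_apply, Pi.single_apply]
    rw [ContinuousLinearMap.coe_coe, e]
    exact Submodule.sum_mem _ fun j hj => Submodule.smul_mem _ _
      (Submodule.subset_span (Finset.mem_coe.2 (Finset.mem_image_of_mem _ hj)))
  exact (Submodule.finrank_mono h).trans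
    ((finrank_span_finset_le_card _).trans Finset.card_image_le)

end Lin2X

theorem exists_normal (B : W p →L[ℝ] W p) : ∃ (R P : W p ≃L[ℝ] W p) (J : Finset (Fin (p + 2))),
    J.card = rk B ∧ (∀ v, ‖R v‖ ≤ ((p : ℝ) + 2) * ‖v‖) ∧ (∀ v, ‖R.symm v‖ ≤ ((p : ℝ) + 2) * ‖v‖) ∧
    ∀ v, P (B (R v)) = fun j => if j ∈ J then v j else 0 := by
  classical
  set φ := EuclideanSpace.equiv (Fin (p + 2)) ℝ with hφ
  obtain ⟨T, hT⟩ : ∃ T : EuclideanSpace ℝ (Fin (p + 2)) →ₗ[ℝ] EuclideanSpace ℝ (Fin (p + 2)),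
      ∀ x, T x = φ.symm (B (φ x)) :=
    ⟨(φ.symm.toLinearEquiv.toLinearMap.comp (B : W p →ₗ[ℝ] W p)).comp φ.toLinearEquiv.toLinearMap,
      fun _ => rfl⟩
  obtain ⟨b, c, hbc⟩ := Lin2X.svd T
  obtain ⟨σ, hσ⟩ : ∃ σ : Fin (p + 2) → ℝ, σ = fun j => if T (b j) = 0 then 1 else ‖T (b j)‖⁻¹ :=
    ⟨_, rfl⟩
  have hσ0 : ∀ j, σ j ≠ 0 := fun j => by
    rw [hσ]
    dsimp only
    split_ifs with h
    · exact one_ne_zero
    · exact inv_ne_zero (norm_ne_zero_iff.2 h)
  let D : W p ≃L[ℝ] W p :=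
    (LinearEquiv.piCongrRight fun j => LinearEquiv.smulOfNeZero ℝ ℝ (σ j) (hσ0 j))
      |>.toContinuousLinearEquiv
  let R : W p ≃L[ℝ] W p := (φ.symm.trans b.repr.symm.toContinuousLinearEquiv).trans φ
  let P : W p ≃L[ℝ] W p := ((φ.symm.trans c.repr.toContinuousLinearEquiv).trans φ).trans D
  have key : ∀ v, P (B (R v)) =
      fun j => if j ∈ Finset.univ.filter (fun j => T (b j) ≠ 0) then v j else 0 := by
    intro v
    funext j
    have e1 : T (b.repr.symm (φ.symm v)) = c.repr.symm (φ.symm fun i => v i * ‖T (b i)‖) := by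
      rw [← b.sum_repr_symm, ← c.sum_repr_symm, map_sum]
      refine Finset.sum_congr rfl fun i _ => ?_
      exact (map_smul T _ _).trans ((congrArg _ (hbc i)).trans (smul_smul _ _ _))
    have e2 : P (B (R v)) j = σ j * φ (c.repr (T (b.repr.symm (φ.symm v)))) j := by
      rw [hT]; rfl
    rw [e2, e1, LinearIsometryEquiv.apply_symm_apply, ContinuousLinearEquiv.apply_symm_apply, hσ]
    by_cases h : T (b j) = 0
    · simp [h]
    · simp only [h, if_false, Finset.mem_filter, Finset.mem_univ, ne_eq, not_false_eq_true,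
        and_self, if_true]
      have := norm_ne_zero_iff.2 h
      field_simp
  refine ⟨R, P, _, ?_, fun v => ?_, fun v => ?_, key⟩
  · rw [← rk_conj R P B]
    exact Lin2X.rk_proj _ _ key
  · exact_mod_cast Lin2X.iso_le b.repr.symm v
  · exact_mod_cast Lin2X.iso_le b.repr v

theorem corank_one (p : ℕ) (e : Fin (p + 2)) : ∃ ε : ℝ, 0 < ε ∧ ∀ M : W p →L[ℝ] W p,
    (∀ v, ‖M v - fun j => if j = e then 0 else v j‖ ≤ ε * ‖v‖) → M.det ≠ 0 →
    ∃ η : ℝ, 0 < η ∧ ∀ (v : W p) (τ : ℝ), v ≠ 0 → ‖M v - Pi.single e τ‖ ≤ η * ‖v‖ →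
      0 < M.det * (v e * τ) := by
  have hc : ∀ᶠ N in 𝓝 (1 : W p →L[ℝ] W p), 0 < N.det :=
    ContinuousLinearMap.continuous_det.continuousAt.eventually
      (lt_mem_nhds (by simp [ContinuousLinearMap.det]))
  obtain ⟨δ, hδ, hN⟩ := Metric.eventually_nhds_iff.1 hc
  refine ⟨min (δ / 2) (1 / 4), by positivity, fun M hM hdet => ?_⟩
  obtain ⟨A, hA⟩ : ∃ A, A = LinearMap.toMatrix' (M : W p →ₗ[ℝ] W p) := ⟨_, rfl⟩
  have hAd : A.det = M.det := by rw [hA, LinearMap.det_toMatrix']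
  have hAv : ∀ v, A.mulVec v = M v := fun v => by
    rw [hA, ← Matrix.toLin'_apply, Matrix.toLin'_toMatrix']; rfl
  have hpos : 0 < A.cramer (Pi.single e 1) e := by
    rw [Matrix.cramer_apply, ← det_toL]
    refine hN (lt_of_le_of_lt ?_ (half_lt_self hδ))
    rw [dist_eq_norm]
    refine ContinuousLinearMap.opNorm_le_bound _ (by positivity) fun v => ?_
    have e1 : (toL (A.updateCol e (Pi.single e 1)) - 1) v =
        M (update v e 0) - fun j => if j = e then 0 else update v e 0 j := by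
      rw [← hAv]
      funext i
      have : (A.updateCol e (Pi.single e 1)).mulVec v i =
          A.mulVec (update v e 0) i + (if i = e then v e else 0) := by
        simp only [Matrix.mulVec, dotProduct]
        rw [← Finset.add_sum_erase _ _ (Finset.mem_univ e),
          ← Finset.add_sum_erase _ _ (Finset.mem_univ e), Finset.sum_congr rfl
            (g := fun j => A i j * update v e 0 j) fun j hj => by
              rw [Matrix.updateCol_ne (Finset.ne_of_mem_erase hj),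
                update_of_ne (Finset.ne_of_mem_erase hj)]]
        simp [Pi.single_apply, add_comm]
      change (A.updateCol e (Pi.single e 1)).mulVec v i - v i = _
      rw [this]
      by_cases h : i = e <;> simp [h]
    have e2 : ‖update v e 0‖ ≤ ‖v‖ := (pi_norm_le_iff_of_nonneg (norm_nonneg _)).2 fun j => by
      by_cases h : j = e
      · simp [h]
      · rw [update_of_ne h]; exact norm_le_pi_norm v j
    rw [e1]
    exact (hM _).trans (mul_le_mul (min_le_left _ _) e2 (norm_nonneg _) (by positivity))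
  obtain ⟨l, hl⟩ : ∃ l : W p →L[ℝ] ℝ, ∀ r, l r = A.cramer r e :=
    ⟨LinearMap.toContinuousLinearMap ((LinearMap.proj e).comp A.cramer), fun _ => rfl⟩
  have hd : 0 < |M.det| := abs_pos.2 hdet
  refine ⟨min (|M.det| / (‖l‖ + 1)) (1 / 4), by positivity, fun v τ hv hη => ?_⟩
  have hv0 : 0 < ‖v‖ := norm_pos_iff.2 hv
  have h1 : ‖v‖ ≤ |v e| := by
    by_contra hlt
    refine lt_irrefl ‖v‖ ((pi_norm_lt_iff hv0).2 fun j => ?_)
    by_cases h : j = e
    · rw [h]; exact not_le.1 hlt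
    · have a1 := (norm_le_pi_norm _ j).trans (hM v)
      have a2 := (norm_le_pi_norm _ j).trans hη
      simp only [Pi.sub_apply, h, if_false, Pi.single_eq_of_ne h, sub_zero] at a1 a2
      have a3 := mul_le_mul_of_nonneg_right (min_le_right (δ / 2) (1 / 4)) hv0.le
      have a4 := mul_le_mul_of_nonneg_right (min_le_right (|M.det| / (‖l‖ + 1)) (1 / 4)) hv0.le
      have a5 := norm_sub_le (M v j) (M v j - v j)
      rw [sub_sub_cancel] at a5
      linarith
  have h2 : l (M v - Pi.single e τ) = M.det * v e - τ * A.cramer (Pi.single e 1) e := by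
    rw [map_sub, hl, ← hAv, Matrix.cramer_eq_adjugate_mulVec, Matrix.mulVec_mulVec,
      Matrix.adjugate_mul, Matrix.smul_mulVec, Matrix.one_mulVec, hAd,
      show (Pi.single e τ : W p) = τ • Pi.single e 1 by rw [← Pi.single_smul, smul_eq_mul, mul_one],
      map_smul, hl]
    rfl
  have h3 : |M.det * v e - τ * A.cramer (Pi.single e 1) e| < |M.det * v e| := by
    rw [← h2, abs_mul]
    have a1 := l.le_opNorm (M v - Pi.single e τ)
    have a2 := mul_le_mul_of_nonneg_right (min_le_left (|M.det| / (‖l‖ + 1)) (1 / 4)) hv0.le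
    have a3 := mul_le_mul_of_nonneg_left (hη.trans a2) (norm_nonneg l)
    have a4 : ‖l‖ * (|M.det| / (‖l‖ + 1) * ‖v‖) < |M.det| * ‖v‖ := by
      rw [← mul_assoc]
      refine mul_lt_mul_of_pos_right ?_ hv0
      rw [← mul_div_assoc, div_lt_iff₀ (by positivity)]
      nlinarith
    have a5 := mul_le_mul_of_nonneg_left h1 hd.le
    rw [Real.norm_eq_abs] at a1
    linarith
  have h4 := sq_lt_sq.2 h3
  have h5 : 0 < M.det * (v e * τ) * A.cramer (Pi.single e 1) e := by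
    nlinarith [sq_nonneg (τ * A.cramer (Pi.single e 1) e)]
  exact (mul_pos_iff_of_pos_right hpos).1 h5

end SN

end

section

namespace SN
open Set Filter Topology MeasureTheory Metric Function
open scoped ENNReal

variable {p : ℕ}

namespace ArcX

variable {G O : Set (W p)} {f : W p → W p} {A : W p → W p →L[ℝ] W p} {x0 : W p} {ρ C0 : ℝ}
  {Φ Ψ : W p → W p} {J : Finset (Fin (p + 2))}

theorem lip (hc : Chart G O f A x0 ρ Φ Ψ J C0) (w : W p) (e : Fin (p + 2)) (t t' : ℝ) :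
    ‖Ψ (update w e t) - Ψ (update w e t')‖ ≤ LL p * |t - t'| := by
  refine (hc.lipΨ _ _).trans (mul_le_mul_of_nonneg_left ?_ (LL_pos p).le)
  refine (pi_norm_le_iff_of_nonneg (abs_nonneg _)).2 fun i => ?_
  by_cases hi : i = e
  · simp [hi]
  · simp [hi]

theorem coord (hc : Chart G O f A x0 ρ Φ Ψ J C0) (w : W p) {e : Fin (p + 2)} (he : e ∉ J)
    (t t' : ℝ) : ∀ j ∈ J, Φ (Ψ (update w e t)) j = Φ (Ψ (update w e t')) j := fun j hj => by
  have : j ≠ e := fun h => he (h ▸ hj)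
  rw [hc.ri, hc.ri, update_of_ne this, update_of_ne this]

theorem eq_of (hc : Chart G O f A x0 ρ Φ Ψ J C0) {w : W p} {e : Fin (p + 2)} {t t' : ℝ}
    (h : Ψ (update w e t) = Ψ (update w e t')) : t = t' := by
  simpa using congrFun (hc.ri.injective h) e

theorem exists_near {a b t₀ η : ℝ} (hab : a < b) (h : t₀ ∈ Icc a b) (hη : 0 < η) :
    ∃ t ∈ Icc a b, t ≠ t₀ ∧ |t - t₀| ≤ η := by
  rcases h.2.lt_or_eq with hb | rfl
  · have h₁ : t₀ < min b (t₀ + η) := lt_min hb (by linarith)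
    refine ⟨_, ⟨h.1.trans h₁.le, min_le_left _ _⟩, h₁.ne', ?_⟩
    rw [abs_of_nonneg (by linarith)]
    linarith [min_le_right b (t₀ + η)]
  · have h₁ : max a (t₀ - η) < t₀ := max_lt hab (by linarith)
    refine ⟨_, ⟨le_max_left _ _, h₁.le⟩, h₁.ne, ?_⟩
    rw [abs_of_nonpos (by linarith)]
    linarith [le_max_right a (t₀ - η)]

end ArcX

theorem arc {q Θ C : ℝ} {k0 : ℕ} {ν : Measure (W p)} {O : Set (W p)} {f : W p → W p}
    {A : W p → W p →L[ℝ] W p} (h : Ctx q Θ C k0 ν O f A) {μ ρ C0 : ℝ} {x0 : W p}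
    {Φ Ψ : W p → W p} {J : Finset (Fin (p + 2))} (hc : Chart (GG ν μ) O f A x0 ρ Φ Ψ J C0)
    {e : Fin (p + 2)} (he : e ∉ J) (w : W p) {a b : ℝ} (hab : a < b)
    (hl : ∀ t ∈ Icc a b, Ψ (update w e t) ∈ GG ν μ ∩ closedBall x0 ρ) :
    ∃ t ∈ Icc a b, J.card < rk (A (Ψ (update w e t))) := by
  by_contra hn
  push Not at hn
  have hL := LL_pos p
  have hC := hc.c0
  have hO : ∀ t ∈ Icc a b, Ψ (update w e t) ∈ GG ν μ ∩ O := fun t ht =>
    ⟨(hl t ht).1, hc.sub (hl t ht).2⟩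
  have hd : ∀ x ∈ Icc a b, HasDerivWithinAt (fun t => f (Ψ (update w e t))) 0 (Icc a b) x := by
    intro x hx
    rw [hasDerivWithinAt_iff_isLittleO]
    refine Asymptotics.isLittleO_iff.2 fun c hc0 => ?_
    obtain ⟨δ, hδ, hu⟩ := h.uj μ (c / ((C0 + 1) * LL p)) (by positivity)
    filter_upwards [self_mem_nhdsWithin,
      mem_nhdsWithin_of_mem_nhds (closedBall_mem_nhds x (show 0 < δ / LL p by positivity))]
      with t ht hxt
    rw [mem_closedBall, Real.dist_eq, le_div_iff₀ hL, abs_sub_comm] at hxt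
    have h₁ := ArcX.lip hc w e x t
    have h₂ := (hu _ (hO x hx) _ (hO t ht) (by linarith)).2
    have h₃ := hc.flat _ (hl x hx) _ (hl t ht) (hn x hx) (ArcX.coord hc w he x t)
    rw [smul_zero, sub_zero, Real.norm_eq_abs, abs_sub_comm]
    calc _ ≤ (C0 + 1) * (c / ((C0 + 1) * LL p) * (LL p * |x - t|)) :=
          h₃.trans (mul_le_mul (by linarith) (h₂.trans (by gcongr)) (norm_nonneg _)
            (by linarith))
      _ = c * |x - t| := by field_simp
  have := (convex_Icc a b).norm_image_sub_le_of_norm_hasDerivWithin_le (C := 0) hd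
    (fun _ _ => by simp) (left_mem_Icc.2 hab.le) (right_mem_Icc.2 hab.le)
  rw [zero_mul, norm_le_zero_iff, sub_eq_zero] at this
  exact hab.ne' (ArcX.eq_of hc (h.inj (hO b (right_mem_Icc.2 hab.le)).2
    (hO a (left_mem_Icc.2 hab.le)).2 this))

theorem mono_line {q Θ C : ℝ} {k0 : ℕ} {ν : Measure (W p)} {O : Set (W p)} {f : W p → W p}
    {A : W p → W p →L[ℝ] W p} (h : Ctx q Θ C k0 ν O f A) {μ ρ C0 : ℝ} {x0 : W p}
    {Φ Ψ : W p → W p} {J : Finset (Fin (p + 2))} (hc : Chart (GG ν μ) O f A x0 ρ Φ Ψ J C0)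
    {e : Fin (p + 2)} (he : J = Finset.univ.erase e) (w : W p) {a b : ℝ}
    (hl : ∀ t ∈ Icc a b, Ψ (update w e t) ∈ GG ν μ ∩ closedBall x0 ρ) {t₁ t₂ : ℝ}
    (h1 : t₁ ∈ Icc a b) (h2 : t₂ ∈ Icc a b) (d1 : 0 < (A (Ψ (update w e t₁))).det)
    (d2 : (A (Ψ (update w e t₂))).det < 0) : False := by
  obtain ⟨φ, s0, -, m₁, m₂⟩ := hc.mono e he
  have he' : e ∉ J := by simp [he]
  have hL := LL_pos p
  have hO : ∀ t ∈ Icc a b, Ψ (update w e t) ∈ O := fun t ht => hc.sub (hl t ht).2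
  have hab : a < b := by
    by_contra hab
    obtain rfl : t₁ = t₂ := by linarith [h1.1, h1.2, h2.1, h2.2, not_lt.1 hab]
    linarith
  set u : ℝ → ℝ := fun t => φ (f (Ψ (update w e t))) with hu
  have hγ : Continuous fun t => Ψ (update w e t) :=
    (LipschitzWith.of_dist_le_mul (K := ⟨LL p, hL.le⟩) fun t t' => by
      rw [dist_eq_norm, Real.dist_eq]
      exact ArcX.lip hc w e t t').continuous
  have hcont : ContinuousOn u (Icc a b) :=
    φ.continuous.comp_continuousOn (h.cont.comp hγ.continuousOn hO)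
  have hinj : InjOn u (Icc a b) := fun t ht t' ht' e' => ArcX.eq_of hc
    (h.inj (hO t ht) (hO t' ht') (m₁ _ (hl t ht) _ (hl t' ht') (ArcX.coord hc w he' t t') e'))
  have key : ∀ t₀ ∈ Icc a b, (A (Ψ (update w e t₀))).det ≠ 0 → ∃ t ∈ Icc a b, t ≠ t₀ ∧
      0 < s0 * (A (Ψ (update w e t₀))).det * ((t - t₀) * (u t - u t₀)) := by
    intro t₀ h₀ hd
    obtain ⟨δ, hδ, m₃⟩ := m₂ _ (hl t₀ h₀) hd
    obtain ⟨t, ht, hne, hη⟩ := ArcX.exists_near hab h₀ (show 0 < δ / LL p by positivity)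
    rw [le_div_iff₀ hL] at hη
    have := m₃ _ (hl t ht) (by linarith [ArcX.lip hc w e t t₀]) (fun e' => hne (ArcX.eq_of hc e'))
      (ArcX.coord hc w he' t₀ t)
    rw [hc.ri, hc.ri, update_self, update_self] at this
    exact ⟨t, ht, hne, this⟩
  obtain ⟨s₁, hs₁, n₁, k₁⟩ := key t₁ h1 d1.ne'
  obtain ⟨s₂, hs₂, n₂, k₂⟩ := key t₂ h2 d2.ne
  have sgn : 0 < ((s₁ - t₁) * (u s₁ - u t₁)) * ((s₂ - t₂) * (u s₂ - u t₂)) := by
    rcases hcont.strictMonoOn_of_injOn_Icc' hab.le hinj with hm | hm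
    · have : ∀ s ∈ Icc a b, ∀ t ∈ Icc a b, s ≠ t → 0 < (s - t) * (u s - u t) := by
        intro s hs t ht hne
        rcases hne.lt_or_gt with h' | h'
        · exact mul_pos_of_neg_of_neg (sub_neg.2 h') (sub_neg.2 (hm hs ht h'))
        · exact mul_pos (sub_pos.2 h') (sub_pos.2 (hm ht hs h'))
      exact mul_pos (this _ hs₁ _ h1 n₁) (this _ hs₂ _ h2 n₂)
    · have : ∀ s ∈ Icc a b, ∀ t ∈ Icc a b, s ≠ t → (s - t) * (u s - u t) < 0 := by
        intro s hs t ht hne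
        rcases hne.lt_or_gt with h' | h'
        · exact mul_neg_of_neg_of_pos (sub_neg.2 h') (sub_pos.2 (hm hs ht h'))
        · exact mul_neg_of_pos_of_neg (sub_pos.2 h') (sub_neg.2 (hm ht hs h'))
      exact mul_pos_of_neg_of_neg (this _ hs₁ _ h1 n₁) (this _ hs₂ _ h2 n₂)
  have k₃ := mul_pos k₁ k₂
  have k₄ := mul_nonneg (mul_self_nonneg s0) (mul_pos (mul_pos d1 (neg_pos.2 d2)) sgn).le
  linarith

end SN

end

section

namespace SN
open Set Filter Topology MeasureTheory Metric Function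
open scoped ENNReal

variable {p : ℕ}

namespace ShadowX

theorem box {i e : Fin (p + 2)} (hie : i ≠ e) (a b c : W p) {t : ℝ} (ht : 0 ≤ t)
    (hi : a i ≤ b i) :
    volume (Set.pi univ fun j => if j = i ∨ j = e then Ioo (a j) (b j)
      else Icc (c j - t) (c j + t)) =
      ENNReal.ofReal ((2 * t) ^ p * ((b i - a i) * (b e - a e))) := by
  have he : e ∈ (Finset.univ : Finset (Fin (p + 2))).erase i :=
    Finset.mem_erase.2 ⟨hie.symm, Finset.mem_univ _⟩
  rw [volume_pi_pi, ← Finset.mul_prod_erase _ _ (Finset.mem_univ i),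
    ← Finset.mul_prod_erase _ _ he]
  have h3 : ∏ j ∈ ((Finset.univ : Finset (Fin (p + 2))).erase i).erase e,
      volume (if j = i ∨ j = e then Ioo (a j) (b j) else Icc (c j - t) (c j + t)) =
      ENNReal.ofReal (2 * t) ^ p := by
    rw [Finset.prod_congr rfl (g := fun _ => ENNReal.ofReal (2 * t)), Finset.prod_const,
      Finset.card_erase_of_mem he, Finset.card_erase_of_mem (Finset.mem_univ i),
      Finset.card_univ, Fintype.card_fin]
    · rfl
    · intro j hj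
      have h1 := Finset.mem_erase.1 hj
      have h2 := Finset.mem_erase.1 h1.2
      rw [if_neg (not_or.2 ⟨h2.1, h1.1⟩), Real.volume_Icc]
      congr 1
      ring
  rw [h3, if_pos (Or.inl rfl), if_pos (Or.inr rfl), Real.volume_Ioo, Real.volume_Ioo,
    ENNReal.ofReal_mul (p := (2 * t) ^ p) (by positivity), ENNReal.ofReal_mul (sub_nonneg.2 hi),
    ENNReal.ofReal_pow (by positivity)]
  ring

end ShadowX

theorem shadow (ν : Measure (W p)) (Φ : W p → W p) {L μ η : ℝ} (hL : 0 < L) (hμ : 0 < μ)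
    (hη : 0 < η) (hΦ : ∀ x y, ‖Φ x - Φ y‖ ≤ L * ‖x - y‖) (U : Set (W p))
    (hw : ∀ y ∈ U, ∀ s : ℝ, η ≤ s → ν (ball y s) ≤ ENNReal.ofReal (μ * s ^ p))
    {i e : Fin (p + 2)} (hie : i ≠ e) (a b : W p) :
    volume {w ∈ Set.pi univ (fun j => Ioo (a j) (b j)) |
        ∃ y ∈ U, y ∉ GG ν μ ∧ ∀ j, j ≠ i → j ≠ e → Φ y j = w j} ≤
      ENNReal.ofReal ((10 * L) ^ p * ((b i - a i) * (b e - a e)) / μ) * ν (thickening η U) := by
  have _h := hη
  rcases (eq_empty_or_nonempty {w ∈ Set.pi univ (fun j => Ioo (a j) (b j)) |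
      ∃ y ∈ U, y ∉ GG ν μ ∧ ∀ j, j ≠ i → j ≠ e → Φ y j = w j}) with h0 | ⟨w0, hw0, -⟩
  · rw [h0, measure_empty]
    exact zero_le
  have hi : a i < b i := (hw0 i (mem_univ _)).1.trans (hw0 i (mem_univ _)).2
  have he : a e < b e := (hw0 e (mem_univ _)).1.trans (hw0 e (mem_univ _)).2
  have hex : ∀ y : W p, ∃ r : ℝ, y ∉ GG ν μ →
      0 < r ∧ ENNReal.ofReal (μ * r ^ p) < ν (ball y r) := by
    intro y
    by_cases hy : y ∈ GG ν μ
    · exact ⟨0, fun h => absurd hy h⟩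
    · simp only [GG, Set.mem_ofPred_eq, not_forall, not_le] at hy
      obtain ⟨r, hr, h⟩ := hy
      exact ⟨r, fun _ => ⟨hr, h⟩⟩
  choose r hr using hex
  set T : Set (W p) := {y | y ∈ U ∧ y ∉ GG ν μ} with hT
  have hrη : ∀ y ∈ T, r y ≤ η := fun y hy => by
    by_contra h
    exact absurd (hw y hy.1 _ (not_le.1 h).le) (not_le.2 (hr y hy.2).2)
  obtain ⟨u, huT, hd, hc⟩ := Vitali.exists_disjoint_subfamily_covering_enlargement_ball T id r η
    hrη 5 (by norm_num)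
  have hu : u.Countable := hd.countable_of_isOpen (fun _ _ => isOpen_ball)
    (fun z hz => nonempty_ball.2 (hr z (huT hz).2).1)
  set K : ℝ := (10 * L) ^ p * ((b i - a i) * (b e - a e)) / μ with hK
  have hK0 : 0 ≤ K := by
    have := sub_pos.2 hi
    have := sub_pos.2 he
    positivity
  set B : W p → Set (W p) := fun z => Set.pi univ fun j => if j = i ∨ j = e then Ioo (a j) (b j)
      else Icc (Φ z j - 5 * L * r z) (Φ z j + 5 * L * r z) with hB
  have hsub : {w ∈ Set.pi univ (fun j => Ioo (a j) (b j)) |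
      ∃ y ∈ U, y ∉ GG ν μ ∧ ∀ j, j ≠ i → j ≠ e → Φ y j = w j} ⊆ ⋃ z ∈ u, B z := by
    rintro w ⟨hw1, y, hyU, hyG, hy⟩
    obtain ⟨z, hz, hyz⟩ := hc y ⟨hyU, hyG⟩
    have h1 : ‖y - z‖ < 5 * r z := by
      rw [← dist_eq_norm]
      exact hyz (mem_ball_self (hr y hyG).1)
    refine mem_biUnion hz fun j _ => ?_
    by_cases hj : j = i ∨ j = e
    · simp only [if_pos hj]
      exact hw1 j (mem_univ _)
    · simp only [if_neg hj]
      obtain ⟨h2, h3⟩ := not_or.1 hj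
      rw [← hy j h2 h3]
      have h4 : |Φ y j - Φ z j| ≤ 5 * L * r z :=
        calc |Φ y j - Φ z j| = ‖(Φ y - Φ z) j‖ := rfl
          _ ≤ ‖Φ y - Φ z‖ := norm_le_pi_norm _ j
          _ ≤ L * ‖y - z‖ := hΦ y z
          _ ≤ L * (5 * r z) := by gcongr
          _ = _ := by ring
      have h5 := abs_le.1 h4
      exact ⟨by linarith [h5.1], by linarith [h5.2]⟩
  have hvol : ∀ z ∈ u, volume (B z) ≤ ENNReal.ofReal K * ν (ball z (r z)) := by
    intro z hz
    obtain ⟨h1, h2⟩ := hr z (huT hz).2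
    rw [hB]
    simp only
    rw [ShadowX.box hie a b (Φ z) (by positivity) hi.le]
    refine le_trans (le_of_eq ?_) (mul_le_mul_right h2.le _)
    rw [← ENNReal.ofReal_mul hK0, hK]
    congr 1
    rw [show 2 * (5 * L * r z) = 10 * L * r z by ring, mul_pow (10 * L)]
    field_simp
  have := hu.to_subtype
  calc _ ≤ volume (⋃ z ∈ u, B z) := measure_mono hsub
    _ ≤ ∑' z : u, volume (B z) := measure_biUnion_le _ hu _
    _ ≤ ∑' z : u, ENNReal.ofReal K * ν (ball (z : W p) (r z)) :=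
        ENNReal.tsum_le_tsum fun z => hvol z z.2
    _ = ENNReal.ofReal K * ν (⋃ z ∈ u, ball z (r z)) := by
        rw [ENNReal.tsum_mul_left]
        congr 1
        exact (measure_biUnion hu hd fun _ _ => measurableSet_ball).symm
    _ ≤ _ := by
        refine mul_le_mul_right (measure_mono (iUnion₂_subset fun z hz y hy => ?_)) _
        exact mem_thickening_iff.2 ⟨z, (huT hz).1, (mem_ball.1 hy).trans_le (hrη z (huT hz))⟩

theorem shadow_ball (ν : Measure (W p)) (Φ : W p → W p) {lam s : ℝ} (hlam : 0 < lam) (hs : 0 < s)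
    (hΦ : ∀ x y, ‖Φ x - Φ y‖ ≤ LL p * ‖x - y‖) {x : W p} (hx : x ∈ GG ν lam)
    {i e : Fin (p + 2)} (hie : i ≠ e) (c : W p) :
    volume {w ∈ ball c s | ∃ y ∈ ball x (LL p * s), y ∉ GG ν (KK p * lam) ∧
        ∀ j, j ≠ i → j ≠ e → Φ y j = w j} ≤
      ENNReal.ofReal ((2 * s) ^ (p + 2) / (((p : ℝ) + 2) * 2 ^ (p + 4))) := by
  have hL := LL_pos p
  have hK : 0 < KK p := one_pos.trans_le (one_le_KK p)
  have hη : 0 < LL p * s := mul_pos hL hs
  have h1 := shadow ν Φ hL (mul_pos hK hlam) hη hΦ (ball x (LL p * s))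
    (fun y hy t ht => witness_of_near hlam.le
      (mul_le_mul_of_nonneg_right (two_pow_le_KK p) hlam.le) hη hx
      (by rw [← dist_eq_norm]; exact (mem_ball.1 hy).le) t ht) hie
    (fun j => c j - s) (fun j => c j + s)
  have h2 : ball c s = Set.pi univ fun j => Ioo (c j - s) (c j + s) := by
    rw [ball_pi c hs]
    simp only [Real.ball_eq_Ioo]
  have h3 : thickening (LL p * s) (ball x (LL p * s)) ⊆ ball x (2 * (LL p * s)) := by
    intro y hy
    obtain ⟨z, hz, hyz⟩ := mem_thickening_iff.1 hy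
    rw [mem_ball] at hz ⊢
    linarith [dist_triangle y z x]
  rw [h2]
  refine h1.trans ((mul_le_mul_right ((measure_mono h3).trans (hx _ (by positivity))) _).trans
    (le_of_eq ?_))
  rw [show c i + s - (c i - s) = 2 * s by ring, show c e + s - (c e - s) = 2 * s by ring,
    ← ENNReal.ofReal_mul (by positivity)]
  congr 1
  have h4 : (10 * LL p) ^ p * (2 * (LL p * s)) ^ p =
      (40 * ((p : ℝ) + 2) ^ 2) ^ p * (2 * s) ^ p := by
    rw [← mul_pow, ← mul_pow]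
    congr 1
    unfold LL
    ring
  have h5 : (0 : ℝ) < (40 * ((p : ℝ) + 2) ^ 2) ^ p := by positivity
  calc (10 * LL p) ^ p * (2 * s * (2 * s)) / (KK p * lam) * (lam * (2 * (LL p * s)) ^ p)
      = (10 * LL p) ^ p * (2 * (LL p * s)) ^ p * (2 * s * (2 * s)) / KK p := by
        field_simp
    _ = _ := by
        rw [h4, pow_add (2 * s) p 2]
        unfold KK
        generalize (40 * ((p : ℝ) + 2) ^ 2) ^ p = Z at h5 ⊢
        field_simp

end SN

end

section

namespace SN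
open Set Filter Topology MeasureTheory Metric Function
open scoped ENNReal

variable {p : ℕ}

namespace SlabX

theorem meas_S (T : Finset (Fin (p + 2))) (r : ℝ) :
    MeasurableSet {z : W p × W p | ∀ j, j ∉ T → |z.2 j - z.1 j| < r} := by
  have : {z : W p × W p | ∀ j, j ∉ T → |z.2 j - z.1 j| < r} =
      ⋂ j, ⋂ (_ : j ∉ T), {z : W p × W p | |z.2 j - z.1 j| < r} := by ext; simp
  rw [this]
  exact MeasurableSet.iInter fun j => MeasurableSet.iInter fun _ =>
    (isOpen_lt (by fun_prop) continuous_const).measurableSet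

theorem meas_slab (m : Measure (W p)) [IsFiniteMeasure m] (T : Finset (Fin (p + 2))) (r : ℝ) :
    Measurable fun w : W p => m {w' | ∀ j, j ∉ T → |w' j - w j| < r} :=
  measurable_measure_prodMk_left (meas_S T r)

theorem lint_slab (m : Measure (W p)) [IsFiniteMeasure m] (T : Finset (Fin (p + 2))) {r N : ℝ}
    (hr : 0 ≤ r) :
    ∫⁻ w in ball (0 : W p) N, m {w' | ∀ j, j ∉ T → |w' j - w j| < r} ≤
      ENNReal.ofReal ((2 * r) ^ (p + 2 - T.card)) * (ENNReal.ofReal (2 * N) ^ T.card * m univ) := by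
  have h1 := Measure.prod_apply (μ := volume.restrict (ball (0 : W p) N)) (ν := m) (meas_S T r)
  rw [Measure.prod_apply_symm (meas_S T r)] at h1
  refine h1.symm.trans_le ?_
  rw [← mul_assoc, ← lintegral_const]
  refine lintegral_mono fun w' => ?_
  rw [Measure.restrict_apply' measurableSet_ball]
  refine (measure_mono (t := Set.pi univ fun j =>
    if j ∈ T then Ioo (-N) N else Ioo (w' j - r) (w' j + r)) fun w hw j _ => ?_).trans ?_
  · dsimp only
    split_ifs with hj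
    · exact abs_lt.1 ((norm_le_pi_norm w j).trans_lt (mem_ball_zero_iff.1 hw.2))
    · have := abs_lt.1 (hw.1 j hj)
      exact ⟨by linarith [this.2], by linarith [this.1]⟩
  · rw [volume_pi_pi, ← Finset.prod_mul_prod_compl T, mul_comm,
      Finset.prod_congr rfl (g := fun _ => ENNReal.ofReal (2 * r)) fun j hj => by
        rw [if_neg (Finset.mem_compl.1 hj), Real.volume_Ioo]; congr 1; ring,
      Finset.prod_congr (s₁ := T) rfl (g := fun _ => ENNReal.ofReal (2 * N)) fun j hj => by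
        rw [if_pos hj, Real.volume_Ioo]; congr 1; ring,
      Finset.prod_const, Finset.prod_const, Finset.card_compl, Fintype.card_fin,
      ENNReal.ofReal_pow (by positivity)]

end SlabX

open SlabX in
theorem avg_slab (m : Measure (W p)) (hm : m univ < ∞) (T : Finset (Fin (p + 2))) {c θ : ℝ}
    (hc : 0 < c) (hθ : 1 < θ) :
    ∀ᵐ w ∂(volume : Measure (W p)), ∃ M : ℝ≥0∞, M < ∞ ∧ ∃ᶠ k : ℕ in atTop,
      ∑' i : ℕ, ENNReal.ofReal ((1 / θ) ^ i * ((2 : ℝ) ^ (k + i)) ^ (p + 2 - T.card)) *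
        m {w' | ∀ j, j ∉ T → |w' j - w j| < c * (1 / 2 : ℝ) ^ (k + i)} ≤ M := by
  have : IsFiniteMeasure m := ⟨hm⟩
  set a : ℕ → W p → ℝ≥0∞ := fun k w =>
    ∑' i : ℕ, ENNReal.ofReal ((1 / θ) ^ i * ((2 : ℝ) ^ (k + i)) ^ (p + 2 - T.card)) *
      m {w' | ∀ j, j ∉ T → |w' j - w j| < c * (1 / 2 : ℝ) ^ (k + i)} with ha
  have hma : ∀ k, Measurable (a k) := fun k =>
    Measurable.tsum fun i => (meas_slab m T _).const_mul _
  have hθ0 : 0 ≤ 1 / θ := by positivity
  have hθ1 : ENNReal.ofReal (1 / θ) < 1 :=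
    ENNReal.ofReal_lt_one.2 ((div_lt_one (by linarith)).2 hθ)
  have key : ∀ N : ℕ, ∀ᵐ w ∂(volume.restrict (ball (0 : W p) N)),
      liminf (fun k => a k w) atTop < ∞ := by
    intro N
    set K := ENNReal.ofReal ((2 * c) ^ (p + 2 - T.card)) *
      (ENNReal.ofReal (2 * N) ^ T.card * m univ) with hK
    have h1 : ∀ k, ∫⁻ w in ball (0 : W p) N, a k w ≤ (1 - ENNReal.ofReal (1 / θ))⁻¹ * K := by
      intro k
      rw [lintegral_tsum fun i => ((meas_slab m T _).const_mul _).aemeasurable,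
        ← ENNReal.tsum_geometric, ← ENNReal.tsum_mul_right]
      refine ENNReal.tsum_le_tsum fun i => ?_
      rw [lintegral_const_mul _ (meas_slab m T _)]
      refine (mul_le_mul_right (lint_slab m T (by positivity)) _).trans (le_of_eq ?_)
      rw [hK, ← mul_assoc, ← mul_assoc _ (ENNReal.ofReal ((2 * c) ^ _)),
        ← ENNReal.ofReal_mul (by positivity), ← ENNReal.ofReal_pow hθ0,
        ← ENNReal.ofReal_mul (by positivity), mul_assoc ((1 / θ) ^ i), ← mul_pow]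
      congr 4
      rw [one_div, inv_pow]
      field_simp
    refine ae_lt_top (Measurable.liminf hma) (ne_top_of_le_ne_top ?_
      ((lintegral_liminf_le hma).trans (liminf_le_of_frequently_le' (Frequently.of_forall h1))))
    refine ENNReal.mul_ne_top (ENNReal.inv_ne_top.2 (tsub_pos_of_lt hθ1).ne') ?_
    exact ENNReal.mul_ne_top ENNReal.ofReal_ne_top
      (ENNReal.mul_ne_top (ENNReal.pow_ne_top ENNReal.ofReal_ne_top) hm.ne)
  have key2 := ae_all_iff.2 fun N : ℕ => (ae_restrict_iff' measurableSet_ball).1 (key N)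
  filter_upwards [key2] with w hw
  obtain ⟨N, hN⟩ := exists_nat_gt ‖w‖
  have h2 := hw N (mem_ball_zero_iff.2 hN)
  exact ⟨_, ENNReal.add_lt_top.2 ⟨h2, ENNReal.one_lt_top⟩, (frequently_lt_of_liminf_lt
    (h := ENNReal.lt_add_right h2.ne one_ne_zero)).mono fun k hk => hk.le⟩

theorem ae_update {P : W p → Prop} (h : ∀ᵐ w ∂(volume : Measure (W p)), P w) (i : Fin (p + 2)) :
    ∀ᵐ w ∂(volume : Measure (W p)), ∀ᵐ t ∂(volume : Measure ℝ), P (update w i t) := by
  have e := volume_preserving_piFinSuccAbove (fun _ : Fin (p + 2) => ℝ) i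
  have h1 := (e.symm _).quasiMeasurePreserving.ae h
  have h2 := Measure.ae_ae_of_ae_prod
    (Measure.measurePreserving_swap.quasiMeasurePreserving.ae h1)
  have h3 := (Measure.quasiMeasurePreserving_snd.comp e.quasiMeasurePreserving).ae h2
  refine h3.mono fun w hw => hw.mono fun t ht => ?_
  rw [← Fin.insertNth_removeNth]
  exact ht

end SN

end

section

namespace SN
open Set Filter Topology MeasureTheory Metric Function
open scoped ENNReal

variable {p : ℕ}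

namespace SepX

open Real

lemma closed_diff {R P : Set (ℝ × ℝ)} (hR : IsClosed R)
    (hP : ∀ u ∈ R, u ∈ P → ∃ δ : ℝ, 0 < δ ∧ ∀ v ∈ R, ‖v - u‖ < δ → v ∈ P) :
    IsClosed (R \ P) := by
  refine isClosed_of_closure_subset fun u hu => ?_
  have h1 : u ∈ R := hR.closure_subset (closure_mono sdiff_subset hu)
  refine ⟨h1, fun h2 => ?_⟩
  obtain ⟨δ, hδ, H⟩ := hP u h1 h2
  obtain ⟨v, hv, h3⟩ := Metric.mem_closure_iff.1 hu δ hδ
  exact hv.2 (H v hv.1 (by rwa [← dist_eq_norm, dist_comm]))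

lemma tot_disc {ι : Type*} {K : Set (ℝ × ℝ)} (g : ℝ × ℝ → ι → ℝ)
    (hg : ∀ i, ContinuousOn (fun u => g u i) K) (hi : InjOn g K)
    (h0 : ∀ i, volume ((fun u => g u i) '' K) = 0) : IsTotallyDisconnected K := by
  intro C hC hc x hx y hy
  refine hi (hC hx) (hC hy) (funext fun i => ?_)
  have h1 := hc.image _ ((hg i).mono hC)
  have key : ∀ x ∈ C, ∀ y ∈ C, g x i ≤ g y i := fun x hx y hy => by
    have h2 := measure_mono_null ((h1.Icc_subset (mem_image_of_mem _ hy)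
      (mem_image_of_mem _ hx)).trans (image_mono hC)) (h0 i)
    rw [Real.volume_Icc, ENNReal.ofReal_eq_zero] at h2
    linarith
  exact le_antisymm (key x hx y hy) (key y hy x hx)

lemma exists_tau {K : Set (ℝ × ℝ)} (hK : IsCompact K) (hd : IsTotallyDisconnected K) {a b : ℝ}
    (hab : a < b) : ∃ τ : C(ℝ × ℝ, ℝ), (∀ u, u.1 = a → τ u = 0) ∧ (∀ u, u.1 = b → τ u = 1) ∧
      ∀ u ∈ K, τ u = 0 ∨ τ u = 1 := by
  have := isCompact_iff_compactSpace.1 hK
  have := totallyDisconnectedSpace_subtype_iff.2 hd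
  obtain ⟨C, hC, h1, h2⟩ := exists_clopen_of_closed_subset_open (X := K)
    (Z := {u | u.1.1 = a}) (U := {u | u.1.1 ≠ b}) (isClosed_eq (by fun_prop) continuous_const)
    (isOpen_ne_fun (by fun_prop) continuous_const) fun u hu => by
      rw [mem_ofPred_eq] at hu ⊢; rw [hu]; exact hab.ne
  have e := hK.isClosed.isClosedEmbedding_subtypeVal.isClosedMap
  obtain ⟨τ, t0, t1, -⟩ := exists_continuous_zero_one_of_isClosed
    (s := Subtype.val '' C ∪ {u : ℝ × ℝ | u.1 = a}) (t := Subtype.val '' Cᶜ ∪ {u : ℝ × ℝ | u.1 = b})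
    ((e _ hC.1).union (isClosed_eq (by fun_prop) continuous_const))
    ((e _ hC.compl.1).union (isClosed_eq (by fun_prop) continuous_const)) (by
      rw [disjoint_left]
      rintro u (⟨v, hv, rfl⟩ | hu) (⟨w, hw, e⟩ | hu')
      · exact hw (Subtype.ext e ▸ hv)
      · exact h2 hv hu'
      · exact hw (h1 (show w.1.1 = a by rw [e]; exact hu))
      · exact hab.ne (hu.symm.trans hu'))
  refine ⟨τ, fun u hu => t0 (Or.inr hu), fun u hu => t1 (Or.inr hu), fun u hu => ?_⟩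
  by_cases h : (⟨u, hu⟩ : K) ∈ C
  · exact Or.inl (t0 (Or.inl ⟨_, h, rfl⟩))
  · exact Or.inr (t1 (Or.inl ⟨_, h, rfl⟩))

lemma const {a b : ℝ} (hab : a ≤ b) {f : ℝ → ℝ} (hf : Continuous f)
    (h : ∀ t ∈ Icc a b, Circle.exp (f t) = 1) : f a = f b :=
  Circle.isCoveringMap_exp.constOn_of_comp isPreconnected_Icc hf.continuousOn
    (fun s hs t ht => by rw [h s hs, h t ht]) (left_mem_Icc.2 hab) (right_mem_Icc.2 hab)

lemma exp_flip {t : ℝ} (ht : t = 0 ∨ t = 1) : Circle.exp (π * t) = Circle.exp (-(π * t)) := by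
  rcases ht with rfl | rfl
  · simp
  · rw [← Circle.exp_sub_two_pi]; congr 1; ring

lemma lift {a b c d : ℝ} (hab : a ≤ b) (hcd : c ≤ d) {h : ℝ × ℝ → Circle}
    (hc : ContinuousOn h (Icc a b ×ˢ Icc c d)) :
    ∃ H : C(ℝ × ℝ, ℝ), ∀ u ∈ Icc a b ×ˢ Icc c d, Circle.exp (H u) = h u := by
  have c1 : Continuous fun u : ℝ × ℝ => ((projIcc a b hab u.1 : ℝ), (projIcc c d hcd u.2 : ℝ)) :=
    (continuous_subtype_val.comp (continuous_projIcc.comp continuous_fst)).prodMk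
      (continuous_subtype_val.comp (continuous_projIcc.comp continuous_snd))
  have c2 := hc.comp_continuous c1 fun u => ⟨(projIcc a b hab u.1).2, (projIcc c d hcd u.2).2⟩
  obtain ⟨e, he⟩ := Circle.exp_surjective ((⟨_, c2⟩ : C(ℝ × ℝ, Circle)) 0)
  obtain ⟨H, ⟨-, hH⟩, -⟩ := Circle.isCoveringMap_exp.existsUnique_continuousMap_lifts
    (⟨_, c2⟩ : C(ℝ × ℝ, Circle)) 0 e he
  refine ⟨H, fun u hu => ?_⟩
  have := congrFun hH u
  simpa only [comp_apply, ContinuousMap.coe_mk, projIcc_of_mem _ hu.1, projIcc_of_mem _ hu.2]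
    using this

end SepX

open SepX Real in
theorem sep {ι : Type*} {a b c d : ℝ} (hab : a < b) (hcd : c < d) (P M : Set (ℝ × ℝ))
    (hd : ∀ u ∈ Icc a b ×ˢ Icc c d, u ∈ P → u ∈ M → False)
    (hP : ∀ u ∈ Icc a b ×ˢ Icc c d, u ∈ P → ∃ δ : ℝ, 0 < δ ∧
      ∀ v ∈ Icc a b ×ˢ Icc c d, ‖v - u‖ < δ → v ∈ P)
    (hM : ∀ u ∈ Icc a b ×ˢ Icc c d, u ∈ M → ∃ δ : ℝ, 0 < δ ∧
      ∀ v ∈ Icc a b ×ˢ Icc c d, ‖v - u‖ < δ → v ∈ M)
    (hbot : ∀ s ∈ Icc a b, (s, c) ∈ P) (htop : ∀ s ∈ Icc a b, (s, d) ∈ M)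
    (g : ℝ × ℝ → ι → ℝ) (hg : ∀ i, ContinuousOn (fun u => g u i) (Icc a b ×ˢ Icc c d))
    (hi : InjOn g (Icc a b ×ˢ Icc c d))
    (h0 : ∀ i, volume ((fun u => g u i) '' ((Icc a b ×ˢ Icc c d) \ (P ∪ M))) = 0) : False := by
  classical
  have hR : IsCompact (Icc a b ×ˢ Icc c d) := isCompact_Icc.prod isCompact_Icc
  have cP := closed_diff hR.isClosed hP
  have cM := closed_diff hR.isClosed hM
  have hK : IsCompact ((Icc a b ×ˢ Icc c d) \ (P ∪ M)) := by
    rw [← sdiff_inter_sdiff]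
    exact hR.of_isClosed_subset (cP.inter cM) fun u hu => hu.1.1
  obtain ⟨τ, t0, t1, t2⟩ := exists_tau hK (tot_disc g (fun i => (hg i).mono sdiff_subset)
    (hi.mono sdiff_subset) h0) hab
  set h : ℝ × ℝ → Circle := fun u =>
    if u ∈ P then Circle.exp (π * τ u) else Circle.exp (-(π * τ u)) with hh
  have e1 : ∀ u ∈ (Icc a b ×ˢ Icc c d) \ M, h u = Circle.exp (π * τ u) := fun u hu => by
    by_cases h1 : u ∈ P
    · exact if_pos h1
    · exact (if_neg h1).trans (exp_flip (t2 u ⟨hu.1, fun h2 => h2.elim h1 hu.2⟩)).symm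
  have e2 : ∀ u ∈ (Icc a b ×ˢ Icc c d) \ P, h u = Circle.exp (-(π * τ u)) := fun u hu =>
    if_neg hu.2
  have hc : ContinuousOn h (Icc a b ×ˢ Icc c d) := by
    refine (ContinuousOn.union_of_isClosed (ContinuousOn.congr ?_ e1) (ContinuousOn.congr ?_ e2)
      cM cP).mono fun u hu => ?_
    · exact Continuous.continuousOn (by fun_prop)
    · exact Continuous.continuousOn (by fun_prop)
    · by_cases h1 : u ∈ M
      · exact Or.inr ⟨hu, fun h2 => hd u hu h2 h1⟩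
      · exact Or.inl ⟨hu, h1⟩
  obtain ⟨H, hH⟩ := lift hab.le hcd.le hc
  have mc := left_mem_Icc.2 hcd.le
  have md := right_mem_Icc.2 hcd.le
  have ma := left_mem_Icc.2 hab.le
  have mb := right_mem_Icc.2 hab.le
  have s1 := const hab.le (f := fun s => H (s, c) - π * τ (s, c)) (by fun_prop) fun s hs => by
    rw [Circle.exp_sub, hH _ ⟨hs, mc⟩, e1 _ ⟨⟨hs, mc⟩, hd _ ⟨hs, mc⟩ (hbot s hs)⟩, div_self']
  have s2 := const hab.le (f := fun s => H (s, d) - -(π * τ (s, d))) (by fun_prop) fun s hs => by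
    rw [Circle.exp_sub, hH _ ⟨hs, md⟩, e2 _ ⟨⟨hs, md⟩, fun h1 => hd _ ⟨hs, md⟩ h1 (htop s hs)⟩,
      div_self']
  have s3 := const hcd.le (f := fun t => H (a, t)) (by fun_prop) fun t ht => by
    rw [hH _ ⟨ma, ht⟩, hh]; simp [t0 (a, t) rfl]
  have s4 := const hcd.le (f := fun t => H (b, t) - π) (by fun_prop) fun t ht => by
    rw [Circle.exp_sub, hH _ ⟨mb, ht⟩, hh]
    simp only [← exp_flip (Or.inr (t1 (b, t) rfl)), ite_self]
    rw [t1 (b, t) rfl, mul_one, div_self']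
  simp only [t0 (a, c) rfl, t0 (a, d) rfl, t1 (b, c) rfl, t1 (b, d) rfl] at s1 s2
  linarith [Real.pi_pos]

end SN

end

section

namespace SN
open Set Filter Topology MeasureTheory Metric Function
open scoped ENNReal

variable {p : ℕ}

namespace MajX

/-- hybrid point -/
def hy (m : ℕ) (u v : W p) : W p := fun j => if j.val < m then v j else u j

theorem hy_zero (u v : W p) : hy 0 u v = u := by
  funext j; simp [hy]

theorem hy_top (u v : W p) : hy (p + 2) u v = v := by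
  funext j; simp only [hy, if_pos j.isLt]

theorem hy_succ (m : Fin (p + 2)) (u v : W p) :
    hy (m.val + 1) u v = update (hy m.val u v) m (v m) := by
  funext j
  by_cases h : j = m
  · subst h; simp [hy]
  · have h' : j.val ≠ m.val := fun e => h (Fin.ext e)
    rw [update_of_ne h]
    simp only [hy]
    by_cases h2 : j.val < m.val
    · rw [if_pos h2, if_pos (by omega)]
    · rw [if_neg h2, if_neg (by omega)]

theorem hy_mem {c u v : W p} {s : ℝ} (hs : 0 < s) (hu : u ∈ ball c s) (hv : v ∈ ball c s)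
    (m : ℕ) : hy m u v ∈ ball c s := by
  rw [mem_ball, dist_pi_lt_iff hs] at hu hv ⊢
  intro j
  simp only [hy]
  split_ifs
  · exact hv j
  · exact hu j

theorem mp (m : ℕ) : MeasurePreserving (fun x : W p × W p => (hy m x.1 x.2, hy m x.2 x.1))
    ((volume : Measure (W p)).prod volume) ((volume : Measure (W p)).prod volume) := by
  have h1 := measurePreserving_arrowProdEquivProdArrow ℝ ℝ (Fin (p + 2))
    (fun _ => volume) (fun _ => volume)
  have h2 := measurePreserving_pi (fun _ : Fin (p + 2) => (volume : Measure ℝ).prod volume)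
    (fun _ : Fin (p + 2) => (volume : Measure ℝ).prod volume)
    (f := fun j (x : ℝ × ℝ) => if j.val < m then x.swap else x) fun j => by
      by_cases h : j.val < m
      · simp only [if_pos h]; exact Measure.measurePreserving_swap
      · simp only [if_neg h]; exact MeasurePreserving.id _
  have h3 := h1.comp (h2.comp h1.symm)
  rw [volume_pi]
  convert h3 using 1
  funext x
  refine Prod.ext ?_ ?_ <;> funext j <;>
    simp only [hy, MeasurableEquiv.arrowProdEquivProdArrow, Equiv.arrowProdEquivProdArrow,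
      comp_apply, MeasurableEquiv.coe_mk, MeasurableEquiv.symm_mk, Equiv.coe_fn_mk,
      Equiv.coe_fn_symm_mk] <;> split_ifs <;> rfl

end MajX

open MajX

theorem maj (c : W p) {s : ℝ} (hs : 0 < s) (S : Bool → Set (W p))
    (hS : ∀ w, w ∈ S true → w ∈ S false → False) (Bad : Fin (p + 2) → Set (W p)) (ε : ℝ≥0∞)
    (hB : ∀ i, volume (Bad i ∩ ball c s) ≤ ε)
    (hl : ∀ i, ∀ w ∈ ball c s, w ∉ Bad i →
      ∃ b, ∀ t : ℝ, update w i t ∈ ball c s → update w i t ∈ S b) :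
    ∃ b, volume (ball c s \ S b) ≤ ((p + 2 : ℕ) : ℝ≥0∞) * ε := by
  obtain ⟨N, hN⟩ : ∃ N : Set (W p × W p), N = ⋃ m : Fin (p + 2),
      (fun x : W p × W p => (hy m.val x.1 x.2, hy m.val x.2 x.1)) ⁻¹'
        (toMeasurable volume (Bad m ∩ ball c s) ×ˢ ball c s) := ⟨_, rfl⟩
  have mE : ∀ m : Fin (p + 2),
      MeasurableSet (toMeasurable volume (Bad m ∩ ball c s) ×ˢ ball c s) := fun m =>
    (measurableSet_toMeasurable _ _).prod measurableSet_ball
  have mN : MeasurableSet N := hN ▸ MeasurableSet.iUnion fun m => (mp m.val).measurable (mE m)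
  have vN : ((volume : Measure (W p)).prod volume) N ≤
      ((p + 2 : ℕ) : ℝ≥0∞) * ε * volume (ball c s) := by
    rw [hN]
    refine (measure_iUnion_fintype_le _ _).trans ?_
    refine (Finset.sum_le_sum (g := fun _ => ε * volume (ball c s)) fun m _ => ?_).trans_eq ?_
    · rw [(mp m.val).measure_preimage (mE m).nullMeasurableSet, Measure.prod_prod,
        measure_toMeasurable]
      exact mul_le_mul_left (hB m) _
    · rw [Finset.sum_const, Finset.card_univ, Fintype.card_fin, nsmul_eq_mul, mul_assoc]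
  obtain ⟨u, hu, hle⟩ := exists_le_setLAverage (μ := (volume : Measure (W p))) (s := ball c s)
    (f := fun u => volume (Prod.mk u ⁻¹' N)) (measure_ball_pos _ c hs).ne' measure_ball_lt_top.ne
    (measurable_measure_prodMk_left mN).aemeasurable
  have hle2 : volume (Prod.mk u ⁻¹' N) ≤ ((p + 2 : ℕ) : ℝ≥0∞) * ε := by
    refine hle.trans ?_
    rw [setLAverage_eq]
    refine ENNReal.div_le_of_le_mul ((setLIntegral_le_lintegral _ _).trans ?_)
    rwa [← Measure.prod_apply mN]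
  have uniq : ∀ w b b', w ∈ S b → w ∈ S b' → b' = b := by
    intro w b b' h h'
    cases b <;> cases b'
    · rfl
    · exact (hS w h' h).elim
    · exact (hS w h h').elim
    · rfl
  obtain ⟨b, hb⟩ : ∃ b, ∀ b', u ∈ S b' → b' = b := by
    by_cases h : u ∈ S true
    · exact ⟨true, fun b' h' => uniq u _ _ h h'⟩
    · refine ⟨false, fun b' h' => ?_⟩
      cases b'
      · rfl
      · exact (h h').elim
  refine ⟨b, le_trans (measure_mono fun v hv => ?_) hle2⟩
  by_contra hn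
  have step : ∀ m : Fin (p + 2), (∀ b', hy m.val u v ∈ S b' → b' = b) →
      hy (m.val + 1) u v ∈ S b := by
    intro m hm
    have hz := hy_mem hs hu hv.1 m.val
    have hbad : hy m.val u v ∉ Bad m := fun hbad => hn (by
      rw [mem_preimage, hN]
      exact mem_iUnion.2 ⟨m, subset_toMeasurable _ _ ⟨hbad, hz⟩, hy_mem hs hv.1 hu m.val⟩)
    obtain ⟨b0, h0⟩ := hl m _ hz hbad
    have e1 := h0 (hy m.val u v m) (by rwa [update_eq_self])
    rw [update_eq_self] at e1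
    rw [← hm b0 e1, hy_succ]
    exact h0 _ (by rw [← hy_succ]; exact hy_mem hs hu hv.1 _)
  have all : ∀ m : ℕ, m < p + 2 → ∀ b', hy m u v ∈ S b' → b' = b := by
    intro m
    induction m with
    | zero => intro _; rw [hy_zero]; exact hb
    | succ m ih =>
      intro hm b' h'
      exact uniq _ _ _ (step ⟨m, by omega⟩ (ih (by omega))) h'
  have := step ⟨p + 1, by omega⟩ (all _ (by simp))
  rw [hy_top] at this
  exact hv.2 this

end SN

end
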