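import Mathlib
import Pool.Agent.Mg.Fedaf86.Gceb433

section

namespace SN
open Set Filter Topology MeasureTheory Metric Function
open scoped ENNReal

variable {p : ℕ}

namespace MoAX

/-- the rescaled kernel -/
noncomputable def Kk (p k : ℕ) (z : W p) : ℝ :=
  ((2 : ℝ) ^ k) ^ (p + 2) * (bump p).normed volume ((2 : ℝ) ^ k • z)

theorem contDiff_Kk (k : ℕ) {n : ℕ∞} : ContDiff ℝ n (Kk p k) :=
  contDiff_const.mul ((bump p).contDiff_normed.comp (contDiff_id.const_smul ((2 : ℝ) ^ k)))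

theorem norm_lt_of_Kk {k : ℕ} {z : W p} (h : Kk p k z ≠ 0) : ‖z‖ < (1 / 2 : ℝ) ^ k := by
  have h1 : (2 : ℝ) ^ k • z ∈ support ((bump p).normed volume) := right_ne_zero_of_mul h
  rw [ContDiffBump.support_normed_eq, mem_ball_zero_iff, norm_smul, Real.norm_eq_abs,
    abs_of_pos (by positivity)] at h1
  have h2 : (2 : ℝ) ^ k * ‖z‖ < 1 := h1
  rw [one_div, inv_pow, inv_eq_one_div, lt_div_iff₀ (by positivity)]
  linarith

theorem supp_Kk (k : ℕ) : HasCompactSupport (Kk p k) :=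
  HasCompactSupport.of_support_subset_isCompact (isCompact_closedBall 0 ((1 / 2 : ℝ) ^ k))
    fun _ hz => mem_closedBall_zero_iff.2 (norm_lt_of_Kk hz).le

theorem mo_eq (k : ℕ) (u : W p → ℝ) :
    mo k u = convolution u (Kk p k) (ContinuousLinearMap.lsmul ℝ ℝ) volume := by
  funext x
  rw [convolution_lsmul, mo]
  congr 1
  funext y
  rw [smul_eq_mul, Kk, mul_comm]

theorem weak_mono {n : ℕ} {Ω Ω' : Set (Fin n → ℝ)} (hΩ : MeasurableSet Ω) (hsub : Ω' ⊆ Ω)
    {i : Fin n} {u v : (Fin n → ℝ) → ℝ} (h : SJ.WeakPD Ω i u v) : SJ.WeakPD Ω' i u v := by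
  intro φ h1 h2 h3
  have e := h φ h1 h2 (h3.trans hsub)
  rw [setIntegral_eq_of_subset_of_forall_sdiff_eq_zero hΩ hsub (fun x hx => by
      rw [fderiv_of_notMem_tsupport ℝ fun hh => hx.2 (h3 hh)]; simp),
    setIntegral_eq_of_subset_of_forall_sdiff_eq_zero hΩ hsub (fun x hx => by
      rw [image_eq_zero_of_notMem_tsupport fun hh => hx.2 (h3 hh)]; simp)] at e
  exact e

end MoAX

open MoAX

theorem mo_contDiff (k : ℕ) {u : W p → ℝ} (hu : Integrable u volume) :
    ContDiff ℝ 2 (mo k u) := by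
  rw [mo_eq]
  exact (supp_Kk k).contDiff_convolution_right (n := 2) _ hu.locallyIntegrable (contDiff_Kk k)

theorem mo_fderiv (k : ℕ) {Ω : Set (W p)} (hΩ : MeasurableSet Ω) {i : Fin (p + 2)}
    {u v : W p → ℝ} (hu : IntegrableOn u Ω volume) (hv : IntegrableOn v Ω volume)
    (h : SJ.WeakPD Ω i u v) (x : W p) (hx : closedBall x ((1 / 2 : ℝ) ^ k) ⊆ Ω) :
    fderiv ℝ (mo k (Ω.indicator u)) x (Pi.single i 1) = mo k (Ω.indicator v) x := by
  have _ := hv
  have hl : LocallyIntegrable (Ω.indicator u) volume :=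
    ((integrable_indicator_iff hΩ).2 hu).locallyIntegrable
  have h1 : ContDiff ℝ 1 (Kk p k) := contDiff_Kk (n := 1) k
  rw [mo_eq, ((supp_Kk k).hasFDerivAt_convolution_right _ hl h1 x).fderiv,
    convolution_precompR_apply _ hl ((supp_Kk k).fderiv ℝ) (h1.continuous_fderiv one_ne_zero),
    convolution_lsmul]
  have hs : support (fun y => Kk p k (x - y)) ⊆ closedBall x ((1 / 2 : ℝ) ^ k) := fun y hy => by
    rw [mem_closedBall, dist_comm, dist_eq_norm]
    exact (norm_lt_of_Kk hy).le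
  have e := h (fun y => Kk p k (x - y)) ((contDiff_Kk k).comp (contDiff_const.sub contDiff_id))
    (HasCompactSupport.of_support_subset_isCompact (isCompact_closedBall _ _) hs)
    ((closure_minimal hs isClosed_closedBall).trans hx)
  have hd : ∀ y, fderiv ℝ (fun y => Kk p k (x - y)) y (Pi.single i 1) =
      -fderiv ℝ (Kk p k) (x - y) (Pi.single i 1) := fun y => by
    have := ((h1.differentiable one_ne_zero) (x - y)).hasFDerivAt.comp y
      ((hasFDerivAt_id y).const_sub x)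
    rw [show (fun y => Kk p k (x - y)) = Kk p k ∘ HSub.hSub x from rfl, this.fderiv]
    simp
  simp only [hd, mul_neg, integral_neg, neg_inj] at e
  have e1 : (fun t => Ω.indicator u t • fderiv ℝ (Kk p k) (x - t) (Pi.single i 1)) =
      Ω.indicator fun t => u t * fderiv ℝ (Kk p k) (x - t) (Pi.single i 1) := by
    funext t
    by_cases ht : t ∈ Ω <;> simp [ht]
  have e2 : (fun t => Ω.indicator v t • Kk p k (x - t)) =
      Ω.indicator fun t => v t * Kk p k (x - t) := by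
    funext t
    by_cases ht : t ∈ Ω <;> simp [ht]
  rw [mo_eq, convolution_lsmul, e1, e2, integral_indicator hΩ, integral_indicator hΩ, e]

theorem mo_abs_le (p : ℕ) : ∃ Cρ : ℝ, 0 ≤ Cρ ∧ ∀ (k : ℕ) (u : W p → ℝ) (x : W p),
    Integrable u volume → |mo k u x| ≤
      Cρ * ((2 : ℝ) ^ k) ^ (p + 2) * ∫ y in ball x (2 * (1 / 2 : ℝ) ^ k), |u y| := by
  obtain ⟨C, hC⟩ := ((bump p).continuous_normed (μ := volume)).bounded_above_of_compact_support
    (bump p).hasCompactSupport_normed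
  refine ⟨C, (norm_nonneg _).trans (hC 0), fun k u x hu => ?_⟩
  rw [← integral_const_mul, ← integral_indicator measurableSet_ball, mo, ← Real.norm_eq_abs]
  refine norm_integral_le_of_norm_le
    ((integrable_indicator_iff measurableSet_ball).2 (hu.abs.const_mul _).integrableOn)
    (Eventually.of_forall fun y => ?_)
  by_cases hy : y ∈ ball x (2 * (1 / 2 : ℝ) ^ k)
  · rw [indicator_of_mem hy, norm_mul, norm_mul, Real.norm_eq_abs (u y),
      Real.norm_of_nonneg (by positivity), mul_comm C]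
    gcongr
    exact hC _
  · rw [indicator_of_notMem hy]
    have h0 : Kk p k (x - y) = 0 := by
      by_contra hne
      have h1 := norm_lt_of_Kk hne
      have h2 : (0 : ℝ) < (1 / 2 : ℝ) ^ k := by positivity
      refine hy ?_
      rw [mem_ball, dist_comm, dist_eq_norm]
      linarith
    rw [Kk] at h0
    rw [h0, zero_mul, norm_zero]

theorem W2q_mono {n : ℕ} {q : ℝ} {Ω Ω' : Set (Fin n → ℝ)} (hΩ : MeasurableSet Ω)
    (hΩ' : MeasurableSet Ω') (hsub : Ω' ⊆ Ω) {f : (Fin n → ℝ) → Fin n → ℝ}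
    {Df : (Fin n → ℝ) → Matrix (Fin n) (Fin n) ℝ} (h : SJ.W2q q Ω f Df) :
    SJ.W2q q Ω' f Df := by
  have _ := hΩ'
  have hm : volume.restrict Ω' ≤ volume.restrict Ω := Measure.restrict_mono hsub le_rfl
  intro a
  refine ⟨(h a).1.mono_measure hm, fun i => ?_⟩
  obtain ⟨h1, h2, h3⟩ := (h a).2 i
  refine ⟨h1.mono_measure hm, weak_mono hΩ hsub h2, fun j => ?_⟩
  obtain ⟨w, hw1, hw2⟩ := h3 j
  exact ⟨w, hw1.mono_measure hm, weak_mono hΩ hsub hw2⟩

end SN

end

section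

namespace SN
open Set Filter Topology MeasureTheory Metric Function
open scoped ENNReal Convolution

variable {p : ℕ}

namespace MoBX

/-- the bump at scale 2^(-k) -/
noncomputable def bk (p k : ℕ) : ContDiffBump (0 : W p) :=
  ⟨(1 / 2 : ℝ) ^ k / 2, (1 / 2 : ℝ) ^ k, by positivity,
    half_lt_self (by positivity)⟩

theorem bk_apply (k : ℕ) (z : W p) : bk p k z = bump p ((2 : ℝ) ^ k • z) := by
  rw [ContDiffBump.apply, ContDiffBump.apply]
  have h1 : (bk p k).rOut / (bk p k).rIn = (bump p).rOut / (bump p).rIn := by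
    simp only [bk, bump]
    have : (0 : ℝ) < (1 / 2 : ℝ) ^ k := by positivity
    field_simp
  have h2 : (bk p k).rIn⁻¹ • (z - 0) = (bump p).rIn⁻¹ • ((2 : ℝ) ^ k • z - 0) := by
    simp only [bk, bump, sub_zero, smul_smul]
    congr 1
    rw [one_div, inv_pow]
    have : (0 : ℝ) < (2 : ℝ) ^ k := by positivity
    field_simp
  rw [h1, h2]

theorem bk_normed (k : ℕ) (z : W p) : (bk p k).normed volume z =
    ((2 : ℝ) ^ k) ^ (p + 2) * (bump p).normed volume ((2 : ℝ) ^ k • z) := by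
  have h1 : ∫ x, bk p k x = (((2 : ℝ) ^ k) ^ (p + 2))⁻¹ * ∫ x, bump p x := by
    simp only [bk_apply]
    rw [Measure.integral_comp_smul (volume : Measure (W p)) (fun x => bump p x) ((2 : ℝ) ^ k)]
    simp only [Module.finrank_fintype_fun_eq_card, Fintype.card_fin, smul_eq_mul]
    rw [abs_of_nonneg (by positivity)]
  rw [ContDiffBump.normed_def, ContDiffBump.normed_def, h1, bk_apply]
  have : (0 : ℝ) < ((2 : ℝ) ^ k) ^ (p + 2) := by positivity
  have h2 : 0 < ∫ x, bump p x := (bump p).integral_pos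
  field_simp

theorem mo_eq (k : ℕ) (u : W p → ℝ) (x : W p) :
    mo k u x = ∫ y, (bk p k).normed volume (x - y) * u y := by
  simp only [mo, bk_normed]

theorem mo_conv (k : ℕ) (u : W p → ℝ) (x : W p) :
    mo k u x = ((bk p k).normed volume ⋆[ContinuousLinearMap.lsmul ℝ ℝ, volume] u) x := by
  rw [mo_eq, convolution_eq_swap]
  simp

theorem mo_eq' (k : ℕ) (u : W p → ℝ) (x : W p) :
    mo k u x = ∫ t, (bk p k).normed volume t * u (x - t) := by
  rw [mo_conv, convolution_def]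
  simp

theorem rOut_tendsto : Tendsto (fun k => (bk p k).rOut) atTop (𝓝 0) :=
  tendsto_pow_atTop_nhds_zero_of_lt_one (by norm_num) (by norm_num)

theorem int_mul (k : ℕ) {g : W p → ℝ} (hg : Continuous g) :
    Integrable (fun t => (bk p k).normed volume t * g t) volume :=
  ((bk p k).continuous_normed.mul hg).integrable_of_hasCompactSupport
    (bk p k).hasCompactSupport_normed.mul_right

theorem int_bound (k : ℕ) {g : W p → ℝ} {C : ℝ}
    (hg : ∀ t, ‖t‖ < (1 / 2 : ℝ) ^ k → |g t| ≤ C) :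
    |∫ t, (bk p k).normed volume t * g t| ≤ C := by
  have h1 : ∫ t, (bk p k).normed volume t * C = C := by
    rw [integral_mul_const, (bk p k).integral_normed, one_mul]
  rw [← h1, ← Real.norm_eq_abs]
  refine norm_integral_le_of_norm_le (int_mul k continuous_const) (Eventually.of_forall fun t => ?_)
  rw [Real.norm_eq_abs, abs_mul, abs_of_nonneg ((bk p k).nonneg_normed t)]
  by_cases ht : (bk p k).normed volume t = 0
  · simp [ht]
  · have h2 : t ∈ support ((bk p k).normed volume) := ht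
    rw [(bk p k).support_normed_eq, mem_ball_zero_iff] at h2
    exact mul_le_mul_of_nonneg_left (hg t h2) ((bk p k).nonneg_normed t)

theorem swap_int (k l : ℕ) {u : W p → ℝ} (hu : Integrable u volume) (x : W p) :
    mo k (mo l u) x = ∫ z, (∫ y, (bk p k).normed volume (x - y) *
      (bk p l).normed volume (y - z)) * u z := by
  have h1 : Integrable (fun y => (bk p k).normed volume (x - y)) volume :=
    (bk p k).integrable_normed.comp_sub_left x
  obtain ⟨C, hC⟩ := (bk p l).continuous_normed (μ := volume).bounded_above_of_compact_support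
    (bk p l).hasCompactSupport_normed
  have h2 : Integrable (fun q : W p × W p => (bk p l).normed volume (q.1 - q.2) *
      ((bk p k).normed volume (x - q.1) * u q.2)) ((volume : Measure (W p)).prod volume) := by
    refine Integrable.bdd_mul (c := C) (h1.mul_prod hu) ?_ (Eventually.of_forall fun q => hC _)
    exact ((bk p l).continuous_normed.comp (continuous_fst.sub continuous_snd)).aestronglyMeasurable
  have h3 := integral_integral_swap (f := fun y z => (bk p l).normed volume (y - z) *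
      ((bk p k).normed volume (x - y) * u z)) h2
  rw [mo_eq]
  simp only [mo_eq, ← integral_const_mul, ← integral_mul_const]
  refine Eq.trans ?_ (h3.trans ?_)
  · refine integral_congr_ae (Eventually.of_forall fun y => ?_)
    exact integral_congr_ae (Eventually.of_forall fun z => by ring)
  · refine integral_congr_ae (Eventually.of_forall fun y => ?_)
    exact integral_congr_ae (Eventually.of_forall fun z => by ring)

end MoBX
open MoBX

theorem mo_comm (k l : ℕ) {u : W p → ℝ} (hu : Integrable u volume) :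
    mo k (mo l u) = mo l (mo k u) := by
  funext x
  rw [swap_int k l hu, swap_int l k hu]
  congr 1
  funext z
  congr 1
  rw [← integral_sub_left_eq_self _ volume (x + z)]
  congr 1
  funext y
  have a : x - (x + z - y) = y - z := by abel
  have b : x + z - y - z = x - y := by abel
  rw [a, b, mul_comm]

theorem mo_sub_le1 (k : ℕ) {h : W p → ℝ} (hh : ContDiff ℝ 2 h) (x : W p) {M : ℝ}
    (hM : ∀ z ∈ closedBall x ((1 / 2 : ℝ) ^ k), ‖fderiv ℝ h z‖ ≤ M) :
    |mo k h x - h x| ≤ M * (1 / 2 : ℝ) ^ k := by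
  have hs : (0 : ℝ) < (1 / 2 : ℝ) ^ k := by positivity
  have hM0 : 0 ≤ M := (norm_nonneg _).trans (hM x (mem_closedBall_self hs.le))
  have hc : Continuous fun t => h (x - t) := hh.continuous.comp (continuous_const.sub continuous_id)
  have h1 : mo k h x - h x = ∫ t, (bk p k).normed volume t * (h (x - t) - h x) := by
    simp only [mul_sub]
    rw [integral_sub (int_mul k hc) (int_mul k continuous_const), integral_mul_const,
      (bk p k).integral_normed, one_mul, mo_eq']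
  rw [h1]
  refine int_bound k fun t ht => ?_
  have h2 : x - t ∈ closedBall x ((1 / 2 : ℝ) ^ k) := by
    rw [mem_closedBall, dist_eq_norm]; simpa using ht.le
  have h3 := (convex_closedBall x ((1 / 2 : ℝ) ^ k)).norm_image_sub_le_of_norm_fderiv_le
    (fun z _ => SJ.Calc1X.diff1 hh z) hM (mem_closedBall_self hs.le) h2
  rw [Real.norm_eq_abs] at h3
  refine h3.trans (mul_le_mul_of_nonneg_left ?_ hM0)
  simpa using ht.le

theorem mo_sub_le2 (k : ℕ) {h : W p → ℝ} (hh : ContDiff ℝ 2 h) (x : W p) {M : ℝ}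
    (hM : ∀ z ∈ closedBall x ((1 / 2 : ℝ) ^ k), ‖SJ.D2 h z‖ ≤ M) :
    |mo k h x - h x| ≤ M * ((1 / 2 : ℝ) ^ k) ^ 2 := by
  have hs : (0 : ℝ) < (1 / 2 : ℝ) ^ k := by positivity
  have hM0 : 0 ≤ M := (norm_nonneg (SJ.D2 h x)).trans (hM x (mem_closedBall_self hs.le))
  have hc : Continuous fun t => h (x - t) := hh.continuous.comp (continuous_const.sub continuous_id)
  have hodd : ∫ t, (bk p k).normed volume t * fderiv ℝ h x t = 0 := by
    have a := integral_neg_eq_self (fun t => (bk p k).normed volume t * fderiv ℝ h x t)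
      (volume : Measure (W p))
    simp only [ContDiffBump.normed_neg, map_neg, mul_neg, integral_neg] at a
    linarith
  have h1 : mo k h x - h x =
      ∫ t, (bk p k).normed volume t * (h (x - t) - h x + fderiv ℝ h x t) := by
    simp only [mul_sub, mul_add]
    have hi : Integrable (fun t => (bk p k).normed volume t * h (x - t) -
        (bk p k).normed volume t * h x) volume := (int_mul k hc).sub (int_mul k continuous_const)
    rw [integral_add hi (int_mul k (fderiv ℝ h x).continuous), hodd, add_zero,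
      integral_sub (int_mul k hc) (int_mul k continuous_const), integral_mul_const,
      (bk p k).integral_normed, one_mul, mo_eq']
  rw [h1]
  refine int_bound k fun t ht => ?_
  have h2 : x - t ∈ closedBall x ((1 / 2 : ℝ) ^ k) := by
    rw [mem_closedBall, dist_eq_norm]; simpa using ht.le
  have h4 : ∀ z ∈ closedBall x ((1 / 2 : ℝ) ^ k),
      ‖fderiv ℝ h z - fderiv ℝ h x‖ ≤ M * (1 / 2 : ℝ) ^ k := by
    intro z hz
    have h5 := (convex_closedBall x ((1 / 2 : ℝ) ^ k)).norm_image_sub_le_of_norm_fderiv_le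
      (f := fderiv ℝ h) (fun z _ => SJ.Calc1X.diff2 hh z) hM (mem_closedBall_self hs.le) hz
    refine h5.trans (mul_le_mul_of_nonneg_left ?_ hM0)
    rwa [mem_closedBall, dist_eq_norm] at hz
  have h3 := (convex_closedBall x ((1 / 2 : ℝ) ^ k)).norm_image_sub_le_of_norm_fderiv_le'
    (fun z _ => SJ.Calc1X.diff1 hh z) h4 (mem_closedBall_self hs.le) h2
  have h6 : h (x - t) - h x - fderiv ℝ h x (x - t - x) = h (x - t) - h x + fderiv ℝ h x t := by
    have : x - t - x = -t := by abel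
    rw [this, map_neg, sub_neg_eq_add]
  rw [h6, Real.norm_eq_abs] at h3
  refine h3.trans ?_
  rw [sq, ← mul_assoc]
  refine mul_le_mul_of_nonneg_left ?_ (by positivity)
  simpa using ht.le

theorem mo_tendsto {u : W p → ℝ} (hu : Integrable u volume) {x : W p} (hx : ContinuousAt u x) :
    Tendsto (fun k => mo k u x) atTop (𝓝 (u x)) := by
  simp only [mo_conv]
  exact ContDiffBump.convolution_tendsto_right (g := fun _ => u) (k := fun _ => x) rOut_tendsto
    (Eventually.of_forall fun _ => hu.aestronglyMeasurable) (hx.tendsto.comp tendsto_snd)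
    tendsto_const_nhds

theorem mo_ae_tendsto {u : W p → ℝ} (hu : Integrable u volume) :
    ∀ᵐ x ∂(volume : Measure (W p)), Tendsto (fun k => mo k u x) atTop (𝓝 (u x)) := by
  simp only [mo_conv]
  refine ContDiffBump.ae_convolution_tendsto_right_of_locallyIntegrable (K := 2) rOut_tendsto
    (Eventually.of_forall fun k => ?_) hu.locallyIntegrable
  simp only [bk]
  linarith

end SN

end

section

namespace SN
open Set Filter Topology MeasureTheory Metric Function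
open scoped ENNReal

variable {p : ℕ}

namespace MoCX

theorem expand {E : Type} [NormedAddCommGroup E] [NormedSpace ℝ E] (L : W p →L[ℝ] E) (v : W p) :
    L v = ∑ j, v j • L (Pi.single j 1) := by
  conv_lhs => rw [pi_eq_sum_univ' v]
  simp [map_sum]

theorem opn {E : Type} [NormedAddCommGroup E] [NormedSpace ℝ E] (L : W p →L[ℝ] E) {M : ℝ}
    (hM : 0 ≤ M) (h : ∀ j, ‖L (Pi.single j 1)‖ ≤ M) : ‖L‖ ≤ ((p : ℝ) + 2) * M := by
  refine L.opNorm_le_bound (by positivity) fun v => ?_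
  rw [expand]
  refine (norm_sum_le _ _).trans ((Finset.sum_le_card_nsmul _ _ (‖v‖ * M) fun j _ => ?_).trans ?_)
  · rw [norm_smul]
    exact mul_le_mul (norm_le_pi_norm v j) (h j) (norm_nonneg _) (norm_nonneg _)
  · simp only [Finset.card_univ, Fintype.card_fin, nsmul_eq_mul]
    push_cast
    exact le_of_eq (by ring)

theorem cont_toL : Continuous (toL (p := p)) :=
  ((LinearMap.toContinuousLinearMap (𝕜 := ℝ) (E := W p) (F' := W p)).toLinearMap ∘ₗ
    (Matrix.toLin' (R := ℝ) (m := Fin (p + 2)) (n := Fin (p + 2))).toLinearMap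
      ).continuous_of_finiteDimensional

theorem toL_single (M : Matrix (Fin (p + 2)) (Fin (p + 2)) ℝ) (a i : Fin (p + 2)) :
    toL M (Pi.single i 1) a = M a i := by
  simp [toL]

theorem fderiv_comp {F : W p → W p} (hF : ContDiff ℝ 2 F) (z v : W p) (a : Fin (p + 2)) :
    fderiv ℝ F z v a = fderiv ℝ (fun y => F y a) z v := by
  have h := (hasFDerivAt_pi'.1 (SJ.Calc1X.diff1 hF z).hasFDerivAt a).fderiv
  rw [h]
  rfl

theorem split1 (k : ℕ) {u : W p → ℝ} (hu : Integrable u volume) (z : W p) :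
    |mo k u z - mo (k + 1) u z| ≤
      |mo (k + 1) (mo k u) z - mo k u z| + |mo k (mo (k + 1) u) z - mo (k + 1) u z| := by
  rw [mo_comm (k + 1) k hu, abs_sub_comm _ (mo k u z)]
  exact abs_sub_le _ _ _

theorem half (k : ℕ) : (1 / 2 : ℝ) ^ (k + 1) ≤ (1 / 2 : ℝ) ^ k :=
  pow_le_pow_of_le_one (by norm_num) (by norm_num) k.le_succ

end MoCX

open MoCX

theorem exists_moll {q R : ℝ} (hq : 1 ≤ q) (hR : 0 < R) (x0 : W p) {f : W p → W p}
    {Df : W p → Matrix (Fin (p + 2)) (Fin (p + 2)) ℝ} (h : SJ.W2q q (ball x0 (4 * R)) f Df)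
    (hf : ContinuousOn f (ball x0 (4 * R))) :
    ∃ (k0 : ℕ) (C0 : ℝ) (g : W p → ℝ) (F : ℕ → W p → W p), (∀ y, 0 ≤ g y) ∧
      MemLp g (ENNReal.ofReal q) volume ∧
      Moll (ball x0 R) k0 C0 g f (fun y => toL (Df y)) F := by
  obtain ⟨Ω, hΩ⟩ : ∃ Ω, Ω = ball x0 (4 * R) := ⟨_, rfl⟩
  rw [← hΩ] at h hf
  have oΩ : IsOpen Ω := hΩ ▸ isOpen_ball
  have mΩ := oΩ.measurableSet
  have : IsFiniteMeasure (volume.restrict Ω) :=
    isFiniteMeasure_restrict.2 (hΩ ▸ measure_ball_lt_top.ne)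
  have hq' : 1 ≤ ENNReal.ofReal q := ENNReal.one_le_ofReal.2 hq
  choose w hw hw' using fun a i j => ((h a).2 i).2.2 j
  have i0 : ∀ a, IntegrableOn (fun x => f x a) Ω volume := fun a => (h a).1.integrable hq'
  have i1 : ∀ a i, IntegrableOn (fun x => Df x a i) Ω volume := fun a i =>
    ((h a).2 i).1.integrable hq'
  have i2 : ∀ a i j, IntegrableOn (w a i j) Ω volume := fun a i j => (hw a i j).integrable hq'
  have j0 := fun a => (integrable_indicator_iff mΩ).2 (i0 a)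
  have j1 := fun a i => (integrable_indicator_iff mΩ).2 (i1 a i)
  have j2 := fun a i j => (integrable_indicator_iff mΩ).2 (i2 a i j)
  obtain ⟨k0, hk0⟩ := exists_pow_lt_of_lt_one hR (show (1 / 2 : ℝ) < 1 by norm_num)
  have sk : ∀ k, k0 ≤ k → (1 / 2 : ℝ) ^ k < R := fun k hk =>
    (pow_le_pow_of_le_one (by norm_num) (by norm_num) hk).trans_lt hk0
  have sub : ∀ k, k0 ≤ k → ∀ z ∈ ball x0 (2 * R), closedBall z ((1 / 2 : ℝ) ^ k) ⊆ Ω := by
    intro k hk z hz
    rw [hΩ]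
    refine closedBall_subset_ball' ?_
    linarith [sk k hk, mem_ball.1 hz]
  have H1 := fun k hk z hz a i =>
    mo_fderiv k mΩ (i0 a) (i1 a i) ((h a).2 i).2.1 z (sub k hk z hz)
  have H2 := fun k hk z hz a i j =>
    mo_fderiv k mΩ (i1 a i) (i2 a i j) (hw' a i j) z (sub k hk z hz)
  generalize hu : (fun a => Ω.indicator fun x => f x a) = u
  generalize hU : (fun a i => Ω.indicator fun x => Df x a i) = U
  generalize hV : (fun a i j => Ω.indicator (w a i j)) = V
  have eu : ∀ a, (Ω.indicator fun x => f x a) = u a := fun a => congrFun hu a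
  have eU : ∀ a i, (Ω.indicator fun x => Df x a i) = U a i := fun a i =>
    congrFun (congrFun hU a) i
  have eV : ∀ a i j, Ω.indicator (w a i j) = V a i j := fun a i j =>
    congrFun (congrFun (congrFun hV a) i) j
  simp only [eu, eU, eV] at H1 H2 j0 j1 j2
  have H3 : ∀ k, k0 ≤ k → ∀ z ∈ ball x0 (2 * R), ∀ a i j,
      SJ.D2 (mo k (u a)) z (Pi.single j 1) (Pi.single i 1) = mo k (V a i j) z := by
    intro k hk z hz a i j
    have e : (fun x => fderiv ℝ (mo k (u a)) x (Pi.single i 1)) =ᶠ[𝓝 z] mo k (U a i) := by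
      filter_upwards [isOpen_ball.mem_nhds hz] with y hy using H1 k hk y hy a i
    rw [← H2 k hk z hz a i j, ← e.fderiv_eq,
      (SJ.Calc1X.has_eval (mo_contDiff k (j0 a)) z (Pi.single i 1)).fderiv]
    rfl
  obtain ⟨C, C0, hC⟩ := mo_abs_le p
  obtain ⟨g, hg⟩ : ∃ g : W p → ℝ, g = fun y => ∑ t : Fin (p + 2) × Fin (p + 2) × Fin (p + 2),
      |V t.1 t.2.1 t.2.2 y| := ⟨_, rfl⟩
  have g0 : ∀ y, 0 ≤ g y := fun y => hg ▸ Finset.sum_nonneg fun _ _ => abs_nonneg _
  have g1 : Integrable g volume := hg ▸ integrable_finsetSum _ fun t _ => (j2 _ _ _).abs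
  have g2 : ∀ a i j y, |V a i j y| ≤ g y := fun a i j y => hg ▸
    Finset.single_le_sum (f := fun t : Fin (p + 2) × Fin (p + 2) × Fin (p + 2) =>
      |V t.1 t.2.1 t.2.2 y|) (fun _ _ => abs_nonneg _) (Finset.mem_univ (a, i, j))
  obtain ⟨G, hG⟩ : ∃ G : ℕ → W p → ℝ, ∀ k z, G k z =
      ((2 : ℝ) ^ k) ^ (p + 2) * ∫ y in ball z (4 * (1 / 2 : ℝ) ^ k), g y := ⟨_, fun _ _ => rfl⟩
  have G0 : ∀ k z, 0 ≤ G k z := fun k z =>
    hG k z ▸ mul_nonneg (by positivity) (integral_nonneg g0)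
  have B0 : ∀ k l, l = k ∨ l = k + 1 → ∀ z, ∀ y ∈ closedBall z ((1 / 2 : ℝ) ^ k), ∀ a i j,
      |mo l (V a i j) y| ≤ C * 2 ^ (p + 2) * G k z := by
    intro k l hl z y hy a i j
    have s0 : (0 : ℝ) < (1 / 2 : ℝ) ^ k := by positivity
    have s1 : (1 / 2 : ℝ) ^ l ≤ (1 / 2 : ℝ) ^ k := by
      rcases hl with rfl | rfl
      exacts [le_rfl, half k]
    have s2 : ((2 : ℝ) ^ l) ^ (p + 2) ≤ 2 ^ (p + 2) * (2 ^ k) ^ (p + 2) := by
      rw [← mul_pow, ← pow_succ']
      exact pow_le_pow_left₀ (by positivity) (pow_le_pow_right₀ one_le_two (by omega)) _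
    have s3 : ∫ x in ball y (2 * (1 / 2 : ℝ) ^ l), |V a i j x| ≤
        ∫ x in ball z (4 * (1 / 2 : ℝ) ^ k), g x := by
      refine (integral_mono (j2 a i j).abs.integrableOn g1.integrableOn (g2 a i j)).trans ?_
      refine setIntegral_mono_set g1.integrableOn (Eventually.of_forall g0)
        (ball_subset_ball' ?_).eventuallyLE
      linarith [mem_closedBall.1 hy]
    refine (hC l _ y (j2 a i j)).trans ?_
    rw [hG, mul_assoc, mul_assoc, ← mul_assoc ((2 : ℝ) ^ (p + 2))]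
    exact mul_le_mul_of_nonneg_left (mul_le_mul s2 s3 (integral_nonneg fun _ => abs_nonneg _)
      (by positivity)) C0
  have M0 : ∀ k z, 0 ≤ C * 2 ^ (p + 2) * G k z := fun k z => mul_nonneg (by positivity) (G0 k z)
  have nb : ∀ k, k0 ≤ k → ∀ z ∈ ball x0 R, ∀ y ∈ closedBall z ((1 / 2 : ℝ) ^ k),
      y ∈ ball x0 (2 * R) := by
    intro k hk z hz
    refine closedBall_subset_ball' ?_
    linarith [sk k hk, mem_ball.1 hz]
  have B1 : ∀ k, k0 ≤ k → ∀ l, l = k ∨ l = k + 1 → ∀ z ∈ ball x0 R,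
      ∀ y ∈ closedBall z ((1 / 2 : ℝ) ^ k), ∀ a i,
      ‖fderiv ℝ (mo l (U a i)) y‖ ≤ ((p : ℝ) + 2) * (C * 2 ^ (p + 2) * G k z) := by
    intro k hk l hl z hz y hy a i
    refine opn _ (M0 k z) fun j => ?_
    rw [H2 l (by omega) y (nb k hk z hz y hy)]
    exact B0 k l hl z y hy a i j
  have B2 : ∀ k, k0 ≤ k → ∀ l, l = k ∨ l = k + 1 → ∀ z ∈ ball x0 R,
      ∀ y ∈ closedBall z ((1 / 2 : ℝ) ^ k), ∀ a,
      ‖SJ.D2 (mo l (u a)) y‖ ≤ ((p : ℝ) + 2) * (((p : ℝ) + 2) * (C * 2 ^ (p + 2) * G k z)) := by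
    intro k hk l hl z hz y hy a
    refine opn _ (mul_nonneg (by positivity) (M0 k z)) fun j => opn _ (M0 k z) fun i => ?_
    rw [H3 l (by omega) y (nb k hk z hz y hy)]
    exact B0 k l hl z y hy a i j
  have cd : ∀ k, ContDiff ℝ 2 fun z a => mo k (u a) z := fun k =>
    contDiff_pi.2 fun a => mo_contDiff k (j0 a)
  have ce : ∀ (k : ℕ) (z : W p), z ∈ closedBall z ((1 / 2 : ℝ) ^ k) := fun k z =>
    mem_closedBall_self (by positivity)
  have inΩ : ∀ z ∈ ball x0 R, z ∈ Ω := fun z hz => hΩ ▸ ball_subset_ball (by linarith) hz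
  refine ⟨k0, 2 * ((p : ℝ) + 2) ^ 2 * (C * 2 ^ (p + 2)), g, fun k z a => mo k (u a) z, g0, ?_,
    by positivity, cd, fun k hk z hz => ?_, fun k hk z hz => ?_, fun k hk z hz => ?_,
    fun z hz => ?_, ?_⟩
  · rw [hg]
    refine memLp_finsetSum _ fun t _ => MemLp.abs ?_
    rw [← eV]
    exact (memLp_indicator_iff_restrict mΩ).2 (hw _ _ _)
  · have : ‖SJ.D2 (fun z a => mo k (u a) z) z‖ ≤
        ((p : ℝ) + 2) * (((p : ℝ) + 2) * (C * 2 ^ (p + 2) * G k z)) := by
      refine opn _ (mul_nonneg (by positivity) (M0 k z)) fun j => opn _ (M0 k z) fun i => ?_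
      refine (pi_norm_le_iff_of_nonneg (M0 k z)).2 fun a => ?_
      have e := SJ.D2_clm_comp (ContinuousLinearMap.proj (R := ℝ) (φ := fun _ => ℝ) a) (cd k) z
        (Pi.single j 1) (Pi.single i 1)
      have e' : SJ.D2 (fun z a => mo k (u a) z) z (Pi.single j 1) (Pi.single i 1) a =
          mo k (V a i j) z := e.symm.trans (H3 k hk z (nb k hk z hz z (ce k z)) a i j)
      rw [e']
      exact B0 k k (Or.inl rfl) z z (ce k z) a i j
    rw [mul_assoc, ← hG]
    nlinarith [mul_nonneg (sq_nonneg ((p : ℝ) + 2)) (M0 k z)]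
  · rw [← hG]
    have n0 : 0 ≤ ((p : ℝ) + 2) * (C * 2 ^ (p + 2) * G k z) := mul_nonneg (by positivity) (M0 k z)
    have m0 : 0 ≤ 2 * (((p : ℝ) + 2) * (C * 2 ^ (p + 2) * G k z) * (1 / 2 : ℝ) ^ k) := by
      positivity
    refine (opn _ m0 fun i => (pi_norm_le_iff_of_nonneg m0).2 fun a => ?_).trans
      (le_of_eq (by ring))
    have zz := nb k hk z hz z (ce k z)
    rw [_root_.sub_apply, Pi.sub_apply, fderiv_comp (cd k), fderiv_comp (cd (k + 1)),
      H1 k hk z zz, H1 (k + 1) (by omega) z zz]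
    have h1 := mo_sub_le1 (k + 1) (mo_contDiff k (j1 a i)) z fun y hy =>
      B1 k hk k (Or.inl rfl) z hz y (closedBall_subset_closedBall (half k) hy) a i
    have h2 := mo_sub_le1 k (mo_contDiff (k + 1) (j1 a i)) z fun y hy =>
      B1 k hk (k + 1) (Or.inr rfl) z hz y hy a i
    have h3 := mul_le_mul_of_nonneg_left (half k) n0
    have h4 := split1 k (j1 a i) z
    rw [Real.norm_eq_abs]
    linarith
  · rw [← hG]
    have n0 : 0 ≤ ((p : ℝ) + 2) * (((p : ℝ) + 2) * (C * 2 ^ (p + 2) * G k z)) :=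
      mul_nonneg (by positivity) (mul_nonneg (by positivity) (M0 k z))
    have m0 : 0 ≤ 2 * (((p : ℝ) + 2) * (((p : ℝ) + 2) * (C * 2 ^ (p + 2) * G k z)) *
        ((1 / 2 : ℝ) ^ k) ^ 2) := by positivity
    refine ((pi_norm_le_iff_of_nonneg m0).2 fun a => ?_).trans (le_of_eq (by ring))
    have h1 := mo_sub_le2 (k + 1) (mo_contDiff k (j0 a)) z fun y hy =>
      B2 k hk k (Or.inl rfl) z hz y (closedBall_subset_closedBall (half k) hy) a
    have h2 := mo_sub_le2 k (mo_contDiff (k + 1) (j0 a)) z fun y hy =>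
      B2 k hk (k + 1) (Or.inr rfl) z hz y hy a
    have h3 := mul_le_mul_of_nonneg_left (pow_le_pow_left₀ (by positivity) (half k) 2) n0
    have h4 := split1 k (j0 a) z
    rw [Real.norm_eq_abs, Pi.sub_apply]
    linarith
  · refine tendsto_pi_nhds.2 fun a => ?_
    have e : u a =ᶠ[𝓝 z] fun x => f x a := by
      filter_upwards [oΩ.mem_nhds (inΩ z hz)] with y hy
      rw [← eu, indicator_of_mem hy]
    rw [← e.eq_of_nhds]
    exact mo_tendsto (j0 a) (((continuous_apply a).continuousAt.comp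
      (hf.continuousAt (oΩ.mem_nhds (inΩ z hz)))).congr e.symm)
  · have h1 : ∀ᵐ z ∂(volume : Measure (W p)), ∀ a i,
        Tendsto (fun k => mo k (U a i) z) atTop (𝓝 (U a i z)) :=
      ae_all_iff.2 fun a => ae_all_iff.2 fun i => mo_ae_tendsto (j1 a i)
    filter_upwards [ae_restrict_of_ae h1, ae_restrict_mem measurableSet_ball] with z h2 hz
    have h3 : Tendsto (fun k => (Matrix.of fun a i => mo k (U a i) z)) atTop (𝓝 (Df z)) := by
      refine tendsto_pi_nhds.2 fun a => tendsto_pi_nhds.2 fun i => ?_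
      have e : U a i z = Df z a i := by rw [← eU, indicator_of_mem (inΩ z hz)]
      exact e ▸ h2 a i
    refine ((cont_toL.tendsto _).comp h3).congr' ?_
    filter_upwards [eventually_ge_atTop k0] with k hk
    ext v a
    rw [expand, expand (fderiv ℝ _ z)]
    simp only [Finset.sum_apply, Pi.smul_apply, Function.comp_apply, toL_single, fderiv_comp (cd k),
      H1 k hk z (nb k hk z hz z (ce k z)), Matrix.of_apply]

end SN

end

section

namespace SN
open Set Filter Topology MeasureTheory Metric Function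
open scoped ENNReal

namespace MS2X

/-- grid index at level k -/
noncomputable def idx (k : ℕ) (u : ℝ × ℝ) : ℤ × ℤ := (⌊u.1 * 2 ^ k⌋, ⌊u.2 * 2 ^ k⌋)

/-- grid cell -/
def cell (k : ℕ) (z : ℤ × ℤ) : Set (ℝ × ℝ) := idx k ⁻¹' {z}

theorem measurable_idx (k : ℕ) : Measurable (idx k) := by
  unfold idx
  exact (Int.measurable_floor.comp (measurable_fst.mul_const _)).prodMk
    (Int.measurable_floor.comp (measurable_snd.mul_const _))

theorem meas_cell (k : ℕ) (z : ℤ × ℤ) : MeasurableSet (cell k z) :=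
  measurable_idx k (measurableSet_singleton z)

theorem tsum_cell (μ : Measure (ℝ × ℝ)) (k : ℕ) : ∑' z, μ (cell k z) = μ univ := by
  rw [← measure_iUnion _ (meas_cell k)]
  · congr 1
    ext u
    simp [cell]
  · intro z z' hz
    refine Set.disjoint_left.2 fun u h1 h2 => hz ?_
    simp only [cell, mem_preimage, mem_singleton_iff] at h1 h2
    rw [← h1, ← h2]

theorem tsum_cell_inter (μ : Measure (ℝ × ℝ)) (k : ℕ) (T : Set (ℝ × ℝ)) :
    ∑' z, μ (cell k z ∩ T) = μ T := by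
  have := tsum_cell (μ.restrict T) k
  simp only [Measure.restrict_apply (meas_cell k _), Measure.restrict_apply MeasurableSet.univ,
    univ_inter] at this
  exact this

theorem floor_set (k : ℕ) (a : ℤ) :
    {t : ℝ | ⌊t * 2 ^ k⌋ = a} = Ico (a * (1 / 2 : ℝ) ^ k) ((a + 1) * (1 / 2 : ℝ) ^ k) := by
  ext t
  have h2 : (0 : ℝ) < 2 ^ k := by positivity
  simp only [mem_ofPred_eq, Int.floor_eq_iff, mem_Ico, one_div, inv_pow, ← div_eq_mul_inv,
    div_le_iff₀ h2, lt_div_iff₀ h2]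

theorem vol_cell (k : ℕ) (z : ℤ × ℤ) :
    volume (cell k z) = ENNReal.ofReal (((1 / 2 : ℝ) ^ k) ^ 2) := by
  have : cell k z = {t : ℝ | ⌊t * 2 ^ k⌋ = z.1} ×ˢ {t : ℝ | ⌊t * 2 ^ k⌋ = z.2} := by
    ext u
    simp [cell, idx, Prod.ext_iff]
  rw [this, Measure.volume_eq_prod, Measure.prod_prod, floor_set, floor_set, Real.volume_Ico,
    Real.volume_Ico, ← ENNReal.ofReal_mul (by have : (0:ℝ) < (1 / 2 : ℝ) ^ k := by positivity
                                              nlinarith)]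
  congr 1
  ring

theorem near1 (k : ℕ) (t t' : ℝ) (d : ℤ) (h : |⌊t * 2 ^ k⌋ - ⌊t' * 2 ^ k⌋| ≤ d) :
    |t - t'| ≤ (d + 1) * (1 / 2 : ℝ) ^ k := by
  have h2 : (0 : ℝ) < 2 ^ k := by positivity
  have a1 := Int.floor_le (t * 2 ^ k)
  have a2 := Int.lt_floor_add_one (t * 2 ^ k)
  have b1 := Int.floor_le (t' * 2 ^ k)
  have b2 := Int.lt_floor_add_one (t' * 2 ^ k)
  have h' : |(⌊t * 2 ^ k⌋ : ℝ) - ⌊t' * 2 ^ k⌋| ≤ d := by exact_mod_cast h
  rw [abs_le] at h'
  rw [one_div, inv_pow, ← div_eq_mul_inv, le_div_iff₀ h2, ← abs_of_pos h2, ← abs_mul,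
    abs_le]
  constructor <;> nlinarith

theorem near2 (k : ℕ) (u u' : ℝ × ℝ) (d : ℤ) (h1 : |(idx k u).1 - (idx k u').1| ≤ d)
    (h2 : |(idx k u).2 - (idx k u').2| ≤ d) : ‖u - u'‖ ≤ (d + 1) * (1 / 2 : ℝ) ^ k := by
  rw [Prod.norm_def]
  exact max_le (near1 k _ _ d h1) (near1 k _ _ d h2)

theorem far1 (k : ℕ) (t t' c : ℝ) (h : |t - t'| < c * (1 / 2 : ℝ) ^ k) :
    |⌊t * 2 ^ k⌋ - ⌊t' * 2 ^ k⌋| ≤ (⌈c⌉₊ : ℤ) + 1 := by
  have h2 : (0 : ℝ) < 2 ^ k := by positivity
  have a1 := Int.floor_le (t * 2 ^ k)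
  have a2 := Int.lt_floor_add_one (t * 2 ^ k)
  have b1 := Int.floor_le (t' * 2 ^ k)
  have b2 := Int.lt_floor_add_one (t' * 2 ^ k)
  have hc := Nat.le_ceil c
  rw [one_div, inv_pow, ← div_eq_mul_inv, lt_div_iff₀ h2, ← abs_of_pos h2, ← abs_mul,
    abs_lt] at h
  have : |(⌊t * 2 ^ k⌋ : ℝ) - ⌊t' * 2 ^ k⌋| ≤ (⌈c⌉₊ : ℝ) + 1 := by
    rw [abs_le]
    constructor <;> nlinarith
  exact_mod_cast this

/-- index window -/
noncomputable def win (n : ℕ) : Finset (ℤ × ℤ) := Finset.Icc (-(n : ℤ)) n ×ˢ Finset.Icc (-(n : ℤ)) n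

/-- enlarged cell -/
def big (n k : ℕ) (z : ℤ × ℤ) : Set (ℝ × ℝ) := ⋃ y ∈ win n, cell k (z + y)

theorem tsum_big (μ : Measure (ℝ × ℝ)) (n k : ℕ) :
    ∑' z, μ (big n k z) ≤ (win n).card * μ univ := by
  calc ∑' z, μ (big n k z) ≤ ∑' z, ∑ y ∈ win n, μ (cell k (z + y)) :=
        ENNReal.tsum_le_tsum fun z => measure_biUnion_finset_le _ _
    _ = ∑ y ∈ win n, ∑' z, μ (cell k (z + y)) := by
        rw [Summable.tsum_finsetSum fun _ _ => ENNReal.summable]
    _ = ∑ y ∈ win n, μ univ := by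
        refine Finset.sum_congr rfl fun y _ => ?_
        rw [← tsum_cell μ k]
        exact (Equiv.addRight y).tsum_eq fun z => μ (cell k z)
    _ = _ := by simp

theorem ball_sub_big {c r : ℝ} {k : ℕ} {z : ℤ × ℤ} {u : ℝ × ℝ} (hu : u ∈ cell k z)
    (hr : r ≤ c * (1 / 2 : ℝ) ^ k) : ball u r ⊆ big (⌈c⌉₊ + 1) k z := by
  intro v hv
  rw [mem_ball, dist_eq_norm, Prod.norm_def, max_lt_iff] at hv
  have h1 := far1 k v.1 u.1 c (hv.1.trans_le hr)
  have h2 := far1 k v.2 u.2 c (hv.2.trans_le hr)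
  have hz : idx k u = z := hu
  simp only [big, mem_iUnion]
  refine ⟨idx k v - z, ?_, by simp [cell]⟩
  rw [← hz]
  rw [abs_le] at h1 h2
  simp only [win, idx, Finset.mem_product, Finset.mem_Icc, Prod.fst_sub, Prod.snd_sub]
  push_cast
  exact ⟨h1, h2⟩

/-- z' is a level k+j subcell of the level k cell z -/
def Sub (j : ℕ) (z z' : ℤ × ℤ) : Prop :=
  (2 ^ j * z.1 ≤ z'.1 ∧ z'.1 < 2 ^ j * z.1 + 2 ^ j) ∧ (2 ^ j * z.2 ≤ z'.2 ∧ z'.2 < 2 ^ j * z.2 + 2 ^ j)

theorem sub1 (k j : ℕ) (t : ℝ) (a : ℤ) : ⌊t * 2 ^ k⌋ = a ↔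
    (2 ^ j * a ≤ ⌊t * 2 ^ (k + j)⌋ ∧ ⌊t * 2 ^ (k + j)⌋ < 2 ^ j * a + 2 ^ j) := by
  have h2 : (0 : ℝ) < 2 ^ j := by positivity
  rw [Int.floor_eq_iff, Int.le_floor, Int.floor_lt]
  push_cast
  rw [pow_add, ← mul_assoc]
  constructor
  · rintro ⟨h1, h3⟩
    constructor <;> nlinarith
  · rintro ⟨h1, h3⟩
    constructor
    · by_contra hh
      push Not at hh
      nlinarith
    · by_contra hh
      push Not at hh
      nlinarith

theorem mem_cell_iff (k j : ℕ) (z : ℤ × ℤ) (u : ℝ × ℝ) :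
    u ∈ cell k z ↔ Sub j z (idx (k + j) u) := by
  simp only [cell, mem_preimage, mem_singleton_iff, idx, Prod.ext_iff, Sub]
  rw [sub1 k j, sub1 k j]

theorem mid (a a' A B d : ℤ) (h : |a - a'| ≤ d + 2) (hd : 0 ≤ d) (h1 : A ≤ a ∧ a < B)
    (h2 : A ≤ a' ∧ a' < B) : ∃ a'', |a - a''| ≤ d + 1 ∧ |a'' - a'| ≤ 1 ∧ A ≤ a'' ∧ a'' < B := by
  rw [abs_le] at h
  rcases lt_trichotomy a a' with h3 | h3 | h3
  · exact ⟨a' - 1, by rw [abs_le]; omega, by rw [abs_le]; omega, by omega, by omega⟩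
  · exact ⟨a', by rw [abs_le]; omega, by rw [abs_le]; omega, by omega, by omega⟩
  · exact ⟨a' + 1, by rw [abs_le]; omega, by rw [abs_le]; omega, by omega, by omega⟩

theorem chain {X : Type*} (K : Set X) (I : X → ℤ × ℤ) (F : X → ℝ) (j : ℕ) (z : ℤ × ℤ) {δ : ℝ}
    (hd : ∀ z', Sub j z z' → ∃ u ∈ K, I u = z')
    (hs : ∀ u ∈ K, ∀ u' ∈ K, Sub j z (I u) → Sub j z (I u') → |(I u).1 - (I u').1| ≤ 1 →
      |(I u).2 - (I u').2| ≤ 1 → |F u - F u'| ≤ δ) (d : ℕ) :
    ∀ u ∈ K, ∀ u' ∈ K, Sub j z (I u) → Sub j z (I u') → |(I u).1 - (I u').1| ≤ d + 1 →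
      |(I u).2 - (I u').2| ≤ d + 1 → |F u - F u'| ≤ (d + 1) * δ := by
  induction d with
  | zero => 
    intro u hu u' hu' s1 s2 a1 a2
    simpa using hs u hu u' hu' s1 s2 (by simpa using a1) (by simpa using a2)
  | succ d ih =>
    intro u hu u' hu' s1 s2 a1 a2
    obtain ⟨x, x1, x2, x3⟩ := mid _ _ _ _ d (by push_cast at a1; linarith) (by positivity) s1.1 s2.1
    obtain ⟨y, y1, y2, y3⟩ := mid _ _ _ _ d (by push_cast at a2; linarith) (by positivity) s1.2 s2.2
    have hsub : Sub j z (x, y) := ⟨x3, y3⟩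
    obtain ⟨w, hw, hI⟩ := hd _ hsub
    have e1 := ih u hu w hw s1 (hI ▸ hsub) (by rw [hI]; exact x1) (by rw [hI]; exact y1)
    have e2 := hs w hw u' hu' (hI ▸ hsub) s2 (by rw [hI]; exact x2) (by rw [hI]; exact y2)
    have := abs_sub_le (F u) (F w) (F u')
    push_cast
    linarith

theorem young {x L q : ℝ} (hx : 0 ≤ x) (hL : 0 < L) (hq : 1 < q) :
    x ^ (1 / q) ≤ L + L ^ (1 - q) * x := by
  have hq0 : 0 < q := by linarith
  have hp : 0 ≤ L ^ (1 - q) * x := by positivity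
  rcases le_or_gt (x ^ (1 / q)) L with h | h
  · linarith
  · set y := x ^ (1 / q) with hy
    have hy0 : 0 < y := hL.trans h
    have hxy : x = y * y ^ (q - 1) := by
      have : y ^ q = x := by
        rw [hy, ← Real.rpow_mul hx, one_div_mul_cancel hq0.ne', Real.rpow_one]
      rw [← this]
      conv_lhs => rw [show q = 1 + (q - 1) by ring, Real.rpow_add hy0, Real.rpow_one]
    have h1 : L ^ (q - 1) ≤ y ^ (q - 1) := Real.rpow_le_rpow hL.le h.le (by linarith)
    have h2 : L ^ (1 - q) * L ^ (q - 1) = 1 := by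
      rw [← Real.rpow_add hL]; simp
    have h3 : 0 < L ^ (1 - q) := by positivity
    have : y ≤ L ^ (1 - q) * x := by
      rw [hxy]
      calc y = y * (L ^ (1 - q) * L ^ (q - 1)) := by rw [h2, mul_one]
        _ ≤ y * (L ^ (1 - q) * y ^ (q - 1)) := by gcongr
        _ = _ := by ring
    linarith

theorem vol_image {X : Type*} (S : Set X) (F : X → ℝ) {d : ℝ}
    (h : ∀ u ∈ S, ∀ u' ∈ S, |F u - F u'| ≤ d) : volume (F '' S) ≤ ENNReal.ofReal (2 * d) := by
  rcases S.eq_empty_or_nonempty with rfl | ⟨u0, hu0⟩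
  · simp
  · rw [← Real.volume_closedBall (F u0)]
    refine measure_mono ?_
    rintro _ ⟨u, hu, rfl⟩
    exact h u hu u0 hu0

theorem scale {θ q N s : ℝ} (hN : 0 ≤ N) (hs : 0 < s) (j : ℕ) :
    (2 : ℝ) ^ j * (θ ^ j * (s * (1 / 2 : ℝ) ^ j) ^ 2 * (N / (s * (1 / 2 : ℝ) ^ j) ^ 2) ^ (1 / q)) =
      (θ * (2 : ℝ) ^ (2 / q) / 2) ^ j * (s ^ 2 * (N / s ^ 2) ^ (1 / q)) := by
  have e1 : N / (s * (1 / 2 : ℝ) ^ j) ^ 2 = N / s ^ 2 * ((2 : ℝ) ^ (2 : ℝ)) ^ j := by
    have : ((2 : ℝ) ^ (2 : ℝ)) ^ j = (2 ^ j) ^ 2 := by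
      rw [Real.rpow_two, ← pow_mul, ← pow_mul, mul_comm]
    rw [this]
    simp only [one_div, inv_pow]
    field_simp
  have e2 : (((2 : ℝ) ^ (2 : ℝ)) ^ j) ^ (1 / q) = ((2 : ℝ) ^ (2 / q)) ^ j := by
    rw [← Real.rpow_natCast, ← Real.rpow_natCast, ← Real.rpow_mul (by positivity),
      ← Real.rpow_mul (by positivity), ← Real.rpow_mul (by positivity)]
    congr 1
    ring
  rw [e1, Real.mul_rpow (by positivity) (by positivity), e2]
  simp only [one_div, inv_pow, mul_pow, div_pow]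
  field_simp

theorem one_cell {K : Set (ℝ × ℝ)} (hK : IsCompact K) (F : ℝ × ℝ → ℝ) {q θ c C : ℝ} (hq : 1 < q)
    (hθ0 : 0 ≤ θ) (hc : 0 < c) (hC : 0 ≤ C) (m : Measure (ℝ × ℝ)) (hm : m univ ≠ ∞) (k : ℕ)
    (h : ∀ j : ℕ, ∀ u ∈ K, ∀ u' ∈ K, ‖u - u'‖ ≤ 2 * (1 / 2 : ℝ) ^ (k + j) →
      ∀ N : ℝ, 0 ≤ N → m (ball u (c * (1 / 2 : ℝ) ^ (k + j))) ≤ ENNReal.ofReal N →
        |F u - F u'| ≤ C * θ ^ j * ((1 / 2 : ℝ) ^ (k + j)) ^ 2 *
          (N / ((1 / 2 : ℝ) ^ (k + j)) ^ 2) ^ (1 / q)) (j : ℕ) {L : ℝ} (hL : 0 < L) (z : ℤ × ℤ) :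
    volume (F '' (K ∩ cell k z)) ≤
      ENNReal.ofReal (2 * C * (θ * (2 : ℝ) ^ (2 / q) / 2) ^ j) *
          volume (cell k z ∩ cthickening 1 K) +
        ENNReal.ofReal (2 * C * L * 4 ^ j) *
          volume (cell k z ∩ (cthickening ((1 / 2 : ℝ) ^ k) K \ K)) +
        ENNReal.ofReal (2 * C * (θ * (2 : ℝ) ^ (2 / q) / 2) ^ j + 2 * C * L ^ (1 - q)) *
          m (big (⌈c⌉₊ + 1) k z) := by
  rcases (K ∩ cell k z).eq_empty_or_nonempty with he | ⟨u0, hu0K, hu0⟩
  · simp [he]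
  set κ := θ * (2 : ℝ) ^ (2 / q) / 2 with hκ
  have hκ0 : 0 ≤ κ := by positivity
  set s := (1 / 2 : ℝ) ^ k with hs
  have hs0 : 0 < s := by positivity
  have hs1 : s ≤ 1 := pow_le_one₀ (by norm_num) (by norm_num)
  have hfin : m (big (⌈c⌉₊ + 1) k z) ≠ ∞ := ne_top_of_le_ne_top hm (measure_mono (subset_univ _))
  set N := (m (big (⌈c⌉₊ + 1) k z)).toReal with hN
  have hN0 : 0 ≤ N := ENNReal.toReal_nonneg
  have hNe : m (big (⌈c⌉₊ + 1) k z) = ENNReal.ofReal N := (ENNReal.ofReal_toReal hfin).symm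
  have hball : ∀ i : ℕ, ∀ u ∈ cell k z, m (ball u (c * (1 / 2 : ℝ) ^ (k + i))) ≤ ENNReal.ofReal N := by
    intro i u hu
    rw [← hNe]
    refine measure_mono (ball_sub_big hu ?_)
    have : (1 / 2 : ℝ) ^ (k + i) ≤ (1 / 2 : ℝ) ^ k :=
      pow_le_pow_of_le_one (by norm_num) (by norm_num) (by omega)
    exact mul_le_mul_of_nonneg_left this hc.le
  have hnear : ∀ u ∈ cell k z, ∀ u' ∈ cell k z, ‖u - u'‖ ≤ s := by
    intro u hu u' hu'
    have e1 : idx k u = z := hu
    have e2 : idx k u' = z := hu'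
    simpa [hs] using near2 k u u' 0 (by simp [e1, e2]) (by simp [e1, e2])
  have hth : ∀ r, s ≤ r → cell k z ⊆ cthickening r K := fun r hr u hu =>
    mem_cthickening_of_dist_le u u0 r K hu0K ((dist_eq_norm u u0).trans_le
      ((hnear u hu u0 hu0).trans hr))
  have hLq : 0 < L ^ (1 - q) := by positivity
  rw [hNe]
  by_cases hd : ∀ z', Sub j z z' → ∃ u ∈ K, idx (k + j) u = z'
  · have key := chain K (idx (k + j)) F j z (δ := C * θ ^ j * ((1 / 2 : ℝ) ^ (k + j)) ^ 2 *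
          (N / ((1 / 2 : ℝ) ^ (k + j)) ^ 2) ^ (1 / q)) hd (fun u hu u' hu' s1 s2 a1 a2 =>
        h j u hu u' hu' (by simpa [one_add_one_eq_two] using near2 (k + j) u u' 1 a1 a2) N hN0
          (hball j u ((mem_cell_iff k j z u).2 s1))) (2 ^ j - 1)
    have hcast : ((2 ^ j - 1 : ℕ) : ℤ) + 1 = 2 ^ j := by
      have : 1 ≤ 2 ^ j := Nat.one_le_two_pow
      push_cast [this]
      ring
    have hcast' : ((2 ^ j - 1 : ℕ) : ℝ) + 1 = 2 ^ j := by exact_mod_cast hcast
    have hb : ∀ u ∈ K ∩ cell k z, ∀ u' ∈ K ∩ cell k z, |F u - F u'| ≤ C * κ ^ j * (s ^ 2 + N) := by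
      intro u hu u' hu'
      have s1 := (mem_cell_iff k j z u).1 hu.2
      have s2 := (mem_cell_iff k j z u').1 hu'.2
      have := key u hu.1 u' hu'.1 s1 s2
        (by rw [hcast, abs_le]; have := s1.1; have := s2.1; omega)
        (by rw [hcast, abs_le]; have := s1.2; have := s2.2; omega)
      rw [hcast', pow_add (1 / 2 : ℝ), ← hs] at this
      have e := scale (θ := θ) (q := q) hN0 hs0 j
      have y := young (x := N / s ^ 2) (by positivity) one_pos hq
      rw [Real.one_rpow, one_mul] at y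
      have y2 : s ^ 2 * (N / s ^ 2) ^ (1 / q) ≤ s ^ 2 + N := by
        calc _ ≤ s ^ 2 * (1 + N / s ^ 2) := by gcongr
          _ = _ := by field_simp
      calc _ ≤ _ := this
        _ = C * (κ ^ j * (s ^ 2 * (N / s ^ 2) ^ (1 / q))) := by rw [← e]; ring
        _ ≤ C * (κ ^ j * (s ^ 2 + N)) := by gcongr
        _ = _ := by ring
    refine (vol_image _ F hb).trans ?_
    rw [inter_eq_left.2 (hth 1 hs1), vol_cell, ← hs, add_right_comm,
      ← ENNReal.ofReal_mul (by positivity), ← ENNReal.ofReal_mul (by positivity),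
      ← ENNReal.ofReal_add (by positivity) (by positivity)]
    refine le_add_right (ENNReal.ofReal_le_ofReal ?_)
    have : 0 ≤ C * L ^ (1 - q) * N := by positivity
    nlinarith
  · push Not at hd
    obtain ⟨z', hz', hK'⟩ := hd
    have hb : ∀ u ∈ K ∩ cell k z, ∀ u' ∈ K ∩ cell k z,
        |F u - F u'| ≤ C * (L * s ^ 2 + L ^ (1 - q) * N) := by
      intro u hu u' hu'
      have := h 0 u hu.1 u' hu'.1 (by have := hnear u hu.2 u' hu'.2; simp only [add_zero]; linarith)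
        N hN0 (hball 0 u hu.2)
      simp only [add_zero, pow_zero, mul_one] at this
      rw [← hs] at this
      have y := young (x := N / s ^ 2) (by positivity) hL hq
      calc _ ≤ _ := this
        _ ≤ C * s ^ 2 * (L + L ^ (1 - q) * (N / s ^ 2)) := by gcongr
        _ = _ := by field_simp
    refine (vol_image _ F hb).trans ?_
    have hsub : cell (k + j) z' ⊆ cell k z ∩ (cthickening s K \ K) := by
      intro u hu
      have e : idx (k + j) u = z' := hu
      have h1 : u ∈ cell k z := (mem_cell_iff k j z u).2 (e ▸ hz')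
      exact ⟨h1, hth s le_rfl h1, fun hk => hK' u hk e⟩
    have hv := measure_mono (μ := volume) hsub
    rw [vol_cell, pow_add (1 / 2 : ℝ), ← hs] at hv
    rw [add_assoc]
    refine le_add_left (le_trans ?_ (add_le_add_left (mul_le_mul_right hv _) _))
    rw [← ENNReal.ofReal_mul (by positivity), ← ENNReal.ofReal_mul (by positivity),
      ← ENNReal.ofReal_add (by positivity) (by positivity)]
    refine ENNReal.ofReal_le_ofReal ?_
    have e4 : (4 : ℝ) ^ j * ((1 / 2 : ℝ) ^ j) ^ 2 = 1 := by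
      rw [← pow_mul, mul_comm j 2, pow_mul, ← mul_pow]; norm_num
    have : 0 ≤ C * κ ^ j * N := by positivity
    have e5 : 2 * C * L * 4 ^ j * (s * (1 / 2) ^ j) ^ 2 = 2 * C * L * s ^ 2 := by
      rw [mul_pow s]
      linear_combination (2 * C * L * s ^ 2) * e4
    rw [e5]
    nlinarith

end MS2X

open MS2X in
theorem ms2d {K : Set (ℝ × ℝ)} (hK : IsCompact K) (F : ℝ × ℝ → ℝ) {q θ c C M : ℝ} (hq : 1 < q)
    (hθ0 : 0 ≤ θ) (hθ : θ * (2 : ℝ) ^ (2 / q) < 2) (hc : 0 < c) (hC : 0 ≤ C)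
    (m : ℕ → Measure (ℝ × ℝ)) (hM : ∃ᶠ k : ℕ in atTop, m k univ ≤ ENNReal.ofReal M) (k0 : ℕ)
    (h : ∀ k : ℕ, k0 ≤ k → ∀ j : ℕ, ∀ u ∈ K, ∀ u' ∈ K, ‖u - u'‖ ≤ 2 * (1 / 2 : ℝ) ^ (k + j) →
      ∀ N : ℝ, 0 ≤ N → m k (ball u (c * (1 / 2 : ℝ) ^ (k + j))) ≤ ENNReal.ofReal N →
        |F u - F u'| ≤ C * θ ^ j * ((1 / 2 : ℝ) ^ (k + j)) ^ 2 *
          (N / ((1 / 2 : ℝ) ^ (k + j)) ^ 2) ^ (1 / q)) :
    volume (F '' K) = 0 := by
  set κ := θ * (2 : ℝ) ^ (2 / q) / 2 with hκ
  have hκ0 : 0 ≤ κ := by positivity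
  have hκ1 : κ < 1 := by rw [hκ]; linarith
  set V1 := volume (cthickening 1 K) with hV1
  have hV1f : V1 ≠ ∞ := (hK.cthickening (r := 1)).measure_lt_top.ne
  set D : ℝ≥0∞ := (win (⌈c⌉₊ + 1)).card * ENNReal.ofReal M with hD
  have hDf : D ≠ ∞ := ENNReal.mul_ne_top (ENNReal.natCast_ne_top _) ENNReal.ofReal_ne_top
  have hT : Tendsto (fun k : ℕ => volume (cthickening ((1 / 2 : ℝ) ^ k) K \ K)) atTop (𝓝 0) := by
    have h1 := (tendsto_measure_cthickening_of_isCompact (μ := volume) hK).comp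
      (tendsto_pow_atTop_nhds_zero_of_lt_one (r := (1 / 2 : ℝ)) (by norm_num) (by norm_num))
    have h2 := ENNReal.Tendsto.sub h1 (tendsto_const_nhds (x := volume K))
      (Or.inl hK.measure_lt_top.ne)
    rw [tsub_self] at h2
    refine h2.congr fun k => ?_
    rw [measure_sdiff (self_subset_cthickening K) hK.measurableSet.nullMeasurableSet
      hK.measure_lt_top.ne]
    rfl
  have step : ∀ (j : ℕ) (L : ℝ), 0 < L → volume (F '' K) ≤
      ENNReal.ofReal (2 * C * κ ^ j) * V1 +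
        ENNReal.ofReal (2 * C * κ ^ j + 2 * C * L ^ (1 - q)) * D := by
    intro j L hL
    have lim : Tendsto (fun k : ℕ => ENNReal.ofReal (2 * C * κ ^ j) * V1 +
        ENNReal.ofReal (2 * C * L * 4 ^ j) * volume (cthickening ((1 / 2 : ℝ) ^ k) K \ K) +
        ENNReal.ofReal (2 * C * κ ^ j + 2 * C * L ^ (1 - q)) * D) atTop
        (𝓝 (ENNReal.ofReal (2 * C * κ ^ j) * V1 + ENNReal.ofReal (2 * C * L * 4 ^ j) * 0 +
        ENNReal.ofReal (2 * C * κ ^ j + 2 * C * L ^ (1 - q)) * D)) :=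
      (tendsto_const_nhds.add (ENNReal.Tendsto.const_mul hT (Or.inr ENNReal.ofReal_ne_top))).add
        tendsto_const_nhds
    rw [mul_zero, add_zero] at lim
    refine ge_of_tendsto_of_frequently lim ?_
    refine (hM.and_eventually (eventually_ge_atTop k0)).mono fun k hk => ?_
    have hcov : F '' K ⊆ ⋃ z, F '' (K ∩ cell k z) := by
      rintro _ ⟨u, hu, rfl⟩
      exact mem_iUnion.2 ⟨idx k u, u, ⟨hu, rfl⟩, rfl⟩
    refine (measure_mono hcov).trans ((measure_iUnion_le _).trans ?_)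
    refine (ENNReal.tsum_le_tsum fun z => one_cell hK F hq hθ0 hc hC (m k)
      (ne_top_of_le_ne_top ENNReal.ofReal_ne_top hk.1) k (h k hk.2) j hL z).trans ?_
    rw [ENNReal.tsum_add, ENNReal.tsum_add, ENNReal.tsum_mul_left, ENNReal.tsum_mul_left,
      ENNReal.tsum_mul_left, tsum_cell_inter, tsum_cell_inter]
    gcongr
    exact (tsum_big _ _ _).trans (by rw [hD]; gcongr; exact hk.1)
  have hr : (2 : ℝ) ^ (1 - q) < 1 := Real.rpow_lt_one_of_one_lt_of_neg (by norm_num) (by linarith)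
  have t1 : Tendsto (fun j : ℕ => 2 * C * κ ^ j) atTop (𝓝 0) := by
    simpa using (tendsto_pow_atTop_nhds_zero_of_lt_one hκ0 hκ1).const_mul (2 * C)
  have t2 : Tendsto (fun j : ℕ => 2 * C * ((2 : ℝ) ^ j) ^ (1 - q)) atTop (𝓝 0) := by
    have := (tendsto_pow_atTop_nhds_zero_of_lt_one (by positivity) hr).const_mul (2 * C)
    rw [mul_zero] at this
    refine this.congr fun j => ?_
    rw [← Real.rpow_natCast, ← Real.rpow_natCast, ← Real.rpow_mul (by norm_num),
      ← Real.rpow_mul (by norm_num), mul_comm (1 - q)]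
  have t3 := ENNReal.Tendsto.mul_const (ENNReal.tendsto_ofReal t1) (Or.inr hV1f)
  have t4 := ENNReal.Tendsto.mul_const (ENNReal.tendsto_ofReal (t1.add t2)) (Or.inr hDf)
  have t5 := t3.add t4
  simp only [add_zero, ENNReal.ofReal_zero, zero_mul] at t5
  exact le_antisymm (ge_of_tendsto' t5 fun j => step j (2 ^ j) (by positivity)) zero_le

end SN

end

section

namespace SN
open Set Filter Topology MeasureTheory Metric Function
open scoped ENNReal

variable {p : ℕ}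

namespace MSChartX

/-- the plane through w in the directions i, e -/
def io (w : W p) (i e : Fin (p + 2)) (u : ℝ × ℝ) : W p := update (update w i u.1) e u.2

/-- the slab around that plane -/
def slab (w : W p) (i e : Fin (p + 2)) (r : ℝ) : Set (W p) :=
  {w' | ∀ j, j ∉ ({i, e} : Finset (Fin (p + 2))) → |w' j - w j| < r}

/-- projection to the plane -/
def pr (i e : Fin (p + 2)) (w' : W p) : ℝ × ℝ := (w' i, w' e)

theorem io_i (w : W p) {i e : Fin (p + 2)} (hie : i ≠ e) (u : ℝ × ℝ) : io w i e u i = u.1 := by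
  simp [io, update_of_ne hie]

theorem io_e (w : W p) (i e : Fin (p + 2)) (u : ℝ × ℝ) : io w i e u e = u.2 := by
  simp [io]

theorem io_o (w : W p) {i e j : Fin (p + 2)} (h1 : j ≠ i) (h2 : j ≠ e) (u : ℝ × ℝ) :
    io w i e u j = w j := by
  simp [io, update_of_ne h1, update_of_ne h2]

theorem io_cont (w : W p) (i e : Fin (p + 2)) : Continuous (io w i e) := by
  unfold io
  fun_prop

theorem io_lip (w : W p) {i e : Fin (p + 2)} (hie : i ≠ e) (u u' : ℝ × ℝ) :
    ‖io w i e u - io w i e u'‖ ≤ ‖u - u'‖ := by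
  refine (pi_norm_le_iff_of_nonneg (norm_nonneg _)).2 fun j => ?_
  rw [Pi.sub_apply]
  by_cases h2 : j = e
  · rw [h2, io_e, io_e]; exact norm_snd_le (u - u')
  by_cases h1 : j = i
  · rw [h1, io_i w hie, io_i w hie]; exact norm_fst_le (u - u')
  rw [io_o w h1 h2, io_o w h1 h2]; simp

theorem pr_meas (i e : Fin (p + 2)) : Measurable (pr (p := p) i e) := by
  unfold pr
  fun_prop

theorem slab_meas (w : W p) (i e : Fin (p + 2)) (r : ℝ) : MeasurableSet (slab w i e r) := by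
  have : slab w i e r = ⋂ j ∈ {j | j ∉ ({i, e} : Finset (Fin (p + 2)))},
      {w' : W p | |w' j - w j| < r} := by
    ext w'; simp [slab]
  rw [this]
  refine MeasurableSet.biInter (to_countable _) fun j _ => ?_
  exact (isOpen_lt (by fun_prop) continuous_const).measurableSet

theorem near_sub (w : W p) {i e : Fin (p + 2)} (hie : i ≠ e) (v : ℝ × ℝ) {r : ℝ} {z : W p}
    (hz : ‖z - io w i e v‖ < r) : z ∈ pr i e ⁻¹' ball v r ∩ slab w i e r := by
  have hj : ∀ j, |z j - io w i e v j| < r := fun j =>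
    (norm_le_pi_norm (z - io w i e v) j).trans_lt hz
  refine ⟨?_, fun j hj' => ?_⟩
  · have h1 := hj i
    have h2 := hj e
    rw [io_i w hie] at h1
    rw [io_e] at h2
    rw [mem_preimage, mem_ball, Prod.dist_eq, max_lt_iff]
    exact ⟨h1, h2⟩
  · simp only [Finset.mem_insert, Finset.mem_singleton, not_or] at hj'
    have h1 := hj j
    rwa [io_o w hj'.1 hj'.2] at h1

theorem cont_of_lip {Φ : W p → W p} {L : ℝ} (h : ∀ x y, ‖Φ x - Φ y‖ ≤ L * ‖x - y‖) :
    Continuous Φ :=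
  (LipschitzWith.of_dist_le' (K := L) fun x y => by
    simpa only [dist_eq_norm] using h x y).continuous

/-- the measures on the plane -/
noncomputable def mk (m : Measure (W p)) (w : W p) (i e : Fin (p + 2)) (c θ : ℝ) (k : ℕ) :
    Measure (ℝ × ℝ) :=
  Measure.sum fun l : ℕ => ENNReal.ofReal ((1 / θ) ^ l * ((2 : ℝ) ^ (k + l)) ^ p) •
    Measure.map (pr i e) (m.restrict (slab w i e (c * (1 / 2 : ℝ) ^ (k + l))))

theorem mk_univ (m : Measure (W p)) (w : W p) (i e : Fin (p + 2)) (c θ : ℝ) (k : ℕ) :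
    mk m w i e c θ k univ = ∑' l : ℕ, ENNReal.ofReal ((1 / θ) ^ l * ((2 : ℝ) ^ (k + l)) ^ p) *
      m (slab w i e (c * (1 / 2 : ℝ) ^ (k + l))) := by
  rw [mk, Measure.sum_apply _ MeasurableSet.univ]
  refine tsum_congr fun l => ?_
  rw [Measure.smul_apply, smul_eq_mul, Measure.map_apply (pr_meas i e) MeasurableSet.univ,
    preimage_univ, Measure.restrict_apply_univ]

theorem mk_le (m : Measure (W p)) (w : W p) (i e : Fin (p + 2)) (c : ℝ) {θ : ℝ} (hθ : 0 < θ)
    (k l : ℕ) {B : Set (ℝ × ℝ)} (hB : MeasurableSet B) {N : ℝ}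
    (h : mk m w i e c θ k B ≤ ENNReal.ofReal N) :
    m (pr i e ⁻¹' B ∩ slab w i e (c * (1 / 2 : ℝ) ^ (k + l))) ≤
      ENNReal.ofReal (N * θ ^ l * ((1 / 2 : ℝ) ^ (k + l)) ^ p) := by
  have h1 := (Measure.le_sum (fun l : ℕ =>
    ENNReal.ofReal ((1 / θ) ^ l * ((2 : ℝ) ^ (k + l)) ^ p) •
    Measure.map (pr i e) (m.restrict (slab w i e (c * (1 / 2 : ℝ) ^ (k + l))))) l B).trans h
  rw [Measure.smul_apply, smul_eq_mul, Measure.map_apply (pr_meas i e) hB,
    Measure.restrict_apply (pr_meas i e hB)] at h1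
  have hp : 0 ≤ θ ^ l * ((1 / 2 : ℝ) ^ (k + l)) ^ p := by positivity
  have h2 := mul_le_mul_right h1 (ENNReal.ofReal (θ ^ l * ((1 / 2 : ℝ) ^ (k + l)) ^ p))
  have e1 : θ ^ l * ((1 / 2 : ℝ) ^ (k + l)) ^ p * ((1 / θ) ^ l * ((2 : ℝ) ^ (k + l)) ^ p) = 1 := by
    rw [mul_mul_mul_comm, ← mul_pow, ← mul_pow, ← mul_pow, mul_one_div_cancel hθ.ne']
    simp
  rw [← mul_assoc, ← ENNReal.ofReal_mul hp, e1, ENNReal.ofReal_one, one_mul,
    ← ENNReal.ofReal_mul hp] at h2
  refine h2.trans (le_of_eq ?_)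
  congr 1
  ring

end MSChartX

open MSChartX

theorem ms_chart {q Θ C : ℝ} {k0 : ℕ} {ν : Measure (W p)} {O : Set (W p)} {f : W p → W p}
    {A : W p → W p →L[ℝ] W p} (h : Ctx q Θ C k0 ν O f A) {μ ρ C0 : ℝ} {x0 : W p}
    {Φ Ψ : W p → W p} {J : Finset (Fin (p + 2))} (hc : Chart (GG ν μ) O f A x0 ρ Φ Ψ J C0)
    {i e : Fin (p + 2)} (hie : i ≠ e) (hi : i ∉ J) (he : e ∉ J) :
    ∀ᵐ w ∂(volume : Measure (W p)), ∀ a : Fin (p + 2),
      volume ((fun u : ℝ × ℝ => f (Ψ (update (update w i u.1) e u.2)) a) ''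
        {u | Ψ (update (update w i u.1) e u.2) ∈ GG ν μ ∩ closedBall x0 ρ ∧
          rk (A (Ψ (update (update w i u.1) e u.2))) ≤ J.card}) = 0 := by
  have hL := LL_pos p
  obtain ⟨a0, ha0⟩ : ∃ a0 : ℕ, 2 * LL p ≤ (2 : ℝ) ^ a0 :=
    (pow_unbounded_of_one_lt (2 * LL p) one_lt_two).imp fun _ h => h.le
  have hΦc := cont_of_lip hc.lipΦ
  have hΨc := cont_of_lip hc.lipΨ
  set c : ℝ := 8 * LL p * 2 ^ a0 with hcdef
  have hc0 : 0 < c := by positivity
  have hq0 : 0 < q := by linarith [h.hq]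
  have hθ1 : 1 < Θ / 4 := by linarith [h.h4]
  have hθ0 : 0 < Θ / 4 := by linarith
  have hΘ0 : 0 < Θ := by linarith
  have hfin : Measure.map Φ ν univ < ∞ := by
    rw [Measure.map_apply hΦc.measurable MeasurableSet.univ, preimage_univ]; exact h.fin
  have hS : IsClosed ((GG ν μ ∩ closedBall x0 ρ) ∩ A ⁻¹' {B | rk B ≤ J.card}) := by
    refine ContinuousOn.preimage_isClosed_of_isClosed
      ((h.contA μ).mono (inter_subset_inter_right _ hc.sub))
      ((isClosed_GG ν μ).inter isClosed_closedBall) ?_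
    rw [← isOpen_compl_iff, isOpen_iff_mem_nhds]
    intro B hB
    filter_upwards [rk_lsc B] with B' hB'
    simp only [mem_compl_iff, mem_ofPred_eq, not_le] at hB ⊢
    exact hB.trans_le hB'
  filter_upwards [avg_slab (Measure.map Φ ν) hfin {i, e} hc0 hθ1] with w hw a
  obtain ⟨M, hM, hfr⟩ := hw
  have hcard : p + 2 - ({i, e} : Finset (Fin (p + 2))).card = p := by
    rw [Finset.card_pair hie]; simp
  rw [hcard] at hfr
  change volume ((fun u : ℝ × ℝ => f (Ψ (io w i e u)) a) ''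
    ((fun u => Ψ (io w i e u)) ⁻¹'
      ((GG ν μ ∩ closedBall x0 ρ) ∩ A ⁻¹' {B | rk B ≤ J.card}))) = 0
  refine ms2d (q := q) (θ := (Θ / 4) ^ (1 / q)) (c := c + 2) (C := C0 * C * 4 ^ a0)
    (M := M.toReal) ?_ _ (by linarith [h.hq]) (by positivity) ?_ (by linarith)
    (by have := hc.c0; have := h.hC; positivity)
    (mk (Measure.map Φ ν) w i e c (Θ / 4)) ?_ (k0 + a0) ?_
  · refine (isCompact_closedBall (pr i e (Φ x0)) (LL p * ρ)).of_isClosed_subset
      (hS.preimage (hΨc.comp (io_cont w i e))) fun u hu => ?_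
    have h1 : ‖Ψ (io w i e u) - x0‖ ≤ ρ := by
      have := hu.1.2
      rwa [mem_closedBall, dist_eq_norm] at this
    have h2 := (hc.lipΦ (Ψ (io w i e u)) x0).trans (mul_le_mul_of_nonneg_left h1 hL.le)
    rw [hc.ri] at h2
    have hj : ∀ j, |io w i e u j - Φ x0 j| ≤ LL p * ρ := fun j =>
      (norm_le_pi_norm (io w i e u - Φ x0) j).trans h2
    have h3 := hj i
    have h4 := hj e
    rw [io_i w hie] at h3
    rw [io_e] at h4
    rw [mem_closedBall, Prod.dist_eq, max_le_iff]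
    exact ⟨h3, h4⟩
  · have e1 : (2 : ℝ) ^ (2 / q) = (4 : ℝ) ^ (1 / q) := by
      rw [show (4 : ℝ) = 2 ^ (2 : ℝ) by norm_num, ← Real.rpow_mul (by norm_num)]
      congr 1; ring
    rw [e1, ← Real.mul_rpow hθ0.le (by norm_num), div_mul_cancel₀ _ (by norm_num)]
    have := Real.rpow_lt_rpow hΘ0.le h.hΘ (one_div_pos.2 hq0)
    rwa [← Real.rpow_mul (by norm_num), mul_one_div_cancel hq0.ne', Real.rpow_one] at this
  · refine hfr.mono fun k hk => ?_
    rw [mk_univ, ENNReal.ofReal_toReal hM.ne]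
    exact hk
  · intro k hk j u hu u' hu' huu N hN hm
    obtain ⟨k', hk'⟩ : ∃ k', k + j = k' + a0 := ⟨k + j - a0, by omega⟩
    have hk0 : k0 ≤ k' := by omega
    set s : ℝ := (1 / 2 : ℝ) ^ (k + j) with hs
    have hs0 : 0 < s := by positivity
    have hsk : (1 / 2 : ℝ) ^ k' = 2 ^ a0 * s := by
      rw [hs, hk', pow_add, mul_left_comm, ← mul_pow]; simp
    have hxx : ‖Ψ (io w i e u) - Ψ (io w i e u')‖ ≤ (1 / 2 : ℝ) ^ k' := by
      refine (hc.lipΨ _ _).trans ?_
      have h1 := mul_le_mul_of_nonneg_left ((io_lip w hie u u').trans huu) hL.le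
      rw [hsk]
      nlinarith [mul_le_mul_of_nonneg_right ha0 hs0.le]
    have hb0 : 0 ≤ (Θ / 4) ^ j * (N / s ^ 2) := by positivity
    have hmass : ∀ v : ℝ × ℝ, ‖u - v‖ ≤ 2 * s →
        Mass ν Θ k' ((Θ / 4) ^ j * (N / s ^ 2)) (Ψ (io w i e v)) := by
      intro v hv l
      have ht0 : 0 < (1 / 2 : ℝ) ^ l := by positivity
      have ht1 : (1 / 2 : ℝ) ^ l ≤ 1 := pow_le_one₀ (by norm_num) (by norm_num)
      have e1 : (1 / 2 : ℝ) ^ (k + (j + l)) = s * (1 / 2 : ℝ) ^ l := by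
        rw [← add_assoc, pow_add]
      have e2 : (1 / 2 : ℝ) ^ (k' + l) = 2 ^ a0 * (s * (1 / 2 : ℝ) ^ l) := by
        rw [pow_add, hsk, mul_assoc]
      have h1 := mk_le (Measure.map Φ ν) w i e c hθ0 k (j + l) measurableSet_ball hm
      rw [Measure.map_apply hΦc.measurable
        ((pr_meas i e measurableSet_ball).inter (slab_meas w i e _))] at h1
      refine (measure_mono fun z hz => ?_).trans (h1.trans (ENNReal.ofReal_le_ofReal ?_))
      · rw [mem_ball, dist_eq_norm] at hz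
        have h2 := (hc.lipΦ z (Ψ (io w i e v))).trans_lt (mul_lt_mul_of_pos_left hz hL)
        rw [hc.ri] at h2
        have h3 : ‖Φ z - io w i e v‖ < c * (1 / 2 : ℝ) ^ (k + (j + l)) := by
          rw [e2] at h2
          rw [e1, hcdef]
          linarith
        obtain ⟨h4, h5⟩ := near_sub w hie v h3
        refine ⟨?_, h5⟩
        rw [mem_preimage, mem_ball] at h4 ⊢
        have h6 : dist v u ≤ 2 * s := by rw [dist_comm, dist_eq_norm]; exact hv
        have h7 := dist_triangle (pr i e (Φ z)) v u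
        rw [e1] at h4
        have h8 : c * (s * (1 / 2 : ℝ) ^ l) ≤ c * s :=
          mul_le_mul_of_nonneg_left (mul_le_of_le_one_right hs0.le ht1) hc0.le
        linarith
      · rw [e1, e2]
        have h2 : (s * (1 / 2 : ℝ) ^ l) ^ (p + 2) ≤ (2 ^ a0 * (s * (1 / 2 : ℝ) ^ l)) ^ (p + 2) :=
          pow_le_pow_left₀ (by positivity)
            (le_mul_of_one_le_left (by positivity) (one_le_pow₀ one_le_two)) _
        refine le_trans (le_of_eq ?_) (mul_le_mul_of_nonneg_left h2 (by positivity))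
        have e3 : (Θ / 4) ^ l = Θ ^ l * ((1 / 2 : ℝ) ^ l) ^ 2 := by
          rw [← pow_mul, mul_comm l 2, pow_mul, ← mul_pow]; congr 1; ring
        rw [pow_add (Θ / 4), e3, pow_add (s * (1 / 2 : ℝ) ^ l)]
        field_simp
    have hjet := (h.jet _ (hc.sub hu.1.2) _ (hc.sub hu'.1.2) k' hk0 _ hb0 hxx
      (hmass u (by simp; positivity)) (hmass u' huu)).2
    have hflat := hc.flat _ hu.1 _ hu'.1 hu.2 fun j' hj' => by
      have h1 : j' ≠ i := fun h => hi (h ▸ hj')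
      have h2 : j' ≠ e := fun h => he (h ▸ hj')
      rw [hc.ri, hc.ri, io_o w h1 h2, io_o w h1 h2]
    have h1 : |f (Ψ (io w i e u)) a - f (Ψ (io w i e u')) a| ≤
        ‖f (Ψ (io w i e u')) - f (Ψ (io w i e u))‖ := by
      rw [abs_sub_comm]
      exact norm_le_pi_norm (f (Ψ (io w i e u')) - f (Ψ (io w i e u))) a
    refine h1.trans (hflat.trans ((mul_le_mul_of_nonneg_left hjet hc.c0).trans (le_of_eq ?_)))
    have e4 : ((Θ / 4) ^ j * (N / s ^ 2)) ^ (1 / q) =
        ((Θ / 4) ^ (1 / q)) ^ j * (N / s ^ 2) ^ (1 / q) := by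
      rw [Real.mul_rpow (by positivity) (by positivity), ← Real.rpow_natCast (Θ / 4) j,
        ← Real.rpow_natCast ((Θ / 4) ^ (1 / q)) j, ← Real.rpow_mul hθ0.le,
        ← Real.rpow_mul hθ0.le, mul_comm (j : ℝ)]
    have e5 : (4 : ℝ) ^ a0 = (2 ^ a0) ^ 2 := by
      rw [← pow_mul, mul_comm a0 2, pow_mul]; norm_num
    rw [e4, hsk, e5]
    ring

end SN

end

section

namespace SN
open Set Filter Topology MeasureTheory Metric Function
open scoped ENNReal

variable {p : ℕ}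

namespace LemCX

theorem cont_of_lip {Φ : W p → W p} {L : ℝ} (hL : 0 < L) (h : ∀ x y, ‖Φ x - Φ y‖ ≤ L * ‖x - y‖) :
    Continuous Φ :=
  (LipschitzWith.of_dist_le_mul (K := ⟨L, hL.le⟩) fun x y => by
    rw [dist_eq_norm, dist_eq_norm]; exact h x y).continuous

theorem ev_small (B : ℝ) {δ : ℝ} (hδ : 0 < δ) : ∀ᶠ k : ℕ in atTop, B * (1 / 2 : ℝ) ^ k < δ := by
  have h := (tendsto_pow_atTop_nhds_zero_of_lt_one (r := (1 / 2 : ℝ)) (by norm_num)
    (by norm_num)).const_mul B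
  rw [mul_zero] at h
  exact h.eventually (gt_mem_nhds hδ)

/-- the tube around a segment in direction e -/
def tube (w : W p) (e : Fin (p + 2)) (r c d : ℝ) : Set (W p) :=
  {v | (∀ j, j ≠ e → |v j - w j| ≤ r) ∧ v e ∈ Icc c d}

theorem tube_near {w v : W p} {e : Fin (p + 2)} {r c d : ℝ} (hr : 0 ≤ r)
    (hv : v ∈ tube w e r c d) : ‖v - update w e (v e)‖ ≤ r := by
  rw [pi_norm_le_iff_of_nonneg hr]
  intro j
  by_cases hj : j = e
  · subst hj
    simpa using hr
  · rw [Pi.sub_apply, update_of_ne hj, Real.norm_eq_abs]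
    exact hv.1 j hj

/-- the parametrisation of a coordinate plane -/
def io (w : W p) (i e : Fin (p + 2)) (u : ℝ × ℝ) : W p := update (update w i u.1) e u.2

theorem io_e (w : W p) (i e : Fin (p + 2)) (u : ℝ × ℝ) : io w i e u e = u.2 := by
  simp [io]

theorem io_i (w : W p) {i e : Fin (p + 2)} (hie : i ≠ e) (u : ℝ × ℝ) : io w i e u i = u.1 := by
  simp [io, update_of_ne hie]

theorem io_ne (w : W p) {i e j : Fin (p + 2)} (hi : j ≠ i) (he : j ≠ e) (u : ℝ × ℝ) :
    io w i e u j = w j := by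
  simp [io, update_of_ne hi, update_of_ne he]

theorem io_lip (w : W p) {i e : Fin (p + 2)} (hie : i ≠ e) (u v : ℝ × ℝ) :
    ‖io w i e v - io w i e u‖ ≤ ‖v - u‖ := by
  rw [pi_norm_le_iff_of_nonneg (norm_nonneg _)]
  intro j
  rw [Pi.sub_apply]
  by_cases he : j = e
  · rw [he, io_e, io_e]
    exact norm_snd_le (v - u)
  · by_cases hi : j = i
    · rw [hi, io_i w hie, io_i w hie]
      exact norm_fst_le (v - u)
    · rw [io_ne w hi he, io_ne w hi he]
      simp

theorem io_cont (w : W p) (i e : Fin (p + 2)) : Continuous (io w i e) := by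
  have h1 : Continuous fun u : ℝ × ℝ => update w i u.1 := continuous_const.update i continuous_fst
  exact h1.update e continuous_snd

theorem io_inj (w : W p) {i e : Fin (p + 2)} (hie : i ≠ e) : Injective (io w i e) := by
  intro u v h
  have h1 := congrFun h i
  have h2 := congrFun h e
  rw [io_i w hie, io_i w hie] at h1
  rw [io_e, io_e] at h2
  exact Prod.ext h1 h2

theorem vol_box (w : W p) (e : Fin (p + 2)) {r c d : ℝ} (hr : 0 ≤ r) (hcd : c ≤ d) :
    volume (Set.pi univ fun j => Ioo (update (fun j => w j - r) e c j)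
      (update (fun j => w j + r) e d j)) = ENNReal.ofReal ((2 * r) ^ (p + 1) * (d - c)) := by
  rw [Real.volume_pi_Ioo, ← Finset.mul_prod_erase Finset.univ _ (Finset.mem_univ e),
    update_self, update_self]
  have : ∏ j ∈ Finset.univ.erase e, ENNReal.ofReal (update (fun j => w j + r) e d j -
      update (fun j => w j - r) e c j) = ∏ _j ∈ Finset.univ.erase e, ENNReal.ofReal (2 * r) := by
    refine Finset.prod_congr rfl fun j hj => ?_
    have hj' := Finset.ne_of_mem_erase hj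
    rw [update_of_ne hj', update_of_ne hj']
    congr 1
    ring
  rw [this, Finset.prod_const, Finset.card_erase_of_mem (Finset.mem_univ e), Finset.card_univ,
    Fintype.card_fin, ← ENNReal.ofReal_pow (by positivity),
    ← ENNReal.ofReal_mul (sub_nonneg.2 hcd), mul_comm]
  rfl

theorem key {q Θ C : ℝ} {k0 : ℕ} {ν : Measure (W p)} {O : Set (W p)} {f : W p → W p}
    {A : W p → W p →L[ℝ] W p} (h : Ctx q Θ C k0 ν O f A) {μ ρ C0 : ℝ} (hμ : 0 < μ) {x0 : W p}
    {Φ Ψ : W p → W p} {J : Finset (Fin (p + 2))}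
    (hc : Chart (GG ν (KK p * μ)) O f A x0 ρ Φ Ψ J C0) {Ob : Bool → Set (W p)}
    (hcol : Col (GG ν (KK p * μ)) A J.card x0 ρ Ob) {i e : Fin (p + 2)} (hie : i ≠ e)
    (hi : i ∉ J) (he : e ∉ J) {w : W p} {M : ℝ}
    (hM : ∃ᶠ k : ℕ in atTop, ν (Φ ⁻¹' {v | ∀ j, j ≠ e →
      |v j - w j| < (1 + LL p ^ 2) * (1 / 2 : ℝ) ^ k}) ≤
        ENNReal.ofReal (M * ((1 / 2 : ℝ) ^ k) ^ (p + 1)))
    (b : Bool) {c d : ℝ} (hcd : c < d)
    (hl : ∀ t ∈ Icc c d, Ψ (update w e t) ∈ GG ν μ ∩ ball x0 (ρ / 2))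
    (h1 : Ψ (update w e c) ∈ Ob b) (h2 : Ψ (update w e d) ∈ Ob (!b)) : False := by
  have hL := LL_pos p
  have hK : 0 < KK p * μ := mul_pos (one_pos.trans_le (one_le_KK p)) hμ
  have hGG : GG ν μ ⊆ GG ν (KK p * μ) := GG_mono (le_mul_of_one_le_left hμ.le (one_le_KK p))
  have hρ := hc.rpos
  have hl' : ∀ t ∈ Icc c d, Ψ (update w e t) ∈ GG ν (KK p * μ) ∩ closedBall x0 ρ := fun t ht =>
    ⟨hGG (hl t ht).1, closedBall_subset_closedBall (by linarith)
      (ball_subset_closedBall (hl t ht).2)⟩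
  obtain ⟨δ1, hδ1, H1⟩ := hcol.opn b _ h1 (hl' c (left_mem_Icc.2 hcd.le))
  obtain ⟨δ2, hδ2, H2⟩ := hcol.opn (!b) _ h2 (hl' d (right_mem_Icc.2 hcd.le))
  obtain ⟨k, hk, k1, k2, k3, k4⟩ := (hM.and_eventually ((ev_small (LL p) hδ1).and
    ((ev_small (LL p) hδ2).and ((ev_small (LL p) (half_pos hρ)).and
      (ev_small ((10 * LL p) ^ p * M / (KK p * μ)) one_pos))))).exists
  obtain ⟨r, hr⟩ : ∃ r : ℝ, r = (1 / 2 : ℝ) ^ k := ⟨_, rfl⟩
  rw [← hr] at hk k1 k2 k3 k4
  have r0 : 0 < r := by rw [hr]; positivity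
  have near : ∀ v ∈ tube w e r c d, ‖Ψ v - Ψ (update w e (v e))‖ ≤ LL p * r := fun v hv =>
    (hc.lipΨ _ _).trans (mul_le_mul_of_nonneg_left (tube_near r0.le hv) hL.le)
  have hw : ∀ y ∈ Ψ '' tube w e r c d, ∀ s : ℝ, LL p * r ≤ s →
      ν (ball y s) ≤ ENNReal.ofReal (KK p * μ * s ^ p) := by
    rintro _ ⟨v, hv, rfl⟩ s hs
    exact witness_of_near hμ.le (mul_le_mul_of_nonneg_right (two_pow_le_KK p) hμ.le)
      (mul_pos hL r0) (hl _ hv.2).1 (near v hv) s hs
  have sh := shadow ν Φ hL hK (mul_pos hL r0) hc.lipΦ _ hw hie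
    (update (fun j => w j - r) e c) (update (fun j => w j + r) e d)
  have th : thickening (LL p * r) (Ψ '' tube w e r c d) ⊆
      Φ ⁻¹' {v | ∀ j, j ≠ e → |v j - w j| < (1 + LL p ^ 2) * r} := by
    intro z hz
    obtain ⟨_, ⟨v, hv, rfl⟩, hzy⟩ := mem_thickening_iff.1 hz
    intro j hj
    rw [dist_eq_norm] at hzy
    have a1 := hc.lipΦ z (Ψ v)
    rw [hc.ri v] at a1
    have a2 : |Φ z j - v j| ≤ ‖Φ z - v‖ := norm_le_pi_norm (Φ z - v) j
    have a3 := hv.1 j hj
    have a4 := mul_lt_mul_of_pos_left hzy hL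
    have a5 := abs_sub_le (Φ z j) (v j) (w j)
    nlinarith
  have lt : volume {v ∈ Set.pi univ (fun j => Ioo (update (fun j => w j - r) e c j)
      (update (fun j => w j + r) e d j)) |
        ∃ y ∈ Ψ '' tube w e r c d, y ∉ GG ν (KK p * μ) ∧ ∀ j, j ≠ i → j ≠ e → Φ y j = v j} <
      volume (Set.pi univ fun j => Ioo (update (fun j => w j - r) e c j)
        (update (fun j => w j + r) e d j)) := by
    rw [vol_box w e r0.le hcd.le]
    refine (sh.trans (mul_le_mul_right ((measure_mono th).trans hk) _)).trans_lt ?_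
    have dc : 0 < d - c := sub_pos.2 hcd
    rw [update_self, update_self, update_of_ne hie, update_of_ne hie,
      show w i + r - (w i - r) = 2 * r by ring, ← ENNReal.ofReal_mul (by positivity),
      ENNReal.ofReal_lt_ofReal_iff (by positivity)]
    have e1 : (10 * LL p) ^ p * (2 * r * (d - c)) / (KK p * μ) * (M * r ^ (p + 1)) =
        (10 * LL p) ^ p * M / (KK p * μ) * r * (2 * (r ^ (p + 1) * (d - c))) := by ring
    have e2 : (2 * r) ^ (p + 1) * (d - c) = 2 ^ p * (2 * (r ^ (p + 1) * (d - c))) := by ring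
    rw [e1, e2]
    exact mul_lt_mul_of_pos_right (k4.trans_le (one_le_pow₀ one_le_two)) (by positivity)
  have ms := ms_chart h hc hie hi he
  obtain ⟨w', hbox, hgood, hms⟩ : ∃ w' ∈ Set.pi univ fun j => Ioo (update (fun j => w j - r) e c j)
      (update (fun j => w j + r) e d j),
      (¬∃ y ∈ Ψ '' tube w e r c d, y ∉ GG ν (KK p * μ) ∧ ∀ j, j ≠ i → j ≠ e → Φ y j = w' j) ∧
      ∀ a : Fin (p + 2), volume ((fun u : ℝ × ℝ => f (Ψ (io w' i e u)) a) ''
        {u | Ψ (io w' i e u) ∈ GG ν (KK p * μ) ∩ closedBall x0 ρ ∧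
          rk (A (Ψ (io w' i e u))) ≤ J.card}) = 0 := by
    by_contra hno
    refine absurd (measure_mono_ae ?_) (not_le.2 lt)
    filter_upwards [ms] with v hv hb
    refine ⟨hb, ?_⟩
    by_contra hn
    exact hno ⟨v, hb, hn, hv⟩
  have mt : ∀ u ∈ Icc (w i - r) (w i + r) ×ˢ Icc c d, io w' i e u ∈ tube w e r c d := by
    intro u hu
    refine ⟨fun j hj => ?_, by rw [io_e]; exact hu.2⟩
    by_cases hji : j = i
    · rw [hji, io_i w' hie, abs_le]
      constructor <;> linarith [hu.1.1, hu.1.2]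
    · have := hbox j (mem_univ j)
      simp only [update_of_ne hj] at this
      rw [io_ne w' hji hj, abs_le]
      constructor <;> linarith [this.1, this.2]
  have mg : ∀ u ∈ Icc (w i - r) (w i + r) ×ˢ Icc c d,
      Ψ (io w' i e u) ∈ GG ν (KK p * μ) ∩ closedBall x0 ρ := by
    intro u hu
    constructor
    · by_contra hn
      exact hgood ⟨_, ⟨_, mt u hu, rfl⟩, hn, fun j hji hje => by
        rw [hc.ri, io_ne w' hji hje]⟩
    · have a1 := near _ (mt u hu)
      have a2 := (hl _ (mt u hu).2).2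
      rw [mem_ball] at a2
      rw [← dist_eq_norm] at a1
      rw [mem_closedBall]
      linarith [dist_triangle (Ψ (io w' i e u)) (Ψ (update w e (io w' i e u e))) x0]
  have opn : ∀ b' : Bool, ∀ u ∈ Icc (w i - r) (w i + r) ×ˢ Icc c d,
      u ∈ {u | Ψ (io w' i e u) ∈ Ob b'} → ∃ δ : ℝ, 0 < δ ∧
      ∀ v ∈ Icc (w i - r) (w i + r) ×ˢ Icc c d, ‖v - u‖ < δ →
        v ∈ {u | Ψ (io w' i e u) ∈ Ob b'} := by
    intro b' u hu hb
    obtain ⟨δ, hδ, H⟩ := hcol.opn b' _ hb (mg u hu)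
    refine ⟨δ / LL p, div_pos hδ hL, fun v hv hvu => H _ (mg v hv) ?_⟩
    rw [lt_div_iff₀ hL] at hvu
    have a1 := hc.lipΨ (io w' i e v) (io w' i e u)
    have a2 := mul_le_mul_of_nonneg_left (io_lip w' hie u v) hL.le
    linarith
  have mO : MapsTo (fun u => Ψ (io w' i e u)) (Icc (w i - r) (w i + r) ×ˢ Icc c d) O :=
    fun u hu => hc.sub (mg u hu).2
  refine sep (a := w i - r) (b := w i + r) (by linarith) hcd {u | Ψ (io w' i e u) ∈ Ob b}
    {u | Ψ (io w' i e u) ∈ Ob (!b)} ?_ (opn b) (opn (!b)) ?_ ?_ (fun u => f (Ψ (io w' i e u)))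
    ?_ ?_ ?_
  · intro u _ a1 a2
    cases b
    · exact hcol.disj _ a2 a1
    · exact hcol.disj _ a1 a2
  · intro s hs
    have hu : (s, c) ∈ Icc (w i - r) (w i + r) ×ˢ Icc c d := ⟨hs, left_mem_Icc.2 hcd.le⟩
    have a1 := near _ (mt _ hu)
    rw [io_e] at a1
    exact H1 _ (mg _ hu) (a1.trans_lt k1)
  · intro s hs
    have hu : (s, d) ∈ Icc (w i - r) (w i + r) ×ˢ Icc c d := ⟨hs, right_mem_Icc.2 hcd.le⟩
    have a1 := near _ (mt _ hu)
    rw [io_e] at a1
    exact H2 _ (mg _ hu) (a1.trans_lt k2)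
  · intro a
    exact (continuous_apply a).comp_continuousOn
      (h.cont.comp ((cont_of_lip hL hc.lipΨ).comp (io_cont w' i e)).continuousOn mO)
  · intro u hu v hv huv
    exact io_inj w' hie (hc.ri.injective (h.inj (mO hu) (mO hv) huv))
  · intro a
    refine measure_mono_null (image_mono ?_) (hms a)
    intro u hu
    refine ⟨mg u hu.1, ?_⟩
    by_contra hn
    refine hu.2 ?_
    rcases hcol.cover _ (mg u hu.1) (not_le.1 hn) with a1 | a1
    · cases b
      · exact Or.inr a1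
      · exact Or.inl a1
    · cases b
      · exact Or.inl a1
      · exact Or.inr a1

theorem slab {ν : Measure (W p)} (hν : ν univ < ∞) {Φ : W p → W p} (hΦ : Continuous Φ)
    (e : Fin (p + 2)) {c : ℝ} (hc : 0 < c) :
    ∀ᵐ w ∂(volume : Measure (W p)), ∃ M : ℝ, ∃ᶠ k : ℕ in atTop,
      ν (Φ ⁻¹' {v | ∀ j, j ≠ e → |v j - w j| < c * (1 / 2 : ℝ) ^ k}) ≤
        ENNReal.ofReal (M * ((1 / 2 : ℝ) ^ k) ^ (p + 1)) := by
  have hm : Measure.map Φ ν univ < ∞ := by
    rw [Measure.map_apply hΦ.measurable MeasurableSet.univ]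
    exact hν
  filter_upwards [avg_slab (Measure.map Φ ν) hm {e} hc one_lt_two] with w hw
  obtain ⟨M, hM, H⟩ := hw
  refine ⟨M.toReal, H.mono fun k hk => ?_⟩
  have h1 := (ENNReal.le_tsum 0).trans hk
  simp only [pow_zero, one_mul, add_zero, Finset.card_singleton, Finset.mem_singleton] at h1
  have e0 : p + 2 - 1 = p + 1 := rfl
  rw [e0] at h1
  have h2 := Measure.le_map_apply (μ := ν) hΦ.measurable.aemeasurable
    {v : W p | ∀ j, j ≠ e → |v j - w j| < c * (1 / 2 : ℝ) ^ k}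
  refine h2.trans ?_
  have e1 : ENNReal.ofReal (((1 / 2 : ℝ) ^ k) ^ (p + 1)) *
      ENNReal.ofReal (((2 : ℝ) ^ k) ^ (p + 1)) = 1 := by
    rw [← ENNReal.ofReal_mul (by positivity), ← mul_pow, ← mul_pow]
    norm_num
  calc _ = ENNReal.ofReal (((1 / 2 : ℝ) ^ k) ^ (p + 1)) *
        (ENNReal.ofReal (((2 : ℝ) ^ k) ^ (p + 1)) * Measure.map Φ ν
          {v : W p | ∀ j, j ≠ e → |v j - w j| < c * (1 / 2 : ℝ) ^ k}) := by
        rw [← mul_assoc, e1, one_mul]
    _ ≤ ENNReal.ofReal (((1 / 2 : ℝ) ^ k) ^ (p + 1)) * M := mul_le_mul_right h1 _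
    _ = _ := by
        rw [ENNReal.ofReal_mul ENNReal.toReal_nonneg, ENNReal.ofReal_toReal hM.ne, mul_comm]

end LemCX

open LemCX

theorem lemC {q Θ C : ℝ} {k0 : ℕ} {ν : Measure (W p)} {O : Set (W p)} {f : W p → W p}
    {A : W p → W p →L[ℝ] W p} (h : Ctx q Θ C k0 ν O f A) {μ ρ C0 : ℝ} (hμ : 0 < μ) {x0 : W p}
    {Φ Ψ : W p → W p} {J : Finset (Fin (p + 2))}
    (hc : Chart (GG ν (KK p * μ)) O f A x0 ρ Φ Ψ J C0) {Ob : Bool → Set (W p)}
    (hcol : Col (GG ν (KK p * μ)) A J.card x0 ρ Ob) {e : Fin (p + 2)} (he : e ∉ J) :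
    ∀ᵐ w ∂(volume : Measure (W p)), ∀ a b : ℝ,
      (∀ t ∈ Icc a b, Ψ (update w e t) ∈ GG ν μ ∩ ball x0 (ρ / 2)) →
      ∀ t₁ ∈ Icc a b, ∀ t₂ ∈ Icc a b,
        Ψ (update w e t₁) ∈ Ob true → Ψ (update w e t₂) ∈ Ob false → False := by
  have hL := LL_pos p
  by_cases hJ : J = Finset.univ.erase e
  · refine Eventually.of_forall fun w a b hl t₁ m1 t₂ m2 h1 h2 => ?_
    have hGG : GG ν μ ⊆ GG ν (KK p * μ) := GG_mono (le_mul_of_one_le_left hμ.le (one_le_KK p))
    have hρ := hc.rpos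
    have hl' : ∀ t ∈ Icc a b, Ψ (update w e t) ∈ GG ν (KK p * μ) ∩ closedBall x0 ρ :=
      fun t ht => ⟨hGG (hl t ht).1, closedBall_subset_closedBall (by linarith)
        (ball_subset_closedBall (hl t ht).2)⟩
    have cJ : J.card = p + 1 := by
      rw [hJ, Finset.card_erase_of_mem (Finset.mem_univ e), Finset.card_univ, Fintype.card_fin]
      rfl
    have nz : ∀ b' : Bool, ∀ y ∈ Ob b', (A y).det ≠ 0 := by
      intro b' y hy
      have a1 := hcol.hr b' y hy
      have a2 := rk_le (A y)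
      exact (rk_eq_iff (A y)).1 (by omega)
    refine mono_line h hc hJ w hl' m1 m2 ?_ ?_
    · rcases lt_or_gt_of_ne (nz true _ h1) with a1 | a1
      · exact (hcol.disj _ h1 (hcol.sgn false _ (hl' t₁ m1) (by simpa [sg] using a1))).elim
      · exact a1
    · rcases lt_or_gt_of_ne (nz false _ h2) with a1 | a1
      · exact a1
      · exact (hcol.disj _ (hcol.sgn true _ (hl' t₂ m2) (by simpa [sg] using a1)) h2).elim
  · obtain ⟨i, hie, hi⟩ : ∃ i, i ≠ e ∧ i ∉ J := by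
      by_contra hn
      push Not at hn
      refine hJ (Finset.ext fun j => ?_)
      simp only [Finset.mem_erase, Finset.mem_univ, and_true]
      exact ⟨fun hj e' => he (e' ▸ hj), hn j⟩
    filter_upwards [slab h.fin (cont_of_lip hL hc.lipΦ) e
      (show 0 < 1 + LL p ^ 2 by positivity)] with w hw a b hl t₁ m1 t₂ m2 h1 h2
    obtain ⟨M, hM⟩ := hw
    rcases lt_trichotomy t₁ t₂ with ht | ht | ht
    · exact key h hμ hc hcol hie hi he hM true ht
        (fun t mt => hl t ⟨m1.1.trans mt.1, mt.2.trans m2.2⟩) h1 h2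
    · subst ht
      exact hcol.disj _ h1 h2
    · exact key h hμ hc hcol hie hi he hM false ht
        (fun t mt => hl t ⟨m2.1.trans mt.1, mt.2.trans m1.2⟩) h2 h1

end SN

end

section

namespace SN
open Set Filter Topology MeasureTheory Metric Function
open scoped ENNReal

variable {p : ℕ}

namespace LemSqX

lemma norm_update (w : W p) (i e : Fin (p + 2)) (s s' t : ℝ) :
    ‖update (update w i s') e t - update (update w i s) e t‖ ≤ |s' - s| := by
  refine (pi_norm_le_iff_of_nonneg (abs_nonneg _)).2 fun j => ?_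
  rw [Pi.sub_apply, Real.norm_eq_abs]
  by_cases h1 : j = e
  · subst h1; simp
  · rw [update_of_ne h1, update_of_ne h1]
    by_cases h2 : j = i
    · subst h2; simp
    · rw [update_of_ne h2, update_of_ne h2]; simp

lemma both {a b : ℝ} (hab : a < b) (U : Bool → Set ℝ) {P : ℝ → Prop}
    (hP : ∀ᵐ s ∂(volume : Measure ℝ), P s)
    (ho : ∀ c, ∀ s ∈ Icc a b, s ∈ U c → ∃ δ : ℝ, 0 < δ ∧ ∀ s' ∈ Icc a b, |s' - s| < δ → s' ∈ U c)
    (hc : ∀ s ∈ Icc a b, s ∈ U true ∨ s ∈ U false) {s₁ s₂ : ℝ} (h1 : s₁ ∈ Icc a b)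
    (h2 : s₂ ∈ Icc a b) (u1 : s₁ ∈ U true) (u2 : s₂ ∈ U false) :
    ∃ s ∈ Icc a b, P s ∧ s ∈ U true ∧ s ∈ U false := by
  have hin : ∀ c, ∀ s ∈ Icc a b, s ∈ U c → s ∈ interior (U c ∪ (Icc a b)ᶜ) := by
    intro c s hs hu
    obtain ⟨δ, hδ, H⟩ := ho c s hs hu
    refine mem_interior_iff_mem_nhds.2 (mem_of_superset (ball_mem_nhds s hδ) fun s' hs' => ?_)
    by_cases e : s' ∈ Icc a b
    · exact Or.inl (H s' e hs')
    · exact Or.inr e
  obtain ⟨s0, hs0, hv⟩ := isPreconnected_Icc (a := a) (b := b) _ _ isOpen_interior isOpen_interior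
    (fun s hs => (hc s hs).imp (hin true s hs) (hin false s hs)) ⟨s₁, h1, hin true s₁ h1 u1⟩
    ⟨s₂, h2, hin false s₂ h2 u2⟩
  have hop : IsOpen (interior (U true ∪ (Icc a b)ᶜ) ∩ interior (U false ∪ (Icc a b)ᶜ)) :=
    isOpen_interior.inter isOpen_interior
  rw [← closure_Ioo hab.ne] at hs0
  obtain ⟨s, ⟨⟨v1, v2⟩, hs⟩, hp⟩ := (Measure.dense_of_ae hP).inter_open_nonempty _
    (hop.inter isOpen_Ioo) (mem_closure_iff.1 hs0 _ hop hv)
  have hs' := Ioo_subset_Icc_self hs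
  exact ⟨s, hs', hp, (interior_subset v1).resolve_right fun e => e hs',
    (interior_subset v2).resolve_right fun e => e hs'⟩

end LemSqX

theorem lemSq {q Θ C : ℝ} {k0 : ℕ} {ν : Measure (W p)} {O : Set (W p)} {f : W p → W p}
    {A : W p → W p →L[ℝ] W p} (h : Ctx q Θ C k0 ν O f A) {μ ρ C0 : ℝ} (hμ : 0 < μ) {x0 : W p}
    {Φ Ψ : W p → W p} {J : Finset (Fin (p + 2))}
    (hc : Chart (GG ν (KK p * μ)) O f A x0 ρ Φ Ψ J C0) {Ob : Bool → Set (W p)}
    (hcol : Col (GG ν (KK p * μ)) A J.card x0 ρ Ob) {e : Fin (p + 2)} (he : e ∉ J)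
    (i : Fin (p + 2)) :
    ∀ᵐ w ∂(volume : Measure (W p)), ∀ a' b' a b : ℝ, a' < b' → a < b →
      (∀ s ∈ Icc a' b', ∀ t ∈ Icc a b,
        Ψ (update (update w i s) e t) ∈ GG ν μ ∩ ball x0 (ρ / 2)) →
      ∀ s₁ ∈ Icc a' b', ∀ t₁ ∈ Icc a b, ∀ s₂ ∈ Icc a' b', ∀ t₂ ∈ Icc a b,
        Ψ (update (update w i s₁) e t₁) ∈ Ob true →
        Ψ (update (update w i s₂) e t₂) ∈ Ob false → False := by
  filter_upwards [ae_update (lemC h hμ hc hcol he) i] with w hw
  intro a' b' a b hab' hab hl s₁ hs₁ t₁ ht₁ s₂ hs₂ t₂ ht₂ o1 o2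
  have hG : ∀ s ∈ Icc a' b', ∀ t ∈ Icc a b,
      Ψ (update (update w i s) e t) ∈ GG ν (KK p * μ) ∩ closedBall x0 ρ := fun s hs t ht =>
    ⟨GG_mono (le_mul_of_one_le_left hμ.le (one_le_KK p)) (hl s hs t ht).1,
      ball_subset_closedBall (ball_subset_ball (by linarith [hc.rpos]) (hl s hs t ht).2)⟩
  have hL : 0 < LL p := by unfold LL; positivity
  obtain ⟨s, hs, hp, ⟨t, ht, ot⟩, ⟨t', ht', ot'⟩⟩ := LemSqX.both hab'
    (fun c => {s | ∃ t ∈ Icc a b, Ψ (update (update w i s) e t) ∈ Ob c}) hw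
    (by
      rintro c s hs ⟨t, ht, ot⟩
      obtain ⟨δ, hδ, H⟩ := hcol.opn c _ ot (hG s hs t ht)
      refine ⟨δ / LL p, div_pos hδ hL, fun s' hs' hd => ⟨t, ht, H _ (hG s' hs' t ht) ?_⟩⟩
      refine (hc.lipΨ _ _).trans_lt ?_
      rw [lt_div_iff₀' hL] at hd
      exact (mul_le_mul_of_nonneg_left (LemSqX.norm_update w i e s s' t) hL.le).trans_lt hd)
    (by
      intro s hs
      obtain ⟨t, ht, hr⟩ := arc h hc he (update w i s) hab (hG s hs)
      exact (hcol.cover _ (hG s hs t ht) hr).imp (fun o => ⟨t, ht, o⟩) fun o => ⟨t, ht, o⟩)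
    hs₁ hs₂ ⟨t₁, ht₁, o1⟩ ⟨t₂, ht₂, o2⟩
  exact hp a b (hl s hs) t ht t' ht' ot ot'

end SN

end

section

namespace SN
open Set Filter Topology MeasureTheory Metric Function
open scoped ENNReal

variable {p : ℕ}

namespace OneScaleX

theorem mem_iff {c w : W p} {s : ℝ} (hs : 0 < s) :
    w ∈ ball c s ↔ ∀ j, |w j - c j| < s := by
  rw [mem_ball, dist_pi_lt_iff hs]
  simp only [Real.dist_eq]

theorem upd_mem {c w : W p} {s : ℝ} (hs : 0 < s) (hw : w ∈ ball c s) (i : Fin (p + 2)) {t : ℝ}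
    (ht : |t - c i| < s) : update w i t ∈ ball c s := by
  rw [mem_iff hs] at hw ⊢
  intro j
  by_cases hj : j = i
  · subst hj
    simpa using ht
  · rw [update_of_ne hj]
    exact hw j

theorem of_upd_mem {c w : W p} {s : ℝ} (hs : 0 < s) (i : Fin (p + 2)) {t : ℝ}
    (ht : update w i t ∈ ball c s) : |t - c i| < s := by
  rw [mem_iff hs] at ht
  simpa using ht i

/-- the statement of the square lemma at the point w in the direction i -/
def PP (Ψ : W p → W p) (G : Set (W p)) (Ob : Bool → Set (W p)) (e i : Fin (p + 2)) (w : W p) :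
    Prop :=
  ∀ a' b' a b : ℝ, a' < b' → a < b →
    (∀ s ∈ Icc a' b', ∀ t ∈ Icc a b, Ψ (update (update w i s) e t) ∈ G) →
    ∀ s₁ ∈ Icc a' b', ∀ t₁ ∈ Icc a b, ∀ s₂ ∈ Icc a' b', ∀ t₂ ∈ Icc a b,
      Ψ (update (update w i s₁) e t₁) ∈ Ob true →
      Ψ (update (update w i s₂) e t₂) ∈ Ob false → False

theorem core {Ψ : W p → W p} {G : Set (W p)} {Ob : Bool → Set (W p)} {e i : Fin (p + 2)}
    {w c : W p} {s : ℝ} (hs : 0 < s) (hP : PP Ψ G Ob e i w)
    (hG : ∀ u t : ℝ, |u - c i| < s → |t - c e| < s → Ψ (update (update w i u) e t) ∈ G) :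
    ∃ b : Bool, ∀ u t : ℝ, |u - c i| < s → |t - c e| < s →
      Ψ (update (update w i u) e t) ∉ Ob (!b) := by
  by_contra hcon
  push Not at hcon
  obtain ⟨s₂, t₂, hs₂, ht₂, h₂⟩ := hcon true
  obtain ⟨s₁, t₁, hs₁, ht₁, h₁⟩ := hcon false
  simp only [Bool.not_true] at h₂
  simp only [Bool.not_false] at h₁
  set m : ℝ := max (max |s₁ - c i| |s₂ - c i|) (max |t₁ - c e| |t₂ - c e|) with hm
  have hms : m < s := max_lt (max_lt hs₁ hs₂) (max_lt ht₁ ht₂)
  have hm0 : 0 ≤ m := le_trans (abs_nonneg _) (le_trans (le_max_left _ _) (le_max_left _ _))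
  have k1 : |s₁ - c i| ≤ m := le_trans (le_max_left _ _) (le_max_left _ _)
  have k2 : |s₂ - c i| ≤ m := le_trans (le_max_right _ _) (le_max_left _ _)
  have k3 : |t₁ - c e| ≤ m := le_trans (le_max_left _ _) (le_max_right _ _)
  have k4 : |t₂ - c e| ≤ m := le_trans (le_max_right _ _) (le_max_right _ _)
  rw [abs_le] at k1 k2 k3 k4
  refine hP (c i - (m + s) / 2) (c i + (m + s) / 2) (c e - (m + s) / 2) (c e + (m + s) / 2)
    (by linarith) (by linarith) ?_ s₁ ⟨by linarith, by linarith⟩ t₁ ⟨by linarith, by linarith⟩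
    s₂ ⟨by linarith, by linarith⟩ t₂ ⟨by linarith, by linarith⟩ h₁ h₂
  intro u hu t ht
  refine hG u t ?_ ?_
  · rw [abs_lt]
    constructor <;> linarith [hu.1, hu.2]
  · rw [abs_lt]
    constructor <;> linarith [ht.1, ht.2]

end OneScaleX

open OneScaleX in
theorem one_scale {q Θ C : ℝ} {k0 : ℕ} {ν : Measure (W p)} {O : Set (W p)} {f : W p → W p}
    {A : W p → W p →L[ℝ] W p} (h : Ctx q Θ C k0 ν O f A) {lam ρ C0 : ℝ} (hlam : 0 < lam)
    {x0 : W p} {Φ Ψ : W p → W p} {J : Finset (Fin (p + 2))}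
    (hc : Chart (GG ν (KK p * (KK p * lam))) O f A x0 ρ Φ Ψ J C0) {Ob : Bool → Set (W p)}
    (hcol : Col (GG ν (KK p * (KK p * lam))) A J.card x0 ρ Ob) {e : Fin (p + 2)} (he : e ∉ J)
    {x : W p} (hx : x ∈ GG ν lam) {s : ℝ} (hs : 0 < s)
    (hsub : ball x (LL p * s) ⊆ ball x0 (ρ / 2)) :
    ∃ b, volume (ball (Φ x) s \
        SS Ψ (GG ν (KK p * lam) ∩ ball x0 (ρ / 2)) (Ob (!b)) e (ball (Φ x) s)) ≤
      ENNReal.ofReal ((2 * s) ^ (p + 2) / 2 ^ (p + 4)) := by
  have hK := one_le_KK p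
  have hμ : 0 < KK p * lam := mul_pos (lt_of_lt_of_le one_pos hK) hlam
  have hG1 : GG ν (KK p * lam) ∩ ball x0 (ρ / 2) ⊆
      GG ν (KK p * (KK p * lam)) ∩ closedBall x0 ρ := by
    intro y hy
    refine ⟨GG_mono ?_ hy.1, ?_⟩
    · nlinarith
    · have := hc.rpos
      exact ball_subset_closedBall (ball_subset_ball (by linarith) hy.2)
  obtain ⟨i0, hi0⟩ := exists_ne e
  let dir : Fin (p + 2) → Fin (p + 2) := fun i => if i = e then i0 else i
  have hdir : ∀ i, dir i ≠ e := by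
    intro i
    by_cases hi : i = e
    · simp only [dir, if_pos hi]
      exact hi0
    · simp only [dir, if_neg hi]
      exact hi
  let B1 : Fin (p + 2) → Set (W p) := fun i =>
    {w ∈ ball (Φ x) s | ∃ y ∈ ball x (LL p * s), y ∉ GG ν (KK p * lam) ∧
        ∀ j, j ≠ i → j ≠ e → Φ y j = w j}
  let B2 : Fin (p + 2) → Set (W p) := fun i =>
    {w | ¬ PP Ψ (GG ν (KK p * lam) ∩ ball x0 (ρ / 2)) Ob e i w}
  have hB2 : ∀ i, volume (B2 i) = 0 := by
    intro i
    have := lemSq h hμ hc hcol he i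
    exact ae_iff.1 this
  have hgood : ∀ i, i ≠ e → ∀ w ∈ ball (Φ x) s, w ∉ B1 i → ∀ u t : ℝ, |u - Φ x i| < s →
      |t - Φ x e| < s →
      Ψ (update (update w i u) e t) ∈ GG ν (KK p * lam) ∩ ball x0 (ρ / 2) := by
    intro i _ w hw hnb u t hu ht
    have hz : update (update w i u) e t ∈ ball (Φ x) s := upd_mem hs (upd_mem hs hw i hu) e ht
    have hy : Ψ (update (update w i u) e t) ∈ ball x (LL p * s) := by
      rw [mem_ball, dist_eq_norm] at hz ⊢
      have h1 := hc.lipΨ (update (update w i u) e t) (Φ x)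
      rw [hc.li x] at h1
      exact lt_of_le_of_lt h1 (mul_lt_mul_of_pos_left hz (LL_pos p))
    refine ⟨?_, hsub hy⟩
    by_contra hn
    refine hnb ⟨hw, _, hy, hn, ?_⟩
    intro j hji hje
    rw [hc.ri, update_of_ne hje, update_of_ne hji]
  have key := maj (Φ x) hs
    (fun b => SS Ψ (GG ν (KK p * lam) ∩ ball x0 (ρ / 2)) (Ob (!b)) e (ball (Φ x) s)) ?_
    (fun i => B1 (dir i) ∪ B2 (dir i))
    (ENNReal.ofReal ((2 * s) ^ (p + 2) / (((p : ℝ) + 2) * 2 ^ (p + 4)))) ?_ ?_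
  · obtain ⟨b, hb⟩ := key
    refine ⟨b, hb.trans (le_of_eq ?_)⟩
    rw [← ENNReal.ofReal_natCast, ← ENNReal.ofReal_mul (by positivity)]
    congr 1
    push_cast
    field_simp
  · intro w hw1 hw2
    have hw : w ∈ ball (Φ x) s := hw1.1
    have hwe : |w e - Φ x e| < s := (mem_iff hs).1 hw e
    have hseg : ∀ t ∈ Icc (w e) (w e + (s - |w e - Φ x e|) / 2), update w e t ∈ ball (Φ x) s := by
      intro t ht
      refine upd_mem hs hw e ?_
      have h1 := le_abs_self (w e - Φ x e)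
      have h2 := neg_abs_le (w e - Φ x e)
      rw [abs_lt]
      constructor <;> linarith [ht.1, ht.2]
    obtain ⟨t, ht, hrk⟩ := arc h hc he w (a := w e) (b := w e + (s - |w e - Φ x e|) / 2)
      (by linarith) (fun t ht => hG1 (hw1.2 t (hseg t ht)).1)
    rcases hcol.cover _ (hG1 (hw1.2 t (hseg t ht)).1) hrk with h1 | h1
    · exact (hw2.2 t (hseg t ht)).2 h1
    · exact (hw1.2 t (hseg t ht)).2 h1
  · intro i
    calc volume ((B1 (dir i) ∪ B2 (dir i)) ∩ ball (Φ x) s)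
        ≤ volume (B1 (dir i) ∪ B2 (dir i)) := measure_mono inter_subset_left
      _ ≤ volume (B1 (dir i)) + volume (B2 (dir i)) := measure_union_le _ _
      _ = volume (B1 (dir i)) := by rw [hB2, add_zero]
      _ ≤ _ := shadow_ball ν Φ hlam hs hc.lipΦ hx (hdir i) (Φ x)
  · intro i w hw hnb
    have hn1 : w ∉ B1 (dir i) := fun hh => hnb (Or.inl hh)
    have hn2 : PP Ψ (GG ν (KK p * lam) ∩ ball x0 (ρ / 2)) Ob e (dir i) w := by
      by_contra hh
      exact hnb (Or.inr hh)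
    have hG := hgood (dir i) (hdir i) w hw hn1
    obtain ⟨b, hb⟩ := core hs hn2 hG
    refine ⟨b, fun t ht => ⟨ht, fun t' ht' => ?_⟩⟩
    have ht'e : |t' - Φ x e| < s := of_upd_mem hs e ht'
    by_cases hi : i = e
    · have hd : dir i = i0 := by simp only [dir, if_pos hi]
      have hw0 : |w i0 - Φ x i0| < s := (mem_iff hs).1 hw i0
      rw [hd] at hG hb
      have e1 : update (update w i t) e t' = update (update w i0 (w i0)) e t' := by
        rw [hi, update_idem, update_eq_self]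
      rw [e1]
      exact ⟨hG _ _ hw0 ht'e, hb _ _ hw0 ht'e⟩
    · have hd : dir i = i := by simp only [dir, if_neg hi]
      have hti : |t - Φ x i| < s := of_upd_mem hs i ht
      rw [hd] at hG hb
      exact ⟨hG _ _ hti ht'e, hb _ _ hti ht'e⟩

end SN

end
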