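import Mathlib
import Pool.Agent.Mg.Fedaf86.Gceb433
import Pool.Agent.Mg.Fedaf86.Gac1c1f

section

namespace SN
open Set Filter Topology MeasureTheory Metric Function
open scoped ENNReal

variable {p : ℕ}

namespace JetX

theorem holder {q c v : ℝ} (hq : 2 < q) {g : W p → ℝ} (hg0 : ∀ y, 0 ≤ g y)
    (hg : AEStronglyMeasurable g volume) {B : Set (W p)} (hB : MeasurableSet B) (hc : 0 ≤ c)
    (hv : 0 < v) (hvol : volume B = ENNReal.ofReal v)
    (hν : (volume.withDensity fun y => ENNReal.ofReal (g y ^ q)) B ≤ ENNReal.ofReal (c * v)) :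
    ∫ y in B, g y ≤ c ^ (1 / q) * v := by
  have hq0 : 0 < q := by linarith
  have hq1 : 1 < q := by linarith
  have hconj : q.HolderConjugate (Real.conjExponent q) := Real.HolderConjugate.conjExponent hq1
  rw [integral_eq_lintegral_of_nonneg_ae (Eventually.of_forall hg0) hg.restrict]
  have hm : AEMeasurable (fun y => ENNReal.ofReal (g y)) (volume.restrict B) :=
    hg.restrict.aemeasurable.ennreal_ofReal
  have h1 := ENNReal.lintegral_mul_le_Lp_mul_Lq (volume.restrict B) hconj hm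
    (aemeasurable_const (b := (1 : ℝ≥0∞)))
  rw [withDensity_apply _ hB] at hν
  have h2 : ∫⁻ y in B, ENNReal.ofReal (g y) ^ q = ∫⁻ y in B, ENNReal.ofReal (g y ^ q) := by
    refine lintegral_congr fun y => ?_
    rw [ENNReal.ofReal_rpow_of_nonneg (hg0 y) hq0.le]
  simp only [Pi.mul_apply, mul_one, ENNReal.one_rpow, lintegral_const, one_mul,
    Measure.restrict_apply MeasurableSet.univ, univ_inter] at h1
  rw [h2, hvol] at h1
  have hs : 1 / q + 1 / Real.conjExponent q = 1 := by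
    have := hconj.inv_add_inv_eq_one
    simpa [one_div] using this
  have hp0 : 0 ≤ 1 / q := by positivity
  have hp1 : 0 ≤ 1 / Real.conjExponent q := by
    have := hconj.symm.pos
    positivity
  have h3 : ∫⁻ y in B, ENNReal.ofReal (g y) ≤ ENNReal.ofReal (c ^ (1 / q) * v) := by
    refine h1.trans ?_
    calc _ ≤ ENNReal.ofReal (c * v) ^ (1 / q) * ENNReal.ofReal v ^ (1 / Real.conjExponent q) := by
          gcongr
      _ = ENNReal.ofReal (c ^ (1 / q) * v) := by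
          rw [ENNReal.ofReal_rpow_of_nonneg (by positivity) hp0,
            ENNReal.ofReal_rpow_of_nonneg hv.le hp1,
            ← ENNReal.ofReal_mul (by positivity), Real.mul_rpow hc hv.le, mul_assoc,
            ← Real.rpow_add hv, hs, Real.rpow_one]
  exact ENNReal.toReal_le_of_le_ofReal (by positivity) h3

theorem avg_le {q Θ b : ℝ} (hq : 2 < q) (hΘ : 0 ≤ Θ) (hb : 0 ≤ b) {g : W p → ℝ}
    (hg0 : ∀ y, 0 ≤ g y) (hg : AEStronglyMeasurable g volume) {k : ℕ} {x z : W p}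
    (hM : Mass (volume.withDensity fun y => ENNReal.ofReal (g y ^ q)) Θ k b x) (j : ℕ)
    (hz : ‖z - x‖ ≤ 4 * (1 / 2 : ℝ) ^ (k + j)) :
    ((2 : ℝ) ^ (k + j)) ^ (p + 2) * ∫ y in ball z (4 * (1 / 2 : ℝ) ^ (k + j)), g y ≤
      8 ^ (p + 2) * b ^ (1 / q) * (Θ ^ (1 / q)) ^ j := by
  have hs : 0 < (1 / 2 : ℝ) ^ (k + j) := by positivity
  have h2 : (2 : ℝ) ^ (k + j) * (1 / 2 : ℝ) ^ (k + j) = 1 := by
    rw [← mul_pow]; norm_num
  have hMj := hM j
  generalize (1 / 2 : ℝ) ^ (k + j) = s at *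
  have hvol : volume (ball z (4 * s)) = ENNReal.ofReal ((8 * s) ^ (p + 2)) := by
    rw [Real.volume_pi_ball z (by positivity : 0 < 4 * s), Fintype.card_fin]
    congr 2
    ring
  have hsub : ball z (4 * s) ⊆ ball x (8 * s) := by
    intro w hw
    rw [mem_ball_iff_norm] at hw ⊢
    calc ‖w - x‖ = ‖(w - z) + (z - x)‖ := by congr 1; abel
      _ ≤ ‖w - z‖ + ‖z - x‖ := norm_add_le _ _
      _ < 8 * s := by linarith
  have hν : (volume.withDensity fun y => ENNReal.ofReal (g y ^ q)) (ball z (4 * s)) ≤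
      ENNReal.ofReal (b * Θ ^ j * (8 * s) ^ (p + 2)) := by
    refine (measure_mono hsub).trans (hMj.trans (ENNReal.ofReal_le_ofReal ?_))
    gcongr
    linarith
  have h := holder hq hg0 hg measurableSet_ball (by positivity) (by positivity) hvol hν
  calc _ ≤ ((2 : ℝ) ^ (k + j)) ^ (p + 2) * ((b * Θ ^ j) ^ (1 / q) * (8 * s) ^ (p + 2)) := by
        gcongr
    _ = (8 * ((2 : ℝ) ^ (k + j) * s)) ^ (p + 2) * (b ^ (1 / q) * (Θ ^ j) ^ (1 / q)) := by
        rw [Real.mul_rpow hb (by positivity), mul_pow, mul_pow, mul_pow]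
        ring
    _ = _ := by
        rw [h2, mul_one, ← Real.rpow_natCast Θ j, ← Real.rpow_mul hΘ, mul_comm (j : ℝ),
          Real.rpow_mul hΘ, Real.rpow_natCast, mul_assoc]

theorem geo {E : Type*} [NormedAddCommGroup E] [CompleteSpace E] {u : ℕ → E} {k : ℕ} {K r : ℝ}
    (hr : r < 1) (h : ∀ j, ‖u (k + j) - u (k + j + 1)‖ ≤ K * r ^ j) :
    Tendsto u atTop (𝓝 (limUnder atTop u)) ∧
      ∀ L, Tendsto u atTop (𝓝 L) → ‖u k - L‖ ≤ K / (1 - r) := by
  have h' : ∀ j, dist (u (k + j)) (u (k + (j + 1))) ≤ K * r ^ j := by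
    intro j
    rw [dist_eq_norm]
    exact h j
  have hc : CauchySeq fun j => u (k + j) := cauchySeq_of_le_geometric r K hr h'
  have hc' : CauchySeq u := by
    rw [← cauchySeq_shift k]
    simpa [add_comm] using hc
  refine ⟨hc'.tendsto_limUnder, fun L hL => ?_⟩
  have hL' : Tendsto (fun j => u (k + j)) atTop (𝓝 L) := by
    have := (tendsto_add_atTop_iff_nat k).2 hL
    simpa [add_comm] using this
  have := dist_le_of_le_geometric_of_tendsto₀ r K hr h' hL'
  simpa [dist_eq_norm] using this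

end JetX

open JetX in
theorem ctx_of_moll {q R C0 : ℝ} (hq : 2 < q) (x0 : W p) {k0 : ℕ} {g : W p → ℝ} {f : W p → W p}
    {D : W p → W p →L[ℝ] W p} {F : ℕ → W p → W p} (hg0 : ∀ y, 0 ≤ g y)
    (hg : MemLp g (ENNReal.ofReal q) volume) (h : Moll (ball x0 R) k0 C0 g f D F)
    (hf : ContinuousOn f (ball x0 R)) (hi : InjOn f (ball x0 R)) :
    ∃ (Θ C : ℝ) (ν : Measure (W p)) (A : W p → W p →L[ℝ] W p),
      Ctx q Θ C k0 ν (ball x0 R) f A ∧ ∀ᵐ y ∂(volume.restrict (ball x0 R)), A y = D y := by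
  have hq0 : 0 < q := by linarith
  have h4 : (4 : ℝ) < 2 ^ q := by
    have : (2 : ℝ) ^ (2 : ℝ) < 2 ^ q := Real.rpow_lt_rpow_of_exponent_lt (by norm_num) hq
    have e : (2 : ℝ) ^ (2 : ℝ) = 4 := by norm_num
    rwa [e] at this
  obtain ⟨Θ, hΘ4, hΘq⟩ := exists_between h4
  have hΘ0 : 0 ≤ Θ := by linarith
  have hth0 : 0 ≤ Θ ^ (1 / q) := by positivity
  have hth2 : Θ ^ (1 / q) < 2 := by
    have := Real.rpow_lt_rpow hΘ0 hΘq (by positivity : 0 < 1 / q)
    rwa [← Real.rpow_mul (by norm_num), mul_one_div_cancel hq0.ne', Real.rpow_one] at this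
  have hC0 := h.c0
  have hgm := hg.aestronglyMeasurable
  have hav := fun (b : ℝ) (hb : 0 ≤ b) (k : ℕ) (x z : W p) =>
    avg_le (Θ := Θ) (b := b) (k := k) (x := x) (z := z) hq hΘ0 hb hg0 hgm
  generalize Θ ^ (1 / q) = th at hth0 hth2 hav
  obtain ⟨τ, hτ⟩ : ∃ τ : ℝ, τ = 1 / (1 - th / 2) := ⟨_, rfl⟩
  have hd2 : 0 < 1 - th / 2 := by linarith
  have hτ0 : 0 ≤ τ := by rw [hτ]; positivity
  refine ⟨Θ, C0 * 8 ^ (p + 2) * (3 * τ + 1),
    volume.withDensity fun y => ENNReal.ofReal (g y ^ q),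
    fun x => limUnder atTop fun k => fderiv ℝ (F k) x,
    ⟨hq, hΘ4, hΘq, by positivity, ?_, isOpen_ball, hf, hi, ?_⟩, ?_⟩
  · rw [withDensity_apply _ MeasurableSet.univ, Measure.restrict_univ]
    have h1 := hg.integrable_norm_rpow (by simpa using hq0) ENNReal.ofReal_ne_top
    rw [ENNReal.toReal_ofReal hq0.le] at h1
    have h2 : Integrable (fun y => g y ^ q) volume := by
      refine h1.congr (Eventually.of_forall fun y => ?_)
      simp only [Real.norm_of_nonneg (hg0 y)]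
    exact h2.lintegral_lt_top
  · intro x hx y hy k hk b hb hxy hMx hMy
    have hs : 0 < (1 / 2 : ℝ) ^ k := by positivity
    obtain ⟨K, hK⟩ : ∃ K : ℝ, K = C0 * 8 ^ (p + 2) * b ^ (1 / q) := ⟨_, rfl⟩
    have hK0 : 0 ≤ K := by rw [hK]; positivity
    have hA : ∀ z ∈ ball x0 R,
        Mass (volume.withDensity fun y => ENNReal.ofReal (g y ^ q)) Θ k b z →
        ‖fderiv ℝ (F k) z - limUnder atTop fun k => fderiv ℝ (F k) z‖ ≤
          K * (1 / 2 : ℝ) ^ k * τ := by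
      intro z hz hM
      have hgeo := geo (u := fun k => fderiv ℝ (F k) z) (k := k) (K := K * (1 / 2 : ℝ) ^ k)
        (r := th / 2) (by linarith) (fun j => by
          have h1 := h.m2 (k + j) (by omega) z hz
          have h2 := hav b hb k z z hM j (by simp)
          refine h1.trans ?_
          calc _ ≤ C0 * (1 / 2 : ℝ) ^ (k + j) * (8 ^ (p + 2) * b ^ (1 / q) * th ^ j) := by
                gcongr
            _ = _ := by
                rw [hK, pow_add, div_pow th, div_pow 1 2 j]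
                ring)
      have := hgeo.2 _ hgeo.1
      rw [hτ, mul_one_div]
      exact this
    have hF : ∀ z ∈ ball x0 R,
        Mass (volume.withDensity fun y => ENNReal.ofReal (g y ^ q)) Θ k b z →
        ‖F k z - f z‖ ≤ K * ((1 / 2 : ℝ) ^ k) ^ 2 * τ := by
      intro z hz hM
      have hgeo := geo (u := fun k => F k z) (k := k) (K := K * ((1 / 2 : ℝ) ^ k) ^ 2)
        (r := th / 2) (by linarith) (fun j => by
          have h1 := h.m3 (k + j) (by omega) z hz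
          have h2 := hav b hb k z z hM j (by simp)
          refine h1.trans ?_
          have h3 : (1 / 2 : ℝ) ^ j ≤ 1 := pow_le_one₀ (by norm_num) (by norm_num)
          calc _ ≤ C0 * ((1 / 2 : ℝ) ^ (k + j)) ^ 2 * (8 ^ (p + 2) * b ^ (1 / q) * th ^ j) := by
                gcongr
            _ = K * ((1 / 2 : ℝ) ^ k) ^ 2 * (th / 2) ^ j * (1 / 2 : ℝ) ^ j := by
                rw [hK, pow_add, div_pow th, div_pow 1 2 j]
                ring
            _ ≤ K * ((1 / 2 : ℝ) ^ k) ^ 2 * (th / 2) ^ j * 1 := by gcongr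
            _ = _ := mul_one _)
      have := hgeo.2 _ (h.m4 z hz)
      rw [hτ, mul_one_div]
      exact this
    have hconv : Convex ℝ (ball x0 R ∩ closedBall x ((1 / 2 : ℝ) ^ k)) :=
      (convex_ball _ _).inter (convex_closedBall _ _)
    have hxS : x ∈ ball x0 R ∩ closedBall x ((1 / 2 : ℝ) ^ k) := ⟨hx, mem_closedBall_self hs.le⟩
    have hyx : ‖y - x‖ ≤ (1 / 2 : ℝ) ^ k := by rwa [norm_sub_rev]
    have hyS : y ∈ ball x0 R ∩ closedBall x ((1 / 2 : ℝ) ^ k) :=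
      ⟨hy, mem_closedBall_iff_norm.2 hyx⟩
    have hd1 : Differentiable ℝ (F k) := (h.cd k).differentiable (by norm_num)
    have hd2' : Differentiable ℝ (fderiv ℝ (F k)) :=
      ((h.cd k).fderiv_right (m := 1) (by norm_num)).differentiable (by norm_num)
    have hD2 : ∀ z ∈ ball x0 R ∩ closedBall x ((1 / 2 : ℝ) ^ k),
        ‖fderiv ℝ (fderiv ℝ (F k)) z‖ ≤ K := by
      intro z hz
      have h1 := h.m1 k hk z hz.1
      have hzx := mem_closedBall_iff_norm.1 hz.2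
      have h2 := hav b hb k x z hMx 0 (by simp only [add_zero]; linarith)
      simp only [add_zero, pow_zero, mul_one] at h2
      refine h1.trans ?_
      rw [hK, mul_assoc, mul_assoc]
      gcongr
    have hD1 : ∀ z ∈ ball x0 R ∩ closedBall x ((1 / 2 : ℝ) ^ k),
        ‖fderiv ℝ (F k) z - fderiv ℝ (F k) x‖ ≤ K * (1 / 2 : ℝ) ^ k := by
      intro z hz
      have h1 := hconv.norm_image_sub_le_of_norm_fderiv_le (𝕜 := ℝ) (f := fderiv ℝ (F k))
        (fun w _ => hd2' w) hD2 hxS hz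
      have hzx := mem_closedBall_iff_norm.1 hz.2
      exact h1.trans (by gcongr)
    have hT : ‖F k y - F k x - fderiv ℝ (F k) x (y - x)‖ ≤ K * ((1 / 2 : ℝ) ^ k) ^ 2 := by
      have h1 := hconv.norm_image_sub_le_of_norm_fderiv_le' (𝕜 := ℝ) (f := F k)
        (fun w _ => hd1 w) hD1 hxS hyS
      refine h1.trans ?_
      rw [sq, ← mul_assoc]
      gcongr
    have hAx := hA x hx hMx
    have hAy := hA y hy hMy
    have hFx := hF x hx hMx
    have hFy := hF y hy hMy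
    have hDy := hD1 y hyS
    unfold rem
    beta_reduce
    generalize (limUnder atTop fun k => fderiv ℝ (F k) x) = Ax at *
    generalize (limUnder atTop fun k => fderiv ℝ (F k) y) = Ay at *
    generalize (1 / 2 : ℝ) ^ k = s at *
    constructor
    · have e : Ax - Ay = (fderiv ℝ (F k) y - Ay) - (fderiv ℝ (F k) y - fderiv ℝ (F k) x) -
          (fderiv ℝ (F k) x - Ax) := by abel
      have h1 := norm_sub_le ((fderiv ℝ (F k) y - Ay) - (fderiv ℝ (F k) y - fderiv ℝ (F k) x))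
        (fderiv ℝ (F k) x - Ax)
      have h2 := norm_sub_le (fderiv ℝ (F k) y - Ay) (fderiv ℝ (F k) y - fderiv ℝ (F k) x)
      have h3 : 0 ≤ K * s * τ := by positivity
      have e2 : C0 * 8 ^ (p + 2) * (3 * τ + 1) * s * b ^ (1 / q) = 3 * (K * s * τ) + K * s := by
        rw [hK]; ring
      rw [e, e2]
      linarith
    · have e : f y - f x - Ax (y - x) = (F k y - F k x - fderiv ℝ (F k) x (y - x)) +
          (fderiv ℝ (F k) x - Ax) (y - x) + (F k x - f x) - (F k y - f y) := by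
        rw [sub_apply]
        abel
      have h0 : ‖(fderiv ℝ (F k) x - Ax) (y - x)‖ ≤ K * s ^ 2 * τ := by
        refine ((fderiv ℝ (F k) x - Ax).le_opNorm _).trans ?_
        calc _ ≤ K * s * τ * s := by gcongr
          _ = _ := by ring
      have h1 := norm_sub_le ((F k y - F k x - fderiv ℝ (F k) x (y - x)) +
          (fderiv ℝ (F k) x - Ax) (y - x) + (F k x - f x)) (F k y - f y)
      have h2 := norm_add₃_le (a := F k y - F k x - fderiv ℝ (F k) x (y - x))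
        (b := (fderiv ℝ (F k) x - Ax) (y - x)) (c := F k x - f x)
      have e2 : C0 * 8 ^ (p + 2) * (3 * τ + 1) * s ^ 2 * b ^ (1 / q) =
          3 * (K * s ^ 2 * τ) + K * s ^ 2 := by
        rw [hK]; ring
      rw [e, e2]
      linarith
  · filter_upwards [h.m5] with y hy
    exact hy.limUnder_eq

end SN

end

section

namespace SN
open Set Filter Topology MeasureTheory Metric Function
open scoped ENNReal

variable {p : ℕ}

namespace ChartExX

/-- projection onto the coordinates in J -/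
def EJ (J : Finset (Fin (p + 2))) (v : W p) : W p := fun j => if j ∈ J then v j else 0

theorem EJ_sub (J : Finset (Fin (p + 2))) (v w : W p) : EJ J v - EJ J w = EJ J (v - w) := by
  funext j
  by_cases hj : j ∈ J <;> simp [EJ, hj]

theorem norm_EJ_le (J : Finset (Fin (p + 2))) (v : W p) : ‖EJ J v‖ ≤ ‖v‖ := by
  refine (pi_norm_le_iff_of_nonneg (norm_nonneg _)).2 fun j => ?_
  by_cases hj : j ∈ J
  · simpa [EJ, hj] using norm_le_pi_norm v j
  · simp [EJ, hj]

/-- a Lipschitz perturbation of an affine isomorphism is a bi-Lipschitz bijection -/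
theorem exists_inv (R : W p ≃L[ℝ] W p) (J : Finset (Fin (p + 2))) (x0 : W p) (ht : W p → W p)
    (κ : ℝ) (hκ0 : 0 ≤ κ) (hκ : ((p : ℝ) + 2) * κ ≤ 1 / 2)
    (hR : ∀ v, ‖R v‖ ≤ ((p : ℝ) + 2) * ‖v‖) (hR' : ∀ v, ‖R.symm v‖ ≤ ((p : ℝ) + 2) * ‖v‖)
    (hh : ∀ x y, ‖ht x - ht y‖ ≤ κ * ‖x - y‖) :
    ∃ Ψ : W p → W p, LeftInverse Ψ (fun x => R.symm (x - x0) + EJ J (ht x)) ∧
      RightInverse Ψ (fun x => R.symm (x - x0) + EJ J (ht x)) ∧
      (∀ x y, ‖(R.symm (x - x0) + EJ J (ht x)) - (R.symm (y - x0) + EJ J (ht y))‖ ≤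
        LL p * ‖x - y‖) ∧
      ∀ x y, ‖Ψ x - Ψ y‖ ≤ LL p * ‖x - y‖ := by
  set Φ : W p → W p := fun x => R.symm (x - x0) + EJ J (ht x) with hΦ
  have hp : (0 : ℝ) ≤ p := Nat.cast_nonneg p
  have hE : ∀ x y, ‖EJ J (ht x) - EJ J (ht y)‖ ≤ κ * ‖x - y‖ := fun x y => by
    rw [EJ_sub]
    exact (norm_EJ_le _ _).trans (hh x y)
  have hdiff : ∀ x y, Φ x - Φ y = R.symm (x - y) + (EJ J (ht x) - EJ J (ht y)) := fun x y => by
    have : x - y = (x - x0) - (y - x0) := by abel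
    rw [this, map_sub]
    simp only [hΦ]
    abel
  have hup : ∀ x y, ‖Φ x - Φ y‖ ≤ LL p * ‖x - y‖ := fun x y => by
    rw [hdiff]
    have h1 := norm_add_le (R.symm (x - y)) (EJ J (ht x) - EJ J (ht y))
    have h2 := hR' (x - y)
    have h3 := hE x y
    have h4 : κ ≤ (p : ℝ) + 2 := by nlinarith
    have h5 := mul_le_mul_of_nonneg_right h4 (norm_nonneg (x - y))
    unfold LL
    linarith
  have hlow : ∀ x y, ‖x - y‖ ≤ LL p * ‖Φ x - Φ y‖ := fun x y => by
    have h0 : x - y = R ((Φ x - Φ y) - (EJ J (ht x) - EJ J (ht y))) := by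
      rw [hdiff]
      simp
    have h1 := hR ((Φ x - Φ y) - (EJ J (ht x) - EJ J (ht y)))
    rw [← h0] at h1
    have h2 := norm_sub_le (Φ x - Φ y) (EJ J (ht x) - EJ J (ht y))
    have h3 := hE x y
    have h4 : ((p : ℝ) + 2) * ‖Φ x - Φ y - (EJ J (ht x) - EJ J (ht y))‖ ≤
        ((p : ℝ) + 2) * (‖Φ x - Φ y‖ + κ * ‖x - y‖) :=
      mul_le_mul_of_nonneg_left (by linarith) (by linarith)
    have h5 := mul_le_mul_of_nonneg_right hκ (norm_nonneg (x - y))
    unfold LL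
    nlinarith
  have hsurj : ∀ w, ∃ x, Φ x = w := fun w => by
    let T : W p → W p := fun x => x0 + R (w - EJ J (ht x))
    have hT : ContractingWith (1 / 2 : NNReal) T := by
      refine ⟨by norm_num, LipschitzWith.of_dist_le_mul fun x y => ?_⟩
      rw [dist_eq_norm, dist_eq_norm]
      have h0 : T x - T y = R (EJ J (ht y) - EJ J (ht x)) := by
        have : EJ J (ht y) - EJ J (ht x) = (w - EJ J (ht x)) - (w - EJ J (ht y)) := by abel
        rw [this, map_sub]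
        simp only [T]
        abel
      rw [h0]
      have h1 := hR (EJ J (ht y) - EJ J (ht x))
      have h2 := hE y x
      rw [norm_sub_rev y x] at h2
      have h3 := mul_le_mul_of_nonneg_left h2 (show (0 : ℝ) ≤ (p : ℝ) + 2 by linarith)
      have h5 := mul_le_mul_of_nonneg_right hκ (norm_nonneg (x - y))
      push_cast
      nlinarith
    refine ⟨hT.fixedPoint T, ?_⟩
    have hfix : T (hT.fixedPoint T) = hT.fixedPoint T := hT.fixedPoint_isFixedPt
    set x := hT.fixedPoint T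
    have h1 : x - x0 = R (w - EJ J (ht x)) := by
      have : x = x0 + R (w - EJ J (ht x)) := hfix.symm
      rw [sub_eq_iff_eq_add']
      exact this
    simp only [hΦ]
    rw [h1]
    simp
  choose Ψ hΨ using hsurj
  refine ⟨Ψ, fun x => ?_, hΨ, hup, fun x y => ?_⟩
  · have h1 := hlow (Ψ (Φ x)) x
    rw [hΨ, sub_self, norm_zero, mul_zero] at h1
    exact sub_eq_zero.1 (norm_le_zero_iff.1 h1)
  · have h1 := hlow (Ψ x) (Ψ y)
    rwa [hΨ, hΨ] at h1

theorem det_conj (R P : W p ≃L[ℝ] W p) (B : W p →L[ℝ] W p) :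
    ((P : W p →L[ℝ] W p).comp (B.comp (R : W p →L[ℝ] W p))).det =
      ((P : W p →L[ℝ] W p).det * (R : W p →L[ℝ] W p).det) * B.det := by
  have h0 : (((P : W p →L[ℝ] W p).comp (B.comp (R : W p →L[ℝ] W p)) : W p →L[ℝ] W p) :
      W p →ₗ[ℝ] W p) = ((P : W p →L[ℝ] W p) : W p →ₗ[ℝ] W p) ∘ₗ ((B : W p →ₗ[ℝ] W p) ∘ₗ
        ((R : W p →L[ℝ] W p) : W p →ₗ[ℝ] W p)) := rfl
  unfold ContinuousLinearMap.det
  rw [h0, LinearMap.det_comp, LinearMap.det_comp]
  ring

theorem det_equiv_ne (R : W p ≃L[ℝ] W p) : (R : W p →L[ℝ] W p).det ≠ 0 :=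
  (LinearEquiv.isUnit_det' R.toLinearEquiv).ne_zero

end ChartExX

open ChartExX in
theorem exists_chart {q Θ C : ℝ} {k0 : ℕ} {ν : Measure (W p)} {O : Set (W p)} {f : W p → W p}
    {A : W p → W p →L[ℝ] W p} (h : Ctx q Θ C k0 ν O f A) (μ : ℝ) {x0 : W p}
    (hx : x0 ∈ GG ν μ ∩ O) : ∃ (ρ : ℝ) (Φ Ψ : W p → W p) (J : Finset (Fin (p + 2))) (C0 : ℝ),
      Chart (GG ν μ) O f A x0 ρ Φ Ψ J C0 ∧ J.card = rk (A x0) := by
  obtain ⟨R, P, J, hJ, hR, hR', hPBR⟩ := exists_normal (A x0)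
  choose εe hεe hcor using corank_one p
  obtain ⟨e0, -, he0⟩ := Finset.exists_min_image Finset.univ εe ⟨0, Finset.mem_univ _⟩
  have hp : (0 : ℝ) ≤ p := Nat.cast_nonneg p
  set n : ℝ := (p : ℝ) + 2 with hn
  have hn0 : 0 < n := by linarith
  set N : ℝ := ‖(P : W p →L[ℝ] W p)‖ with hN
  set N' : ℝ := ‖(P.symm : W p →L[ℝ] W p)‖ with hN'
  have hN0 : 0 ≤ N := norm_nonneg _
  have hN'0 : 0 ≤ N' := norm_nonneg _
  have hPle : ∀ v, ‖P v‖ ≤ N * ‖v‖ := fun v => (P : W p →L[ℝ] W p).le_opNorm v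
  have hP'le : ∀ v, ‖P.symm v‖ ≤ N' * ‖v‖ := fun v => (P.symm : W p →L[ℝ] W p).le_opNorm v
  have hsmall : ∀ c : ℝ, 0 < c → ∃ ε : ℝ, 0 < ε ∧ N * ε * n ≤ c := fun c hc => by
    have h1 : 0 < N * n + 1 := by positivity
    refine ⟨c / (N * n + 1), by positivity, ?_⟩
    have h2 : N * (c / (N * n + 1)) * n = c * (N * n) / (N * n + 1) := by ring
    rw [h2, div_le_iff₀ h1]
    nlinarith
  obtain ⟨ε, hε, hεc⟩ := hsmall (min (1 / 4) (εe e0)) (lt_min (by norm_num) (hεe e0))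
  have hε4 : N * ε * n ≤ 1 / 4 := hεc.trans (min_le_left _ _)
  have hεe' : ∀ e, N * ε * n ≤ εe e := fun e =>
    (hεc.trans (min_le_right _ _)).trans (he0 e (Finset.mem_univ _))
  obtain ⟨δ, hδ, huj⟩ := h.uj μ ε hε
  obtain ⟨r, hr, hrO⟩ := Metric.nhds_basis_closedBall.mem_iff.1 (h.op.mem_nhds hx.2)
  set ρ : ℝ := min r (δ / 2) with hρ
  have hρ0 : 0 < ρ := lt_min hr (by linarith)
  have hsub : closedBall x0 ρ ⊆ O := (closedBall_subset_closedBall (min_le_left _ _)).trans hrO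
  set S : Set (W p) := GG ν μ ∩ closedBall x0 ρ with hS
  have hSO : ∀ x ∈ S, x ∈ GG ν μ ∩ O := fun x hxS => ⟨hxS.1, hsub hxS.2⟩
  have hx0S : x0 ∈ S := ⟨hx.1, mem_closedBall_self hρ0.le⟩
  have hSd : ∀ x ∈ S, ∀ y ∈ S, ‖x - y‖ ≤ δ := fun x hxS y hyS => by
    have h1 := mem_closedBall.1 hxS.2
    have h2 := mem_closedBall.1 hyS.2
    have h3 := dist_triangle_right x y x0
    have h4 : ρ ≤ δ / 2 := min_le_right _ _
    rw [← dist_eq_norm]
    linarith
  have hA : ∀ x ∈ S, ‖A x - A x0‖ ≤ ε := fun x hxS =>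
    (huj x (hSO x hxS) x0 hx (hSd x hxS x0 hx0S)).1
  have hrem : ∀ x ∈ S, ∀ y ∈ S, rem f A x y ≤ ε * ‖x - y‖ := fun x hxS y hyS =>
    (huj x (hSO x hxS) y (hSO y hyS) (hSd x hxS y hyS)).2
  have hAv : ∀ x ∈ S, ∀ v, ‖A x v - A x0 v‖ ≤ ε * ‖v‖ := fun x hxS v => by
    have h1 := (A x - A x0).le_opNorm v
    exact h1.trans (mul_le_mul_of_nonneg_right (hA x hxS) (norm_nonneg _))
  let g : W p → W p := fun x => P (f x - f x0) - P (A x0 (x - x0))
  have hκ0 : 0 ≤ 2 * N * ε := by positivity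
  have hg : LipschitzOnWith ⟨2 * N * ε, hκ0⟩ g S := by
    refine LipschitzOnWith.of_dist_le_mul fun y hyS x hxS => ?_
    rw [dist_eq_norm, dist_eq_norm]
    have h0 : g y - g x = P (f y - f x - A x (y - x)) + P (A x (y - x) - A x0 (y - x)) := by
      simp only [g, map_sub]
      abel
    rw [h0]
    have h1 := norm_add_le (P (f y - f x - A x (y - x))) (P (A x (y - x) - A x0 (y - x)))
    have h2 := hPle (f y - f x - A x (y - x))
    have h3 := hPle (A x (y - x) - A x0 (y - x))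
    have h4 : ‖f y - f x - A x (y - x)‖ ≤ ε * ‖y - x‖ := by
      have := hrem x hxS y hyS
      rwa [norm_sub_rev x y] at this
    have h5 := hAv x hxS (y - x)
    have h6 := mul_le_mul_of_nonneg_left h4 hN0
    have h7 := mul_le_mul_of_nonneg_left h5 hN0
    change _ ≤ 2 * N * ε * ‖y - x‖
    nlinarith
  obtain ⟨ht, hht, hgt⟩ := hg.extend_pi
  have hh : ∀ x y, ‖ht x - ht y‖ ≤ 2 * N * ε * ‖x - y‖ := fun x y => by
    have := hht.dist_le_mul x y
    rwa [dist_eq_norm, dist_eq_norm] at this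
  obtain ⟨Ψ, hli, hri, hlΦ, hlΨ⟩ := exists_inv R J x0 ht (2 * N * ε) hκ0 (by nlinarith) hR hR' hh
  set Φ : W p → W p := fun x => R.symm (x - x0) + EJ J (ht x) with hΦ
  have hΦin : ∀ x ∈ S, ∀ j ∈ J, Φ x j = P (f x - f x0) j := fun x hxS j hj => by
    have h1 := congrFun (hPBR (R.symm (x - x0))) j
    rw [R.apply_symm_apply, if_pos hj] at h1
    have h2 : ht x = g x := (hgt hxS).symm
    simp only [hΦ, Pi.add_apply, EJ, if_pos hj, h2, g, Pi.sub_apply, h1]
    ring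
  have hΦout : ∀ x, ∀ j ∉ J, Φ x j = R.symm (x - x0) j := fun x j hj => by
    simp only [hΦ, Pi.add_apply, EJ, if_neg hj, add_zero]
  have hzero : ∀ x ∈ S, ∀ y ∈ S, (∀ j ∈ J, Φ x j = Φ y j) → ∀ j ∈ J, P (f y - f x) j = 0 :=
    fun x hxS y hyS hxy j hj => by
      have h1 := hxy j hj
      rw [hΦin x hxS j hj, hΦin y hyS j hj] at h1
      have h2 : f y - f x = (f y - f x0) - (f x - f x0) := by abel
      rw [h2, map_sub, Pi.sub_apply, h1, sub_self]
  let M : W p → W p →L[ℝ] W p := fun y =>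
    (P : W p →L[ℝ] W p).comp ((A y).comp (R : W p →L[ℝ] W p))
  have hMv : ∀ y v, M y v = P (A y (R v)) := fun y v => rfl
  have hM : ∀ y ∈ S, ∀ v, ‖M y v - fun j => if j ∈ J then v j else 0‖ ≤ N * ε * n * ‖v‖ :=
    fun y hyS v => by
      rw [← hPBR, hMv, ← map_sub]
      have h1 := hPle (A y (R v) - A x0 (R v))
      have h2 := hAv y hyS (R v)
      have h3 := mul_le_mul_of_nonneg_left (hR v) hε.le
      have h4 := mul_le_mul_of_nonneg_left (h2.trans h3) hN0
      nlinarith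
  have hMhalf : ∀ y ∈ S, ∀ v, ‖M y v - fun j => if j ∈ J then v j else 0‖ ≤ 1 / 2 * ‖v‖ :=
    fun y hyS v => (hM y hyS v).trans
      (mul_le_mul_of_nonneg_right (by linarith) (norm_nonneg _))
  have hdec : ∀ x y, M x (R.symm (y - x)) = P (f y - f x) - P (f y - f x - A x (y - x)) :=
    fun x y => by
      rw [hMv, R.apply_symm_apply, ← map_sub]
      congr 1
      abel
  refine ⟨ρ, Φ, Ψ, J, 4 * N' * N, ⟨hρ0, hsub, hli, hri, hlΦ, hlΨ, by positivity, ?_, ?_, ?_⟩, hJ⟩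
  · intro y hyS
    have h1 := (normal_near J (M y) (hMhalf y hyS)).1
    rwa [rk_conj] at h1
  · intro x hxS y hyS hrk hxy
    have h1 := (normal_near J (M x) (hMhalf x hxS)).2 (by rw [rk_conj]; exact hrk)
      (R.symm (y - x))
    have h2 : (fun j => if j ∈ J then M x (R.symm (y - x)) j else 0) =
        EJ J (-P (f y - f x - A x (y - x))) := by
      funext j
      by_cases hj : j ∈ J
      · simp only [EJ, if_pos hj]
        rw [hdec, Pi.sub_apply, hzero x hxS y hyS hxy j hj, Pi.neg_apply, zero_sub]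
      · simp only [EJ, if_neg hj]
    rw [h2] at h1
    have h3 := norm_EJ_le J (-P (f y - f x - A x (y - x)))
    rw [norm_neg] at h3
    have h4 := hPle (f y - f x - A x (y - x))
    have h5 : P (f y - f x) = M x (R.symm (y - x)) + P (f y - f x - A x (y - x)) := by
      rw [hdec]
      abel
    have h6 := norm_add_le (M x (R.symm (y - x))) (P (f y - f x - A x (y - x)))
    rw [← h5] at h6
    have h7 := hP'le (P (f y - f x))
    rw [P.symm_apply_apply] at h7
    have h8 : ‖P (f y - f x)‖ ≤ 4 * (N * ‖f y - f x - A x (y - x)‖) := by linarith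
    have h9 := mul_le_mul_of_nonneg_left h8 hN'0
    unfold rem
    nlinarith
  · intro e hJe
    have heJ : e ∉ J := by rw [hJe]; simp
    have hmem : ∀ j, j ≠ e → j ∈ J := fun j hj => by rw [hJe]; simp [hj]
    have hsingle : ∀ x ∈ S, ∀ y ∈ S, (∀ j ∈ J, Φ x j = Φ y j) →
        P (f y - f x) = Pi.single e (P (f y - f x) e) := fun x hxS y hyS hxy => by
      funext j
      by_cases hj : j = e
      · subst hj
        simp
      · rw [Pi.single_eq_of_ne hj]
        exact hzero x hxS y hyS hxy j (hmem j hj)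
    let φ : W p →L[ℝ] ℝ := (ContinuousLinearMap.proj e).comp (P : W p →L[ℝ] W p)
    have hφ : ∀ x y, φ (f y) - φ (f x) = P (f y - f x) e := fun x y => by
      rw [← map_sub]
      rfl
    refine ⟨φ, (P : W p →L[ℝ] W p).det * (R : W p →L[ℝ] W p).det,
      mul_ne_zero (det_equiv_ne P) (det_equiv_ne R), ?_, ?_⟩
    · intro x hxS y hyS hxy hφxy
      have h1 := hsingle x hxS y hyS hxy
      rw [← hφ, hφxy, sub_self, Pi.single_zero] at h1
      have h2 : f y - f x = 0 := P.injective (by rw [h1, map_zero])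
      exact (sub_eq_zero.1 h2).symm
    · intro x hxS hdet
      have hdM : (M x).det =
          ((P : W p →L[ℝ] W p).det * (R : W p →L[ℝ] W p).det) * (A x).det := det_conj R P (A x)
      have hM' : ∀ v, ‖M x v - fun j => if j = e then 0 else v j‖ ≤ εe e * ‖v‖ := fun v => by
        have h1 : (fun j => if j = e then 0 else v j) = fun j => if j ∈ J then v j else 0 := by
          funext j
          by_cases hj : j = e
          · rw [if_pos hj, hj, if_neg heJ]
          · rw [if_neg hj, if_pos (hmem j hj)]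
        rw [h1]
        exact (hM x hxS v).trans (mul_le_mul_of_nonneg_right (hεe' e) (norm_nonneg _))
      obtain ⟨η, hη, hcone⟩ := hcor e (M x) hM' (by
        rw [hdM]
        exact mul_ne_zero (mul_ne_zero (det_equiv_ne P) (det_equiv_ne R)) hdet)
      obtain ⟨ε', hε', hε'c⟩ := hsmall η hη
      obtain ⟨δ', hδ', huj'⟩ := h.uj μ ε' hε'
      refine ⟨δ', hδ', fun y hyS hyx hne hxy => ?_⟩
      have hv0 : R.symm (y - x) ≠ 0 := fun h0 =>
        hne (sub_eq_zero.1 (R.symm.injective (by rw [h0, map_zero])))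
      have h1 := (huj' x (hSO x hxS) y (hSO y hyS) (by rwa [norm_sub_rev])).2
      have h2 := hR (R.symm (y - x))
      rw [R.apply_symm_apply] at h2
      have h3 : ‖M x (R.symm (y - x)) - Pi.single e (P (f y - f x) e)‖ ≤
          η * ‖R.symm (y - x)‖ := by
        rw [← hsingle x hxS y hyS hxy, hdec, sub_sub_cancel_left, norm_neg]
        have h4 := hPle (f y - f x - A x (y - x))
        unfold rem at h1
        rw [norm_sub_rev x y] at h1
        have h5 := mul_le_mul_of_nonneg_left h2 hε'.le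
        have h6 := mul_le_mul_of_nonneg_left (h1.trans h5) hN0
        have h7 := mul_le_mul_of_nonneg_right hε'c (norm_nonneg (R.symm (y - x)))
        nlinarith
      have h4 := hcone _ _ hv0 h3
      have h5 : Φ y e - Φ x e = R.symm (y - x) e := by
        rw [hΦout y e heJ, hΦout x e heJ, ← Pi.sub_apply, ← map_sub, sub_sub_sub_cancel_right]
      rw [h5, hφ, ← hdM]
      exact h4

end SN

end

section

namespace SN
open Set Filter Topology MeasureTheory Metric Function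
open scoped ENNReal

variable {p : ℕ}

namespace NonZeroX

theorem step {q Θ C : ℝ} {k0 : ℕ} {ν : Measure (W p)} {O : Set (W p)} {f : W p → W p}
    {A : W p → W p →L[ℝ] W p} (h : Ctx q Θ C k0 ν O f A) {lam : ℝ} (hlam : 0 < lam) {y : W p}
    (hy : y ∈ GG ν lam ∩ O) {δ : ℝ} (hδ : 0 < δ) (hr : rk (A y) < p + 2) :
    ∃ z ∈ GG ν (KK p * lam) ∩ O, ‖z - y‖ < δ ∧ rk (A y) < rk (A z) := by
  have hK : lam ≤ KK p * lam := le_mul_of_one_le_left hlam.le (one_le_KK p)
  obtain ⟨ρ, Φ, Ψ, J, C0, hc, hJ⟩ := exists_chart h (KK p * lam) ⟨GG_mono hK hy.1, hy.2⟩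
  obtain ⟨e, he⟩ : ∃ e, e ∉ J := by
    by_contra hn
    push Not at hn
    rw [Finset.eq_univ_iff_forall.2 hn, Finset.card_univ, Fintype.card_fin] at hJ
    omega
  obtain ⟨i, hi⟩ := exists_ne e
  have hL := LL_pos p
  have hm : 0 < min ρ δ := lt_min hc.rpos hδ
  obtain ⟨s, hs, hLs⟩ : ∃ s : ℝ, 0 < s ∧ LL p * s = min ρ δ :=
    ⟨min ρ δ / LL p, div_pos hm hL, mul_div_cancel₀ _ hL.ne'⟩
  have h1 := shadow_ball ν Φ hlam hs hc.lipΦ hy.1 hi (Φ y)
  obtain ⟨w, hw, hw'⟩ : ∃ w ∈ ball (Φ y) s, ∀ z ∈ ball y (LL p * s),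
      (∀ j, j ≠ i → j ≠ e → Φ z j = w j) → z ∈ GG ν (KK p * lam) := by
    by_contra hn
    push Not at hn
    have h2 := (measure_mono (μ := volume) (s := ball (Φ y) s) fun w hw => by
      obtain ⟨z, h3, h4, h5⟩ := hn w hw
      exact ⟨hw, z, h3, h5, h4⟩).trans h1
    rw [Real.volume_pi_ball _ hs, Fintype.card_fin,
      ENNReal.ofReal_le_ofReal_iff (by positivity), le_div_iff₀ (by positivity)] at h2
    have h3 : (0 : ℝ) < (2 * s) ^ (p + 2) := by positivity
    have h4 : (1 : ℝ) ≤ 2 ^ (p + 4) := one_le_pow₀ (by norm_num)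
    have h5 : (0 : ℝ) ≤ p := Nat.cast_nonneg p
    have h6 : (2 : ℝ) ≤ ((p : ℝ) + 2) * 2 ^ (p + 4) := by nlinarith
    nlinarith
  have h2 : ∀ t ∈ Icc (Φ y e - s / 2) (Φ y e + s / 2),
      ‖Ψ (update w e t) - y‖ < min ρ δ := by
    intro t ht
    have h3 : ‖update w e t - Φ y‖ < s := by
      rw [pi_norm_lt_iff hs]
      intro j
      by_cases hj : j = e
      · subst hj
        rw [Pi.sub_apply, update_self, Real.norm_eq_abs, abs_lt]
        constructor <;> linarith [ht.1, ht.2]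
      · rw [Pi.sub_apply, update_of_ne hj]
        exact (norm_le_pi_norm (w - Φ y) j).trans_lt (mem_ball_iff_norm.1 hw)
    have h4 := hc.lipΨ (update w e t) (Φ y)
    rw [hc.li y] at h4
    exact h4.trans_lt (hLs ▸ mul_lt_mul_of_pos_left h3 hL)
  have h3 : ∀ t ∈ Icc (Φ y e - s / 2) (Φ y e + s / 2),
      Ψ (update w e t) ∈ GG ν (KK p * lam) ∩ closedBall y ρ := fun t ht =>
    ⟨hw' _ (mem_ball_iff_norm.2 (hLs ▸ h2 t ht)) fun j _ hj => by rw [hc.ri, update_of_ne hj],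
      mem_closedBall_iff_norm.2 ((h2 t ht).le.trans (min_le_left _ _))⟩
  obtain ⟨t, ht, h4⟩ := arc h hc he w (by linarith) h3
  exact ⟨_, ⟨(h3 t ht).1, hc.sub (h3 t ht).2⟩, (h2 t ht).trans_le (min_le_right _ _), hJ ▸ h4⟩

theorem ind {q Θ C : ℝ} {k0 : ℕ} {ν : Measure (W p)} {O : Set (W p)} {f : W p → W p}
    {A : W p → W p →L[ℝ] W p} (h : Ctx q Θ C k0 ν O f A) (d : ℕ) : ∀ (lam : ℝ), 0 < lam →
    ∀ y ∈ GG ν lam ∩ O, ∀ δ : ℝ, 0 < δ → p + 2 ≤ rk (A y) + d →
    ∃ z ∈ GG ν (KK p ^ d * lam) ∩ O, ‖z - y‖ < δ ∧ (A z).det ≠ 0 := by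
  have h0 : ∀ (d : ℕ) (lam : ℝ), 0 < lam → ∀ y ∈ GG ν lam ∩ O, ∀ δ : ℝ, 0 < δ →
      p + 2 ≤ rk (A y) → ∃ z ∈ GG ν (KK p ^ d * lam) ∩ O, ‖z - y‖ < δ ∧ (A z).det ≠ 0 :=
    fun d lam hlam y hy δ hδ hr =>
      ⟨y, ⟨GG_mono (le_mul_of_one_le_left hlam.le (one_le_pow₀ (one_le_KK p))) hy.1, hy.2⟩,
        by simpa using hδ, (rk_eq_iff _).1 (le_antisymm (rk_le _) hr)⟩
  induction d with
  | zero => exact fun lam hlam y hy δ hδ hr => h0 0 lam hlam y hy δ hδ hr
  | succ d ih =>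
    intro lam hlam y hy δ hδ hr
    rcases le_or_gt (p + 2) (rk (A y)) with h1 | h1
    · exact h0 _ lam hlam y hy δ hδ h1
    obtain ⟨x, hx, h2, h3⟩ := step h hlam hy (half_pos hδ) h1
    obtain ⟨z, hz, h4, h5⟩ := ih _ (mul_pos (one_pos.trans_le (one_le_KK p)) hlam) x hx _
      (half_pos hδ) (by omega)
    refine ⟨z, by rwa [pow_succ, mul_assoc], ?_, h5⟩
    have := norm_sub_le_norm_sub_add_norm_sub z x y
    linarith

end NonZeroX

theorem exists_nz {q Θ C : ℝ} {k0 : ℕ} {ν : Measure (W p)} {O : Set (W p)} {f : W p → W p}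
    {A : W p → W p →L[ℝ] W p} (h : Ctx q Θ C k0 ν O f A) {lam : ℝ} (hlam : 0 < lam) {y : W p}
    (hy : y ∈ GG ν lam ∩ O) {δ : ℝ} (hδ : 0 < δ) :
    ∃ z ∈ GG ν (KK p ^ (p + 2) * lam) ∩ O, ‖z - y‖ < δ ∧ (A z).det ≠ 0 :=
  NonZeroX.ind h (p + 2) lam hlam y hy δ hδ (Nat.le_add_left _ _)

theorem pure_uniq {q Θ C : ℝ} {k0 : ℕ} {ν : Measure (W p)} {O : Set (W p)} {f : W p → W p}
    {A : W p → W p →L[ℝ] W p} (h : Ctx q Θ C k0 ν O f A) {lam : ℝ} (hlam : 0 < lam) {y : W p}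
    (hy : y ∈ GG ν lam ∩ O) (h1 : Pure ν A true y) (h2 : Pure ν A false y) : False := by
  obtain ⟨δ1, p1, h1⟩ := h1 (KK p ^ (p + 2) * lam)
  obtain ⟨δ2, p2, h2⟩ := h2 (KK p ^ (p + 2) * lam)
  obtain ⟨z, hz, h3, h4⟩ := exists_nz h hlam hy (lt_min p1 p2)
  have h5 := h1 z hz.1 (h3.trans_le (min_le_left _ _))
  have h6 := h2 z hz.1 (h3.trans_le (min_le_right _ _))
  simp only [sg, if_true, Bool.false_eq_true, if_false] at h5 h6
  exact h4 (by linarith)

theorem pure_open {q Θ C : ℝ} {k0 : ℕ} {ν : Measure (W p)} {O : Set (W p)} {f : W p → W p}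
    {A : W p → W p →L[ℝ] W p} (h : Ctx q Θ C k0 ν O f A) {lam : ℝ} (hlam : 0 < lam) {y : W p}
    {b : Bool} (h1 : Pure ν A b y) : ∃ δ : ℝ, 0 < δ ∧ ∀ z ∈ GG ν lam ∩ O, ‖z - y‖ < δ →
      ∀ b', Pure ν A b' z → b' = b := by
  obtain ⟨δ1, p1, h1⟩ := h1 (KK p ^ (p + 2) * lam)
  refine ⟨δ1 / 2, half_pos p1, fun x hx h2 b' h3 => ?_⟩
  obtain ⟨δ2, p2, h3⟩ := h3 (KK p ^ (p + 2) * lam)
  obtain ⟨z, hz, h4, h5⟩ := exists_nz h hlam hx (lt_min (half_pos p1) p2)
  have h6 := h1 z hz.1 (by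
    have := norm_sub_le_norm_sub_add_norm_sub z x y
    have := h4.trans_le (min_le_left _ _)
    linarith)
  have h7 := h3 z hz.1 (h4.trans_le (min_le_right _ _))
  by_contra hne
  apply h5
  cases b <;> cases b' <;>
    simp only [sg, if_true, Bool.false_eq_true, if_false, not_true] at h6 h7 hne <;> linarith

theorem pure_of_det {q Θ C : ℝ} {k0 : ℕ} {ν : Measure (W p)} {O : Set (W p)} {f : W p → W p}
    {A : W p → W p →L[ℝ] W p} (h : Ctx q Θ C k0 ν O f A) {lam : ℝ} {y : W p}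
    (hy : y ∈ GG ν lam ∩ O) {b : Bool} (hd : 0 < sg b * (A y).det) : Pure ν A b y := by
  intro lam'
  have h1 : ContinuousWithinAt (fun z => sg b * (A z).det) (GG ν (max lam lam') ∩ O) y :=
    continuousWithinAt_const.mul (ContinuousLinearMap.continuous_det.continuousAt.comp_continuousWithinAt
      (h.contA _ y ⟨GG_mono (le_max_left _ _) hy.1, hy.2⟩))
  obtain ⟨δ1, p1, h2⟩ := Metric.mem_nhdsWithin_iff.1 (h1.eventually (lt_mem_nhds hd))
  obtain ⟨δ2, p2, h3⟩ := Metric.isOpen_iff.1 h.op y hy.2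
  refine ⟨min δ1 δ2, lt_min p1 p2, fun z hz h4 => le_of_lt (h2 ⟨mem_ball_iff_norm.2
    (h4.trans_le (min_le_left _ _)), GG_mono (le_max_right _ _) hz,
    h3 (mem_ball_iff_norm.2 (h4.trans_le (min_le_right _ _)))⟩)⟩

end SN

end

section

namespace SN
open Set Filter Topology MeasureTheory Metric Function
open scoped ENNReal

variable {p : ℕ}

namespace LocSignX

theorem exists_mem (c : W p) {s : ℝ} (hs : 0 < s) {S1 S2 : Set (W p)}
    (h1 : volume (ball c s \ S1) ≤ ENNReal.ofReal ((2 * s) ^ (p + 2) / 4))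
    (h2 : volume (ball c s \ S2) ≤ ENNReal.ofReal ((2 * s) ^ (p + 2) / 4)) :
    ∃ w, w ∈ S1 ∧ w ∈ S2 ∧ w ∈ ball c s := by
  by_contra hn
  have hsub : ball c s ⊆ (ball c s \ S1) ∪ (ball c s \ S2) := fun w hw => by
    by_cases a : w ∈ S1
    · exact Or.inr ⟨hw, fun b => hn ⟨w, a, b, hw⟩⟩
    · exact Or.inl ⟨hw, a⟩
  have h3 := (measure_mono (μ := volume) hsub).trans ((measure_union_le _ _).trans
    (add_le_add h1 h2))
  have hp : 0 < (2 * s) ^ (p + 2) := by positivity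
  rw [Real.volume_pi_ball c hs, Fintype.card_fin,
    ← ENNReal.ofReal_add (by positivity) (by positivity),
    ENNReal.ofReal_le_ofReal_iff (by positivity)] at h3
  linarith

theorem small1 {s : ℝ} (hs : 0 < s) :
    ENNReal.ofReal ((2 * s) ^ (p + 2) / 2 ^ (p + 4)) ≤ ENNReal.ofReal ((2 * s) ^ (p + 2) / 4) := by
  refine ENNReal.ofReal_le_ofReal (div_le_div_of_nonneg_left (by positivity) (by norm_num) ?_)
  calc (4 : ℝ) = 2 ^ 2 := by norm_num
    _ ≤ _ := pow_le_pow_right₀ one_le_two (by omega)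

theorem small2 (s : ℝ) :
    ENNReal.ofReal ((2 * (2 * s)) ^ (p + 2) / 2 ^ (p + 4)) =
      ENNReal.ofReal ((2 * s) ^ (p + 2) / 4) := by
  congr 1
  rw [mul_pow 2 (2 * s), show p + 4 = p + 2 + 2 by omega, pow_add (2 : ℝ) (p + 2) 2]
  field_simp
  ring

theorem update_mem {c w : W p} {s : ℝ} (hw : w ∈ ball c s) (e : Fin (p + 2)) {t : ℝ}
    (ht : |t - c e| < s) : update w e t ∈ ball c s := by
  have hs : 0 < s := (abs_nonneg _).trans_lt ht
  rw [mem_ball, dist_pi_lt_iff hs] at hw ⊢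
  intro j
  by_cases hj : j = e
  · subst hj; rw [update_self, Real.dist_eq]; exact ht
  · rw [update_of_ne hj]; exact hw j

/-- the conclusion of one_scale -/
def OK (ν : Measure (W p)) (lam ρ : ℝ) (x0 : W p) (Φ Ψ : W p → W p) (Ob : Bool → Set (W p))
    (e : Fin (p + 2)) (x : W p) (s : ℝ) (b : Bool) : Prop :=
  volume (ball (Φ x) s \
      SS Ψ (GG ν (KK p * lam) ∩ ball x0 (ρ / 2)) (Ob (!b)) e (ball (Φ x) s)) ≤
    ENNReal.ofReal ((2 * s) ^ (p + 2) / 2 ^ (p + 4))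

theorem up {ν : Measure (W p)} {lam ρ : ℝ} (hlam : 0 < lam) (hρ : 0 < ρ) {x0 y : W p}
    (hy : y ∈ GG ν (KK p * lam) ∩ ball x0 (ρ / 2)) :
    y ∈ GG ν (KK p * (KK p * lam)) ∩ closedBall x0 ρ := by
  have h1 := one_le_KK p
  refine ⟨GG_mono (le_mul_of_one_le_left (by positivity) h1) hy.1, ?_⟩
  exact ball_subset_closedBall (ball_subset_ball (by linarith) hy.2)

theorem compat {q Θ C : ℝ} {k0 : ℕ} {ν : Measure (W p)} {O : Set (W p)} {f : W p → W p}
    {A : W p → W p →L[ℝ] W p} (h : Ctx q Θ C k0 ν O f A) {lam ρ C0 : ℝ} (hlam : 0 < lam)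
    {x0 : W p} {Φ Ψ : W p → W p} {J : Finset (Fin (p + 2))}
    (hc : Chart (GG ν (KK p * (KK p * lam))) O f A x0 ρ Φ Ψ J C0) {Ob : Bool → Set (W p)}
    (hcol : Col (GG ν (KK p * (KK p * lam))) A J.card x0 ρ Ob) {e : Fin (p + 2)} (he : e ∉ J)
    {x x' : W p} {s : ℝ} (hs : 0 < s) {b b' : Bool} (h1 : OK ν lam ρ x0 Φ Ψ Ob e x s b)
    (h2 : OK ν lam ρ x0 Φ Ψ Ob e x' (2 * s) b') (hb : ball (Φ x) s ⊆ ball (Φ x') (2 * s)) :
    b = b' := by
  unfold OK at h1 h2
  rw [small2] at h2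
  obtain ⟨w, w1, w2, hw⟩ := exists_mem (Φ x) hs (h1.trans (small1 hs))
    ((measure_mono (sdiff_subset_sdiff_left hb)).trans h2)
  have hm : ∀ t ∈ Icc (Φ x e - s / 2) (Φ x e + s / 2), update w e t ∈ ball (Φ x) s :=
    fun t ht => update_mem hw e (abs_lt.2 ⟨by linarith [ht.1], by linarith [ht.2]⟩)
  obtain ⟨t, ht, hr⟩ := arc h hc he w (by linarith : Φ x e - s / 2 < Φ x e + s / 2)
    fun t ht => up hlam hc.rpos (w1.2 t (hm t ht)).1
  have a1 := w1.2 t (hm t ht)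
  have a2 := w2.2 t (hb (hm t ht))
  have a3 := hcol.cover _ (up hlam hc.rpos a1.1) hr
  cases b <;> cases b' <;> simp_all

end LocSignX

open LocSignX in
theorem local_sign {q Θ C : ℝ} {k0 : ℕ} {ν : Measure (W p)} {O : Set (W p)} {f : W p → W p}
    {A : W p → W p →L[ℝ] W p} (h : Ctx q Θ C k0 ν O f A) {lam ρ C0 : ℝ} (hlam : 0 < lam)
    {x0 : W p} {Φ Ψ : W p → W p} {J : Finset (Fin (p + 2))}
    (hc : Chart (GG ν (KK p * (KK p * lam))) O f A x0 ρ Φ Ψ J C0) {Ob : Bool → Set (W p)}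
    (hcol : Col (GG ν (KK p * (KK p * lam))) A J.card x0 ρ Ob) {e : Fin (p + 2)} (he : e ∉ J) :
    ∃ δ : ℝ, 0 < δ ∧ ∀ x ∈ GG ν lam ∩ ball x0 δ, ∀ x' ∈ GG ν lam ∩ ball x0 δ,
      0 < (A x).det → (A x').det < 0 → False := by
  have hρ := hc.rpos
  have hL := LL_pos p
  have hK := one_le_KK p
  set s0 : ℝ := ρ / (8 * LL p) with hs0
  have s0p : 0 < s0 := by positivity
  have e0 : LL p * s0 = ρ / 8 := by rw [hs0]; field_simp
  set δ : ℝ := min (ρ / 4) (s0 / (2 * LL p)) with hδ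
  have δ1 : δ ≤ ρ / 4 := min_le_left _ _
  have δ2 : LL p * (2 * δ) ≤ s0 := by
    have := (le_div_iff₀ (by positivity)).1 (min_le_right (ρ / 4) (s0 / (2 * LL p)))
    linarith
  have hex : ∀ x ∈ GG ν lam ∩ ball x0 δ, ∀ s, 0 < s → s ≤ 2 * s0 →
      ∃ b, OK ν lam ρ x0 Φ Ψ Ob e x s b := by
    intro x hx s hs hs'
    refine one_scale h hlam hc hcol he hx.1 hs (ball_subset_ball' ?_)
    have h1 := mem_ball.1 hx.2
    have h2 : LL p * s ≤ LL p * (2 * s0) := mul_le_mul_of_nonneg_left hs' hL.le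
    linarith
  have key : ∀ x ∈ GG ν lam ∩ ball x0 δ, ∀ be b, 0 < sg be * (A x).det →
      OK ν lam ρ x0 Φ Ψ Ob e x s0 b → b = be := by
    intro x hx be b hd hb
    have hall : ∀ k : ℕ, OK ν lam ρ x0 Φ Ψ Ob e x (s0 * (1 / 2) ^ k) b := by
      intro k
      induction k with
      | zero => simpa using hb
      | succ k ih =>
        have p1 : 0 < s0 * (1 / 2 : ℝ) ^ (k + 1) := by positivity
        have p2 : (1 / 2 : ℝ) ^ (k + 1) ≤ 1 := pow_le_one₀ (by norm_num) (by norm_num)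
        obtain ⟨b', hb'⟩ := hex x hx _ p1 (by nlinarith)
        have e1 : s0 * (1 / 2 : ℝ) ^ k = 2 * (s0 * (1 / 2) ^ (k + 1)) := by ring
        rw [e1] at ih
        rwa [compat h hlam hc hcol he p1 hb' ih (ball_subset_ball (by linarith))] at hb'
    have hxO : x ∈ GG ν (KK p * lam) ∩ O :=
      ⟨GG_mono (le_mul_of_one_le_left hlam.le hK) hx.1,
        hc.sub (ball_subset_closedBall (ball_subset_ball (by linarith) hx.2))⟩
    have hcont : ContinuousOn (fun y => sg be * (A y).det) (GG ν (KK p * lam) ∩ O) :=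
      continuousOn_const.mul
        (ContinuousLinearMap.continuous_det.comp_continuousOn (h.contA (KK p * lam)))
    obtain ⟨η, hη, hη'⟩ := Metric.continuousOn_iff.1 hcont x hxO _ hd
    obtain ⟨k, hk⟩ := exists_pow_lt_of_lt_one (by positivity : 0 < η / (LL p * s0))
      (by norm_num : (1 / 2 : ℝ) < 1)
    have p1 : 0 < s0 * (1 / 2 : ℝ) ^ k := by positivity
    have hk' := (lt_div_iff₀ (by positivity)).1 hk
    obtain ⟨w, w1, -, hw⟩ := exists_mem (Φ x) p1 ((hall k).trans (small1 p1))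
      ((hall k).trans (small1 p1))
    have a1 := w1.2 (w e) (by rwa [update_eq_self])
    rw [update_eq_self] at a1
    have a2 := up hlam hρ a1.1
    have a3 : dist (Ψ w) x < η := by
      have b1 := hc.lipΨ w (Φ x)
      rw [hc.li x] at b1
      have b2 := mul_le_mul_of_nonneg_left (mem_ball_iff_norm.1 hw).le hL.le
      rw [dist_eq_norm]
      linarith
    have a4 := hη' (Ψ w) ⟨a1.1.1, hc.sub a2.2⟩ a3
    rw [Real.dist_eq] at a4
    have a5 := hcol.sgn be _ a2 (by linarith [(abs_lt.1 a4).1])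
    have a6 := a1.2
    cases b <;> cases be <;> simp_all
  refine ⟨δ, by positivity, fun x hx x' hx' d1 d2 => ?_⟩
  obtain ⟨b, hb⟩ := hex x hx s0 s0p (by linarith)
  obtain ⟨b', hb'⟩ := hex x' hx' s0 s0p (by linarith)
  obtain ⟨b2, hb2⟩ := hex x' hx' (2 * s0) (by positivity) le_rfl
  have c1 := compat h hlam hc hcol he s0p hb' hb2 (ball_subset_ball (by linarith))
  have c2 := compat h hlam hc hcol he s0p hb hb2 (ball_subset_ball' (by
    have b1 := hc.lipΦ x x'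
    have b2 : ‖x - x'‖ ≤ 2 * δ := by
      rw [← dist_eq_norm]
      linarith [dist_triangle_right x x' x0, mem_ball.1 hx.2, mem_ball.1 hx'.2]
    have b3 := mul_le_mul_of_nonneg_left b2 hL.le
    rw [dist_eq_norm]
    linarith))
  have c3 := key x hx true b (by simpa [sg] using d1) hb
  have c4 := key x' hx' false b' (by simpa [sg] using d2) hb'
  rw [← c1, c3, c4] at c2
  exact Bool.noConfusion c2

end SN

end

section

namespace SN
open Set Filter Topology MeasureTheory Metric Function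
open scoped ENNReal

variable {p : ℕ}

namespace AllPureX

theorem pure_of_ne {q Θ C : ℝ} {k0 : ℕ} {ν : Measure (W p)} {O : Set (W p)} {f : W p → W p}
    {A : W p → W p →L[ℝ] W p} (h : Ctx q Θ C k0 ν O f A) {lam : ℝ} {y : W p}
    (hy : y ∈ GG ν lam ∩ O) (hd : (A y).det ≠ 0) : ∃ b, Pure ν A b y := by
  rcases lt_or_gt_of_ne hd with h1 | h1
  · exact ⟨false, pure_of_det h hy (by simpa [sg] using h1)⟩
  · exact ⟨true, pure_of_det h hy (by simpa [sg] using h1)⟩

theorem col_of {q Θ C : ℝ} {k0 : ℕ} {ν : Measure (W p)} {O : Set (W p)} {f : W p → W p}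
    {A : W p → W p →L[ℝ] W p} (h : Ctx q Θ C k0 ν O f A) {μ : ℝ} (hμ : 0 < μ) {r : ℕ}
    (hr : r < p + 2) (ih : ∀ z ∈ GG ν μ ∩ O, r < rk (A z) → ∃ b, Pure ν A b z) {y : W p}
    {ρ : ℝ} (hsub : closedBall y ρ ⊆ O) :
    Col (GG ν μ) A r y ρ fun b => {z | z ∈ GG ν μ ∩ O ∧ r < rk (A z) ∧ Pure ν A b z} where
  disj z h1 h2 := pure_uniq h hμ h1.1 h1.2.2 h2.2.2
  opn b z hz _ := by
    obtain ⟨δ1, hδ1, h1⟩ := pure_open h hμ hz.2.2
    have h2 : ∀ᶠ w in 𝓝[GG ν μ ∩ O] z, rk (A z) ≤ rk (A w) :=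
      (h.contA μ z hz.1).eventually (rk_lsc (A z))
    obtain ⟨δ2, hδ2, h3⟩ := Metric.mem_nhdsWithin_iff.1 h2
    refine ⟨min δ1 δ2, lt_min hδ1 hδ2, fun w hw hwz => ?_⟩
    have hw' : w ∈ GG ν μ ∩ O := ⟨hw.1, hsub hw.2⟩
    have h4 : r < rk (A w) := hz.2.1.trans_le
      (h3 ⟨mem_ball_iff_norm.2 (hwz.trans_le (min_le_right _ _)), hw'⟩)
    obtain ⟨b', hb'⟩ := ih w hw' h4
    have h5 := h1 w hw' (hwz.trans_le (min_le_left _ _)) b' hb'
    exact ⟨hw', h4, h5 ▸ hb'⟩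
  cover z hz hrz := by
    have hz' : z ∈ GG ν μ ∩ O := ⟨hz.1, hsub hz.2⟩
    obtain ⟨b, hb⟩ := ih z hz' hrz
    cases b
    · exact Or.inr ⟨hz', hrz, hb⟩
    · exact Or.inl ⟨hz', hrz, hb⟩
  hr _ _ hz := hz.2.1
  sgn b z hz hd := by
    have hz' : z ∈ GG ν μ ∩ O := ⟨hz.1, hsub hz.2⟩
    have h1 : (A z).det ≠ 0 := by
      intro h0
      rw [h0, mul_zero] at hd
      exact lt_irrefl _ hd
    exact ⟨hz', by rw [(rk_eq_iff _).2 h1]; exact hr, pure_of_det h hz' hd⟩

theorem aux {q Θ C : ℝ} {k0 : ℕ} {ν : Measure (W p)} {O : Set (W p)} {f : W p → W p}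
    {A : W p → W p →L[ℝ] W p} (h : Ctx q Θ C k0 ν O f A) (d : ℕ) :
    ∀ lam : ℝ, 0 < lam → ∀ y ∈ GG ν lam ∩ O, p + 2 ≤ rk (A y) + d → ∃ b, Pure ν A b y := by
  induction d with
  | zero =>
    intro lam _ y hy hd
    exact pure_of_ne h hy ((rk_eq_iff _).1 (le_antisymm (rk_le _) (by simpa using hd)))
  | succ d ih =>
    intro lam hlam y hy hd
    by_cases hfull : rk (A y) = p + 2
    · exact pure_of_ne h hy ((rk_eq_iff _).1 hfull)
    have hr : rk (A y) < p + 2 := lt_of_le_of_ne (rk_le _) hfull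
    by_contra hcon
    push Not at hcon
    have h1 := hcon true
    have h2 := hcon false
    simp only [Pure, not_forall, not_exists, not_and, not_le] at h1 h2
    obtain ⟨l1, h1⟩ := h1
    obtain ⟨l2, h2⟩ := h2
    set l := max lam (max l1 l2) with hl
    have hl0 : 0 < l := hlam.trans_le (le_max_left _ _)
    have hK := one_le_KK p
    have hle1 : l ≤ KK p * l := le_mul_of_one_le_left hl0.le hK
    have hle2 : KK p * l ≤ KK p * (KK p * l) := le_mul_of_one_le_left (hl0.le.trans hle1) hK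
    have hμ : 0 < KK p * (KK p * l) := hl0.trans_le (hle1.trans hle2)
    have hy' : y ∈ GG ν (KK p * (KK p * l)) ∩ O :=
      ⟨GG_mono ((le_max_left _ _).trans (hle1.trans hle2)) hy.1, hy.2⟩
    obtain ⟨ρ, Φ, Ψ, J, C0, hc, hJ⟩ := exists_chart h _ hy'
    have hcol := col_of h hμ hr (fun z hz hrz => ih _ hμ z hz (by omega)) hc.sub
    rw [← hJ] at hcol
    obtain ⟨e, he⟩ : ∃ e, e ∉ J := by
      by_contra h0
      push Not at h0
      rw [Finset.eq_univ_iff_forall.2 h0, Finset.card_univ, Fintype.card_fin] at hJ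
      exact hfull hJ.symm
    obtain ⟨δ, hδ, h3⟩ := local_sign h hl0 hc hcol he
    obtain ⟨z1, hz1, hz1', hd1⟩ := h1 δ hδ
    obtain ⟨z2, hz2, hz2', hd2⟩ := h2 δ hδ
    refine h3 z2 ⟨GG_mono ((le_max_right _ _).trans (le_max_right _ _)) hz2,
      mem_ball_iff_norm.2 hz2'⟩ z1 ⟨GG_mono ((le_max_left _ _).trans (le_max_right _ _)) hz1,
      mem_ball_iff_norm.2 hz1'⟩ ?_ ?_
    · simpa [sg] using hd2
    · simpa [sg] using hd1

end AllPureX

theorem all_pure {q Θ C : ℝ} {k0 : ℕ} {ν : Measure (W p)} {O : Set (W p)} {f : W p → W p}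
    {A : W p → W p →L[ℝ] W p} (h : Ctx q Θ C k0 ν O f A) {lam : ℝ} (hlam : 0 < lam) {y : W p}
    (hy : y ∈ GG ν lam ∩ O) : ∃ b, Pure ν A b y :=
  AllPureX.aux h (p + 2) lam hlam y hy (Nat.le_add_left _ _)

end SN

end

section

namespace SN
open Set Filter Topology MeasureTheory Metric Function
open scoped ENNReal NNReal

variable {p : ℕ}

namespace LocAEX

lemma bad (ν : Measure (W p)) (hfin : ν univ < ∞) (c : W p) {R : ℝ} (hR : 0 < R) {ε : ℝ≥0}
    (hε : 0 < ε) : ∃ μ : ℝ, 0 < μ ∧ ∀ i e : Fin (p + 2), i ≠ e →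
      volume {w ∈ ball c R | ∃ y ∈ ball c R, y ∉ GG ν μ ∧ ∀ j, j ≠ i → j ≠ e → y j = w j} ≤ ε := by
  obtain ⟨M, hM⟩ : ∃ M : ℝ, M = (ν univ).toReal := ⟨_, rfl⟩
  have hM0 : 0 ≤ M := hM ▸ ENNReal.toReal_nonneg
  have hMe : ν univ = ENNReal.ofReal M := by rw [hM, ENNReal.ofReal_toReal hfin.ne]
  have hε' : (0 : ℝ) < ε := hε
  obtain ⟨K, hK⟩ : ∃ K : ℝ, K = (10 * 1) ^ p * (2 * R * (2 * R)) := ⟨_, rfl⟩
  have hK0 : 0 ≤ K := by rw [hK]; positivity
  have h1 : 0 ≤ K * M / ε := by positivity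
  refine ⟨M + 1 + K * M / ε, by linarith, fun i e hie => ?_⟩
  have hsh := shadow ν id (L := 1) (μ := M + 1 + K * M / ε) (η := 1) one_pos (by linarith) one_pos
    (fun x y => by simp) (ball c R) (fun y _ s hs => by
      refine (measure_mono (subset_univ _)).trans ?_
      rw [hMe]
      refine ENNReal.ofReal_le_ofReal ?_
      have h2 : (1 : ℝ) ≤ s ^ p := one_le_pow₀ hs
      nlinarith) hie (fun j => c j - R) (fun j => c j + R)
  have hb : ball c R = Set.pi univ (fun j => Ioo (c j - R) (c j + R)) := by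
    rw [ball_pi c hR]
    simp only [Real.ball_eq_Ioo]
  rw [← hb] at hsh
  refine hsh.trans ?_
  have e1 : c i + R - (c i - R) = 2 * R := by ring
  have e2 : c e + R - (c e - R) = 2 * R := by ring
  rw [e1, e2, ← hK]
  refine (mul_le_mul_right (measure_mono (subset_univ _)) _).trans ?_
  rw [hMe, ← ENNReal.ofReal_mul (by positivity), ← ENNReal.ofReal_coe_nnreal]
  refine ENNReal.ofReal_le_ofReal ?_
  rw [div_mul_eq_mul_div, div_le_iff₀ (by linarith)]
  have h3 : (ε : ℝ) * (K * M / ε) = K * M := by field_simp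
  nlinarith

lemma line_conn (c w : W p) {R : ℝ} (hR : 0 < R) (i : Fin (p + 2)) :
    IsPreconnected {t : ℝ | update w i t ∈ ball c R} := by
  refine Set.OrdConnected.isPreconnected ⟨fun a ha b hb t ht => ?_⟩
  simp only [mem_ofPred_eq, mem_ball, dist_pi_lt_iff hR] at ha hb ⊢
  intro j
  by_cases hj : j = i
  · subst hj
    have h1 := ha j
    have h2 := hb j
    simp only [update_self, Real.dist_eq, abs_lt] at h1 h2 ⊢
    constructor <;> linarith [ht.1, ht.2]
  · have h1 := ha j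
    simp only [update_of_ne hj] at h1 ⊢
    exact h1

end LocAEX

open LocAEX

theorem local_ae {q Θ C : ℝ} {k0 : ℕ} {ν : Measure (W p)} {O : Set (W p)} {f : W p → W p}
    {A : W p → W p →L[ℝ] W p} (h : Ctx q Θ C k0 ν O f A) {c : W p} {R : ℝ} (hR : 0 < R)
    (hsub : ball c R ⊆ O) :
    ∃ b, ∀ᵐ x ∂(volume.restrict (ball c R)), 0 ≤ sg b * (A x).det := by
  classical
  let S : Bool → Set (W p) := fun b => {w | ∃ lam : ℝ, 0 < lam ∧ w ∈ GG ν lam ∩ O ∧ Pure ν A b w}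
  have hS : ∀ w, w ∈ S true → w ∈ S false → False := by
    rintro w ⟨lam, h1, h2, h3⟩ ⟨-, -, -, h4⟩
    exact pure_uniq h h1 h2 h3 h4
  have key : ∀ ε : ℝ≥0, 0 < ε → ∃ b, volume (ball c R \ S b) ≤ ((p + 2 : ℕ) : ℝ≥0∞) * ε := by
    intro ε hε
    obtain ⟨μ, hμ, hbad⟩ := bad ν h.fin c hR hε
    choose e he using fun i : Fin (p + 2) => exists_ne i
    refine maj c hR S hS (fun i => {w ∈ ball c R | ∃ y ∈ ball c R, y ∉ GG ν μ ∧
      ∀ j, j ≠ i → j ≠ e i → y j = w j}) ε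
      (fun i => (measure_mono inter_subset_left).trans (hbad i (e i) (he i).symm)) ?_
    intro i w hw hwb
    have hG : ∀ t : ℝ, update w i t ∈ ball c R → update w i t ∈ GG ν μ ∩ O := by
      intro t ht
      refine ⟨?_, hsub ht⟩
      by_contra hc
      exact hwb ⟨hw, _, ht, hc, fun j hj _ => update_of_ne hj _ _⟩
    have hex : ∀ t : ℝ, ∃ b, update w i t ∈ ball c R → Pure ν A b (update w i t) := by
      intro t
      by_cases ht : update w i t ∈ ball c R
      · obtain ⟨b, hb⟩ := all_pure h hμ (hG t ht)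
        exact ⟨b, fun _ => hb⟩
      · exact ⟨true, fun h => absurd h ht⟩
    choose col hcol using hex
    have hcont : ContinuousOn col {t : ℝ | update w i t ∈ ball c R} := by
      intro t0 ht0
      obtain ⟨δ, hδ, hop⟩ := pure_open h hμ (hcol t0 ht0)
      have hu : Continuous fun t : ℝ => ‖update w i t - update w i t0‖ := by
        have h1 : Continuous fun t : ℝ => update w i t := continuous_const.update i continuous_id
        exact (h1.sub continuous_const).norm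
      have hev : ∀ᶠ t in 𝓝 t0, ‖update w i t - update w i t0‖ < δ :=
        hu.continuousAt.eventually_lt continuousAt_const (by simpa using hδ)
      refine (continuousWithinAt_const (b := col t0)).congr_of_eventuallyEq ?_ rfl
      filter_upwards [nhdsWithin_le_nhds hev, self_mem_nhdsWithin] with t h1 h2
      exact hop _ (hG t h2) h1 _ (hcol t h2)
    have hw0 : w i ∈ {t : ℝ | update w i t ∈ ball c R} := by simpa using hw
    refine ⟨col (w i), fun t ht => ⟨μ, hμ, hG t ht, ?_⟩⟩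
    rw [(line_conn c w hR i).constant hcont hw0 ht]
    exact hcol t ht
  have hnull : ∃ b, volume (ball c R \ S b) = 0 := by
    by_contra hc
    push Not at hc
    have hm : min (volume (ball c R \ S true)) (volume (ball c R \ S false)) ≠ 0 :=
      (lt_min (pos_iff_ne_zero.2 (hc true)) (pos_iff_ne_zero.2 (hc false))).ne'
    obtain ⟨ε, hε, hlt⟩ := ENNReal.exists_nnreal_pos_mul_lt
      (ENNReal.natCast_ne_top (p + 2)) hm
    obtain ⟨b, hb⟩ := key ε hε
    rw [mul_comm] at hb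
    cases b
    · exact absurd (hb.trans_lt (hlt.trans_le (min_le_right _ _))) (lt_irrefl _)
    · exact absurd (hb.trans_lt (hlt.trans_le (min_le_left _ _))) (lt_irrefl _)
  obtain ⟨b, hb⟩ := hnull
  refine ⟨b, (ae_restrict_iff' measurableSet_ball).2 ?_⟩
  filter_upwards [measure_eq_zero_iff_ae_notMem.1 hb] with x hx hxb
  have hxS : x ∈ S b := by
    by_contra hc
    exact hx ⟨hxb, hc⟩
  obtain ⟨lam, -, h2, h3⟩ := hxS
  obtain ⟨δ, hδ, h4⟩ := h3 lam
  exact h4 x h2.1 (by simpa using hδ)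

theorem local_nz {q Θ C : ℝ} {k0 : ℕ} {ν : Measure (W p)} {O : Set (W p)} {f : W p → W p}
    {A : W p → W p →L[ℝ] W p} (h : Ctx q Θ C k0 ν O f A) {c : W p} {R : ℝ} (hR : 0 < R)
    (hsub : ball c R ⊆ O) :
    ¬ ∀ᵐ x ∂(volume.restrict (ball c R)), (A x).det = 0 := by
  intro hae
  have h01 : (0 : Fin (p + 2)) ≠ 1 := zero_ne_one
  obtain ⟨ε, hε, hlt⟩ := ENNReal.exists_nnreal_pos_mul_lt ENNReal.one_ne_top
    (measure_ball_pos volume c hR).ne'
  obtain ⟨μ, hμ, hbad⟩ := bad ν h.fin c hR hε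
  obtain ⟨y, hy, hyG⟩ : ∃ y ∈ ball c R, y ∈ GG ν μ := by
    by_contra hc
    push Not at hc
    refine absurd (lt_of_le_of_lt (le_trans (measure_mono fun w hw => ?_) (hbad 0 1 h01))
      (by simpa using hlt)) (lt_irrefl (volume (ball c R)))
    exact ⟨hw, w, hw, hc w hw, fun _ _ _ => rfl⟩
  obtain ⟨δ, hδ, hδb⟩ := Metric.isOpen_iff.1 isOpen_ball y hy
  obtain ⟨z, hz, hzy, hdet⟩ := exists_nz h hμ ⟨hyG, hsub hy⟩ hδ
  have hzb : z ∈ ball c R := hδb (mem_ball_iff_norm.2 hzy)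
  obtain ⟨l, hl⟩ : ∃ l, l = KK p ^ (p + 2) * μ := ⟨_, rfl⟩
  rw [← hl] at hz
  have hK := one_le_KK p
  have hl0 : 0 < l := by rw [hl]; positivity
  have hz2 : z ∈ GG ν (KK p * l) ∩ O := ⟨GG_mono (by nlinarith) hz.1, hz.2⟩
  have hcd : ContinuousWithinAt (fun x => (A x).det) (GG ν (KK p * l) ∩ O) z :=
    ContinuousLinearMap.continuous_det.continuousAt.comp_continuousWithinAt
      (h.contA (KK p * l) z hz2)
  have hev : ∀ᶠ x in 𝓝[GG ν (KK p * l) ∩ O] z, (A x).det ≠ 0 := hcd.eventually_ne hdet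
  have hev2 := (eventually_nhdsWithin_iff.1 hev).and (isOpen_ball.mem_nhds hzb)
  obtain ⟨s, hs, hsb⟩ := Metric.eventually_nhds_iff_ball.1 hev2
  have hLL : 1 ≤ LL p := by
    have : (0 : ℝ) ≤ p := Nat.cast_nonneg p
    unfold LL
    linarith
  have hsh := shadow_ball ν id hl0 hs (fun x y => by
    simpa using le_mul_of_one_le_left (norm_nonneg (x - y)) hLL) hz.1 h01 z
  have h0 : volume {x | x ∈ ball c R ∧ (A x).det ≠ 0} = 0 := by
    have := (ae_restrict_iff' measurableSet_ball).1 hae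
    rw [ae_iff] at this
    simpa using this
  have hcov : ball z s ⊆ {w ∈ ball z s | ∃ y ∈ ball z (LL p * s), y ∉ GG ν (KK p * l) ∧
      ∀ j, j ≠ 0 → j ≠ 1 → id y j = w j} ∪ {x | x ∈ ball c R ∧ (A x).det ≠ 0} := by
    intro w hw
    by_cases hwG : w ∈ GG ν (KK p * l)
    · obtain ⟨h1, h2⟩ := hsb w hw
      exact Or.inr ⟨h2, h1 ⟨hwG, hsub h2⟩⟩
    · exact Or.inl ⟨hw, w, ball_subset_ball (le_mul_of_one_le_left hs.le hLL) hw, hwG,
        fun _ _ _ => rfl⟩
  have h5 := (measure_mono (μ := volume) hcov).trans (measure_union_le _ _)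
  rw [h0, add_zero, Real.volume_pi_ball z hs, Fintype.card_fin] at h5
  have h6 := (ENNReal.ofReal_le_ofReal_iff (by positivity)).1 (h5.trans hsh)
  have h7 : 0 < (2 * s) ^ (p + 2) := by positivity
  have h8 : (1 : ℝ) < ((p : ℝ) + 2) * 2 ^ (p + 4) := by
    have : (0 : ℝ) ≤ p := Nat.cast_nonneg p
    have h9 : (1 : ℝ) ≤ 2 ^ (p + 4) := one_le_pow₀ (by norm_num)
    nlinarith
  exact absurd (div_lt_self h7 h8) (not_lt.2 h6)

end SN

end

section

namespace SN
open Set Filter Topology MeasureTheory Metric Function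
open scoped ENNReal

variable {p : ℕ}

namespace GlobX

/-- local sign and local non-degeneracy around each point of the domain -/
theorem loc {q : ℝ} (hq : 2 < q) {Ω : Set (W p)} (hO : IsOpen Ω)
    {f : W p → W p} {Df : W p → Matrix (Fin (p + 2)) (Fin (p + 2)) ℝ} (hf : ContinuousOn f Ω)
    (hi : InjOn f Ω) (h : SJ.W2q q Ω f Df) {x0 : W p} (hx : x0 ∈ Ω) :
    ∃ R : ℝ, 0 < R ∧ (∃ b, ∀ᵐ x ∂(volume.restrict (ball x0 R)), 0 ≤ sg b * (Df x).det) ∧
      ∀ r : ℝ, 0 < r → r ≤ R → ¬ ∀ᵐ x ∂(volume.restrict (ball x0 r)), (Df x).det = 0 := by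
  obtain ⟨ε, hε, hsub⟩ := Metric.isOpen_iff.1 hO x0 hx
  have hR : 0 < ε / 4 := by linarith
  have h4 : ball x0 (4 * (ε / 4)) ⊆ Ω := by rwa [show 4 * (ε / 4) = ε by ring]
  have h1 : ball x0 (ε / 4) ⊆ Ω := (ball_subset_ball (by linarith)).trans hsub
  obtain ⟨k0, C0, g, F, hg0, hg, hM⟩ := exists_moll (by linarith : 1 ≤ q) hR x0
    (W2q_mono hO.measurableSet measurableSet_ball h4 h) (hf.mono h4)
  obtain ⟨Θ, C, ν, A, hC, hA⟩ := ctx_of_moll hq x0 hg0 hg hM (hf.mono h1) (hi.mono h1)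
  refine ⟨ε / 4, hR, ?_, fun r hr hrR hz => ?_⟩
  · obtain ⟨b, hb⟩ := local_ae hC hR Subset.rfl
    refine ⟨b, ?_⟩
    filter_upwards [hb, hA] with x h1 h2
    rwa [h2, det_toL] at h1
  · refine local_nz hC hr (ball_subset_ball hrR) ?_
    filter_upwards [hz, ae_restrict_of_ae_restrict_of_subset (ball_subset_ball hrR) hA] with x h1 h2
    rw [h2, det_toL, h1]

/-- points near which a property holds almost everywhere -/
def Near (P : W p → Prop) : Set (W p) :=
  {x | ∃ r : ℝ, 0 < r ∧ ∀ᵐ y ∂(volume.restrict (ball x r)), P y}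

theorem near_open (P : W p → Prop) : IsOpen (Near P) := by
  refine Metric.isOpen_iff.2 ?_
  rintro x ⟨r, hr, h⟩
  refine ⟨r / 2, by linarith, fun y hy => ⟨r / 2, by linarith, ?_⟩⟩
  refine ae_restrict_of_ae_restrict_of_subset (fun z hz => ?_) h
  rw [mem_ball] at hy hz ⊢
  linarith [dist_triangle z y x]

theorem ae_of_near {P : W p → Prop} {Ω : Set (W p)} (hO : IsOpen Ω) (h : Ω ⊆ Near P) :
    ∀ᵐ x ∂(volume.restrict Ω), P x := by
  rw [ae_restrict_iff' hO.measurableSet, ae_iff]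
  refine measure_null_of_locally_null _ fun x hx => ?_
  have hxΩ : x ∈ Ω := by
    by_contra hn
    exact hx fun h' => absurd h' hn
  obtain ⟨r, hr, h1⟩ := h hxΩ
  rw [ae_restrict_iff' measurableSet_ball, ae_iff] at h1
  refine ⟨{a | ¬ (a ∈ Ω → P a)} ∩ ball x r,
    inter_mem_nhdsWithin _ (ball_mem_nhds x hr), measure_mono_null (fun a ha => ?_) h1⟩
  exact fun h' => ha.1 fun _ => h' ha.2

end GlobX

theorem no_sign_change {q : ℝ} (hq : 2 < q) {Ω : Set (W p)} (hO : IsOpen Ω) (hc : IsConnected Ω)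
    {f : W p → W p} {Df : W p → Matrix (Fin (p + 2)) (Fin (p + 2)) ℝ} (hf : ContinuousOn f Ω)
    (hi : InjOn f Ω) (h : SJ.W2q q Ω f Df) :
    (∀ᵐ x ∂(volume.restrict Ω), 0 ≤ (Df x).det) ∨
      (∀ᵐ x ∂(volume.restrict Ω), (Df x).det ≤ 0) := by
  have hcov : Ω ⊆ GlobX.Near (fun x => 0 ≤ (Df x).det) ∪ GlobX.Near (fun x => (Df x).det ≤ 0) := by
    intro x hx
    obtain ⟨R, hR, ⟨b, hb⟩, -⟩ := GlobX.loc hq hO hf hi h hx
    cases b
    · exact Or.inr ⟨R, hR, by simpa [sg] using hb⟩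
    · exact Or.inl ⟨R, hR, by simpa [sg] using hb⟩
  have hdis : Ω ∩ (GlobX.Near (fun x => 0 ≤ (Df x).det) ∩
      GlobX.Near (fun x => (Df x).det ≤ 0)) = ∅ := by
    refine eq_empty_of_forall_notMem ?_
    rintro x ⟨hx, ⟨r1, hr1, h1⟩, ⟨r2, hr2, h2⟩⟩
    obtain ⟨R, hR, -, hnz⟩ := GlobX.loc hq hO hf hi h hx
    refine hnz (min R (min r1 r2)) (lt_min hR (lt_min hr1 hr2)) (min_le_left _ _) ?_
    filter_upwards [ae_restrict_of_ae_restrict_of_subset
        (ball_subset_ball ((min_le_right _ _).trans (min_le_left _ _))) h1,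
      ae_restrict_of_ae_restrict_of_subset
        (ball_subset_ball ((min_le_right _ _).trans (min_le_right _ _))) h2] with y a1 a2
    exact le_antisymm a2 a1
  rcases isPreconnected_iff_subset_of_disjoint.1 hc.isPreconnected _ _ (GlobX.near_open _)
    (GlobX.near_open _) hcov hdis with h1 | h1
  · exact Or.inl (GlobX.ae_of_near hO h1)
  · exact Or.inr (GlobX.ae_of_near hO h1)

end SN

end
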